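import Mathlib
import Pool.Agent.N870.D.Mak
import Pool.Agent.W307.SE.Avg2G
import Pool.Agent.W307.SE.Fin
import Pool.Agent.N870.EC.Two5

/-!
# Project H (helper870): the growth of the moments in two-parameter families given by linear forms

Statements of the independent parts.
-/

set_option autoImplicit false

namespace Pool.Agent.N870.H

open Finset Polynomial Pool.Agent.W262.RK Pool.Agent.W307.RT Pool.Agent.W307.RS
open Pool.Agent.TH841.PT Pool.Agent.TH841.PM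

open Pool.Agent.W307.SE (SN SelR PARX SELD SELC)

open Pool.Agent.N870.D (c4 ec)

open Pool.Agent.N870.EC (cnt)

/-- the linear forms of a family -/
structure Fm {J : Type} [Fintype J] [DecidableEq J] (cls : J → Fin 4) (a : Fin 3 → ℤ)
    (μ : J → ℕ) (α β : J → ℤ) : Prop where
  cl : ∀ j, cls j ≠ 3
  a0 : ∀ k, a k ≠ 0
  mu : ∀ j, 1 ≤ μ j
  al : ∀ j, α j ≠ 0
  res : ∀ j l, j ≠ l → Res α β j l ≠ 0
  ev : ∀ k, Even (∑ l ∈ fc cls k, μ l)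
  odd : ∀ j, Odd (μ j) ∨ IsSquare (kapM cls a μ α β j)
  rel : ∀ u v : ℤ, FM cls a μ (fv α β u v) 0 - FM cls a μ (fv α β u v) 1 =
    FM cls a μ (fv α β u v) 2

/-- H/AVGK. The average of the `k`-th powers over the coprime pairs of a short square, from the main
average (as `Pool.Agent.W307.SE.avg2g_of`). -/
def S_AVGK : Prop := ∀ (k : ℕ) (E : ℝ), 0 ≤ E → ∀ (J : Type) [Fintype J] [DecidableEq J]
  (cls : J → Fin 4) (a : Fin 3 → ℤ) (μ : J → ℕ) (α β : J → ℤ), Fm cls a μ α β →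
  (∃ z0 : ℕ, ∀ z, z0 ≤ z → ∃ C' : ℝ, ∀ y, z < y →
    ∑ s ∈ Tup J z y, NB cls (fun j _ => kapM cls a μ α β j) s ^ k *
      ∏ j, gw 1 (Fintype.card J) (s j) ≤ C' * (Real.log y) ^ ((Fintype.card J : ℝ) + E)) →
  ∀ B : ℕ, ∃ C : ℝ, ∀ (N1 N2 : ℤ) (X : ℕ), 1 ≤ X → N1.natAbs ≤ X ^ B → N2.natAbs ≤ X ^ B →
    ∑ t ∈ (Icc 1 X ×ˢ Icc 1 X).filter (fun t : ℕ × ℕ =>
      IsCoprime (N1 + (t.1 : ℤ)) (N2 + (t.2 : ℤ)) ∧
      ∀ j, fv α β (N1 + (t.1 : ℤ)) (N2 + (t.2 : ℤ)) j ≠ 0),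
    SN (FM cls a μ (fv α β (N1 + (t.1 : ℤ)) (N2 + (t.2 : ℤ))) 0)
        (FM cls a μ (fv α β (N1 + (t.1 : ℤ)) (N2 + (t.2 : ℤ))) 1) ^ k ≤
      C * (X ^ 2 * (1 + Real.log X) ^ E)

/-- the number (`0` or `1`) of the roots of the type `i.2` -/
noncomputable def gκ {J : Type} (κ : J → ℤ) (z : ℕ) (i : J × Ty) (p : ℕ) : ℝ :=
  if p.Prime ∧ z < p ∧ i.2 = (fun _ => sg0 p (κ i.1)) then 1 else 0

/-- H/CONV. From the constants `κ` to the types. -/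
def S_CONV : Prop := ∀ (J : Type) [Fintype J] [DecidableEq J] (cls : J → Fin 4) (κ : J → ℤ)
  (k c z y : ℕ), (∀ j, cls j ≠ 3) → 2 ≤ z → c ≤ z →
  ∑ s ∈ Tup J z y, NB cls (fun j _ => κ j) s ^ k * ∏ j, gw 1 c (s j) ≤
    ∑ s ∈ Tup (J × Ty) z y, NBK k (clsI cls) eI s * ∏ i, gp (gκ κ z i) c (s i)

/-- H/MAKH. The main average for constants `κ` (as `Pool.Agent.N870.D.makd`). -/
def S_MAKH : Prop := ∀ (J : Type) [Fintype J] [DecidableEq J] (cls : J → Fin 3) (κ : J → ℤ)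
  (sp : J → Bool) (k : ℕ) (E : ℝ), 1 ≤ k → (∀ j, κ j ≠ 0) →
  (∀ j, sp j = false → ¬ IsSquare (κ j)) → (∀ c : Fin 3, ∃ j, cls j ≠ c) → 0 ≤ E →
  (∀ c : Fin 3, ec cls sp k c ≤ E) →
  ∀ c : ℕ, 1 ≤ c → ∃ z0 : ℕ, ∀ z, z0 ≤ z → ∃ C : ℝ, ∀ y, z < y →
    ∑ s ∈ Tup (J × Ty) z y, NBK k (clsI (c4 cls)) eI s * ∏ i, gp (gκ κ z i) c (s i) ≤
      C * (Real.log y) ^ ((Fintype.card J : ℝ) + E)

/-- H/CNTF. The numbers of the residues modulo large primes. -/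
def S_CNTF : Prop := ∀ (J : Type) [Fintype J] [DecidableEq J] [Nonempty J] (cls : J → Fin 4)
  (a : Fin 3 → ℤ)
  (μ : J → ℕ) (α β : J → ℤ), Fm cls a μ α β → ∃ p0 : ℕ, ∀ p : ℕ, p.Prime → p0 ≤ p →
  cnt (fun x y => (p : ℤ) ∣ FM cls a μ (fv α β x y) 0 - FM cls a μ (fv α β x y) 1 ∧
    jacobiSym (FM cls a μ (fv α β x y) 0) p = 1) p =
      (p - 1) * (univ.filter (fun j => cls j = 2 ∧ jacobiSym (kapM cls a μ α β j) p = 1)).card ∧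
  cnt (fun x y => (p : ℤ) ∣ FM cls a μ (fv α β x y) 0 * FM cls a μ (fv α β x y) 1) p =
      (p - 1) * (univ.filter (fun j => cls j ≠ 2)).card + 1

/-- H/MERK. The primes modulo which `κ` is a square. -/
def S_MERK : Prop := ∀ κ : ℤ, κ ≠ 0 → ∀ z : ℕ, 2 ≤ z → ∃ C : ℝ, ∀ y : ℕ, z < y →
  |∑ p ∈ (PS z y).filter (fun p => jacobiSym κ p = 1), 1 / (p : ℝ) -
    (if IsSquare κ then (1 : ℝ) else 1 / 2) * Real.log (Real.log y)| ≤ C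

/-- the number of the forms of the class `c`, and of the split ones -/
noncomputable def nc {J : Type} [Fintype J] (cls : J → Fin 4) (c : Fin 4) : ℝ :=
  ((univ.filter (fun j => cls j = c)).card : ℝ)

open Classical in
/-- the number of the split forms of the class `c` -/
noncomputable def sc {J : Type} [Fintype J] [DecidableEq J] (cls : J → Fin 4) (a : Fin 3 → ℤ)
    (μ : J → ℕ) (α β : J → ℤ) (c : Fin 4) : ℝ :=
  ((univ.filter (fun j => cls j = c ∧ IsSquare (kapM cls a μ α β j))).card : ℝ)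

open Classical in
/-- H/LOWH. The lower bound for the moments over coprime pairs, from `S_CNTF` and `S_MERK`
(by `Pool.Agent.N870.EC.low_gen2` for the forms `FM _ (fv α β a (q a + b))`, `q` large). -/
def S_LOWH : Prop := ∀ (J : Type) [Fintype J] [DecidableEq J] [Nonempty J] (cls : J → Fin 4)
  (a : Fin 3 → ℤ)
  (μ : J → ℕ) (α β : J → ℤ), Fm cls a μ α β → ∀ s ε : ℝ, 0 < s → 0 < ε →
  ∃ K X0 : ℕ, ∀ X : ℕ, X0 ≤ X →
    (X : ℝ) ^ 2 * (Real.log X) ^ ((2 ^ s - 1) * ((nc cls 2 + sc cls a μ α β 2) / 2) -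
        (1 - 2 ^ (-s)) * (nc cls 0 + nc cls 1) - ε) ≤
      ∑ t ∈ (Icc (-(K * X : ℤ)) (K * X) ×ˢ Icc (-(K * X : ℤ)) (K * X)).filter
        (fun t : ℤ × ℤ => IsCoprime t.1 t.2 ∧ ∀ j, fv α β t.1 t.2 j ≠ 0),
        (SN (FM cls a μ (fv α β t.1 t.2) 0) (FM cls a μ (fv α β t.1 t.2) 1)) ^ s

/-- H/CRVK. From the pairs in the boxes to the curves, for the `k`-th powers (as
`Pool.Agent.W307.SE.curves_of`). -/
def S_CRVK : Prop := ∀ (m d k : ℕ) (E : ℝ) (M N : ℤ → ℤ → ℤ), 1 ≤ d → 0 ≤ E → PARX m d M N →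
  LOW m d → SELD → SELC →
  (∃ C : ℝ, 0 ≤ C ∧ ∀ T : ℕ, 1 ≤ T → ∑ t ∈ (Box T).filter (fun t : ℤ × ℤ =>
    IsCoprime t.1 t.2 ∧ M t.1 t.2 ≠ 0 ∧ N t.1 t.2 ≠ 0 ∧ M t.1 t.2 ≠ N t.1 t.2),
    SN (-(M t.1 t.2)) (-(N t.1 t.2)) ^ k ≤ C * ((T : ℝ) ^ 2 * (1 + Real.log T) ^ E)) →
  ∃ C : ℝ, 0 ≤ C ∧ ∀ H : ℕ, 1 ≤ H → ∑ c ∈ Cv m H, ((SelR c.1 c.2).ncard : ℝ) ^ k ≤
    C * ((Cv m H).card * (1 + Real.log H) ^ E)

end Pool.Agent.N870.H
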