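import Mathlib
import Pool.Agent.Y723.Z8.StmS
import Pool.Agent.N870.D.Stm
import Pool.Agent.N870.H.Stm

/-!
# Project H (helper870): the growth of the moments in the family with torsion `Z/2 x Z/8`

Statements of the independent parts.
-/

set_option autoImplicit false

namespace Pool.Agent.N870.H

open Finset Pool.Agent.W262.RK Pool.Agent.W307.RT Pool.Agent.TH841.PT Pool.Agent.Y723.Z8

open Pool.Agent.W307.SE (SN GGg)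

open Pool.Agent.N870.D (ec)

/-- the main average for the `k`-th powers -/
def MK8 (k : ℕ) (E : ℝ) : Prop := ∃ z0 : ℕ, ∀ z, z0 ≤ z → ∃ C : ℝ, ∀ y, z < y →
  ∑ s ∈ Tup (Fin 7 × Bool) z y, NBT cls8 e8 s ^ k * ∏ i, gp (rr8 i) 10 (s i) ≤
    C * (Real.log y) ^ ((7 : ℝ) + E)

/-- H/AVG8. The average of the `k`-th powers over a short square (as
`Pool.Agent.Y383.Z8.avgg_of`). -/
def S_AVG8 : Prop := ∀ (k : ℕ) (E : ℝ), 0 ≤ E → MK8 k E → ∀ B : ℕ, ∃ C : ℝ,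
  ∀ (N1 N2 : ℤ) (X : ℕ), 1 ≤ X → N1.natAbs ≤ X ^ B → N2.natAbs ≤ X ^ B →
    ∑ t ∈ Icc 1 X ×ˢ Icc 1 X, GGg (fun A B => SN A B ^ k) M8 N8
      (N1 + (t.1 : ℤ), N2 + (t.2 : ℤ)) ≤ C * (X ^ 2 * (1 + Real.log X) ^ E)

/-- the classes of the seven forms -/
def c73 : Fin 7 → Fin 3 := ![0, 0, 1, 1, 2, 2, 2]

/-- the split forms -/
def sp7 (j : Fin 7) : Bool := decide (j.val < 5)

/-- H/MAK8. The main average for the `k`-th powers. -/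
def S_MAK8 : Prop := ∀ (k : ℕ) (E : ℝ), 1 ≤ k → 0 ≤ E → (∀ c : Fin 3, ec c73 sp7 k c ≤ E) → MK8 k E

/-- H/FAMK. From `S_AVGK` to the forms `M`, `N` in shifted coordinates (as
`Pool.Agent.W307.SE.famg_of`). -/
def S_FAMK : Prop := ∀ (k : ℕ) (E : ℝ), 0 ≤ E → ∀ (J : Type) [Fintype J] [DecidableEq J]
  (cls : J → Fin 4) (a : Fin 3 → ℤ) (μ : J → ℕ) (α β : J → ℤ), Fm cls a μ α β →
  (∃ z0 : ℕ, ∀ z, z0 ≤ z → ∃ C' : ℝ, ∀ y, z < y →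
    ∑ s ∈ Tup J z y, NB cls (fun j _ => kapM cls a μ α β j) s ^ k *
      ∏ j, gw 1 (Fintype.card J) (s j) ≤ C' * (Real.log y) ^ ((Fintype.card J : ℝ) + E)) →
  ∀ (q : ℕ) (M N : ℤ → ℤ → ℤ), (∀ u v, FM cls a μ (fv α β u v) 0 = -(M u (v + q * u))) →
  (∀ u v, FM cls a μ (fv α β u v) 1 = -(N u (v + q * u))) →
  ∀ B : ℕ, ∃ C : ℝ, ∀ (N1 N2 : ℤ) (X : ℕ), 1 ≤ X → N1.natAbs ≤ X ^ B → N2.natAbs ≤ X ^ B →
    ∑ t ∈ Icc 1 X ×ˢ Icc 1 X, GGg (fun A B => SN A B ^ k) M N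
      (N1 + (t.1 : ℤ), N2 + (t.2 : ℤ)) ≤ C * (X ^ 2 * (1 + Real.log X) ^ E)

end Pool.Agent.N870.H
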