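import Mathlib
import Pool.Agent.N870.H.Stm8
import Pool.Agent.N870.D.Fin

/-!
# Project H: split binary forms, the dictionary
-/

set_option autoImplicit false

namespace Pool.Agent.N870.H

open Finset Filter Polynomial Pool.Agent.W262.RK Pool.Agent.W307.RT Pool.Agent.W307.RS
open Pool.Agent.TH841.PT Pool.Agent.TH841.PM

open Pool.Agent.W307.SE (SN SN_nonneg GGg)

open Pool.Agent.N870.D (c4)

open Pool.Agent.N870.EC (mw mw_nonneg mw_le)

section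

variable {n : Fin 3 → ℕ}

/-- the value of the form `F_k` -/
def Fo (a : Fin 3 → ℤ) (l : ∀ k : Fin 3, Fin (n k) → ℤ × ℤ) (m : ∀ k : Fin 3, Fin (n k) → ℕ)
    (k : Fin 3) (u v : ℤ) : ℤ :=
  a k * ∏ i, ((l k i).1 * u + (l k i).2 * v) ^ m k i

/-- the constants of the linear factors -/
def kp (a : Fin 3 → ℤ) (l : ∀ k : Fin 3, Fin (n k) → ℤ × ℤ) (m : ∀ k : Fin 3, Fin (n k) → ℕ)
    (k : Fin 3) (i : Fin (n k)) : ℤ :=
  ![-(Fo a l m 1 (l k i).2 (-(l k i).1)), -(Fo a l m 0 (l k i).2 (-(l k i).1)),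
    Fo a l m 0 (l k i).2 (-(l k i).1)] k

/-- the classes -/
def cl3 (x : Σ k : Fin 3, Fin (n k)) : Fin 3 := x.1

/-- the exponents -/
def mu (m : ∀ k : Fin 3, Fin (n k) → ℕ) (x : Σ k : Fin 3, Fin (n k)) : ℕ := m x.1 x.2

/-- the first coefficients, after the substitution `v -> v + q u` -/
def al (l : ∀ k : Fin 3, Fin (n k) → ℤ × ℤ) (q : ℕ) (x : Σ k : Fin 3, Fin (n k)) : ℤ :=
  (l x.1 x.2).1 + q * (l x.1 x.2).2

/-- the second coefficients -/
def be (l : ∀ k : Fin 3, Fin (n k) → ℤ × ℤ) (x : Σ k : Fin 3, Fin (n k)) : ℤ := (l x.1 x.2).2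

lemma prod_fc {M : Type} [CommMonoid M] (F : (Σ k : Fin 3, Fin (n k)) → M) (k : Fin 3) :
    ∏ x ∈ fc (c4 (cl3 (n := n))) k, F x = ∏ i, F ⟨k, i⟩ := by
  unfold fc
  rw [prod_filter, Fintype.prod_sigma, Finset.prod_eq_single k]
  · refine prod_congr rfl fun i _ => ?_
    rw [if_pos]
    rfl
  · intro l _ hl
    refine prod_eq_one fun i _ => ?_
    rw [if_neg]
    intro h
    exact hl (Fin.castSucc_injective 3 h)
  · intro h
    exact absurd (mem_univ k) h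

lemma sum_fc {M : Type} [AddCommMonoid M] (F : (Σ k : Fin 3, Fin (n k)) → M) (k : Fin 3) :
    ∑ x ∈ fc (c4 (cl3 (n := n))) k, F x = ∑ i, F ⟨k, i⟩ := by
  unfold fc
  rw [sum_filter, Fintype.sum_sigma, Finset.sum_eq_single k]
  · refine sum_congr rfl fun i _ => ?_
    rw [if_pos]
    rfl
  · intro l _ hl
    refine sum_eq_zero fun i _ => ?_
    rw [if_neg]
    intro h
    exact hl (Fin.castSucc_injective 3 h)
  · intro h
    exact absurd (mem_univ k) h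

lemma fv_eq (l : ∀ k : Fin 3, Fin (n k) → ℤ × ℤ) (q : ℕ) (u v : ℤ)
    (x : Σ k : Fin 3, Fin (n k)) :
    fv (al l q) (be l) u v x = (l x.1 x.2).1 * u + (l x.1 x.2).2 * (v + q * u) := by
  unfold fv al be
  ring

lemma FM_eq (a : Fin 3 → ℤ) (l : ∀ k : Fin 3, Fin (n k) → ℤ × ℤ)
    (m : ∀ k : Fin 3, Fin (n k) → ℕ) (q : ℕ) (k : Fin 3) (u v : ℤ) :
    FM (c4 (cl3 (n := n))) a (mu m) (fv (al l q) (be l) u v) k = Fo a l m k u (v + q * u) := by
  unfold FM Fo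
  rw [prod_fc]
  congr 1
  refine prod_congr rfl fun i _ => ?_
  rw [fv_eq]
  rfl

lemma Res_eq (l : ∀ k : Fin 3, Fin (n k) → ℤ × ℤ) (q : ℕ) (x y : Σ k : Fin 3, Fin (n k)) :
    Res (al l q) (be l) x y =
      -((l y.1 y.2).1 * (l x.1 x.2).2 + (l y.1 y.2).2 * (-(l x.1 x.2).1)) := by
  unfold Res al be
  ring

lemma Fo_root (a : Fin 3 → ℤ) (l : ∀ k : Fin 3, Fin (n k) → ℤ × ℤ)
    (m : ∀ k : Fin 3, Fin (n k) → ℕ) (q : ℕ) (k : Fin 3) (hev : Even (∑ i, m k i))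
    (x : Σ k : Fin 3, Fin (n k)) :
    a k * ∏ y ∈ fc (c4 (cl3 (n := n))) k, Res (al l q) (be l) x y ^ mu m y =
      Fo a l m k (l x.1 x.2).2 (-(l x.1 x.2).1) := by
  unfold Fo
  rw [prod_fc]
  congr 1
  have h1 : ∀ i, Res (al l q) (be l) x ⟨k, i⟩ ^ mu m ⟨k, i⟩ =
      (-1) ^ m k i * ((l k i).1 * (l x.1 x.2).2 + (l k i).2 * (-(l x.1 x.2).1)) ^ m k i := by
    intro i
    rw [Res_eq, neg_pow]
    rfl
  rw [prod_congr rfl fun i _ => h1 i, prod_mul_distrib, prod_pow_eq_pow_sum, hev.neg_one_pow,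
    one_mul]

lemma kap_eq (a : Fin 3 → ℤ) (l : ∀ k : Fin 3, Fin (n k) → ℤ × ℤ)
    (m : ∀ k : Fin 3, Fin (n k) → ℕ) (q : ℕ) (hev : ∀ k, Even (∑ i, m k i))
    (x : Σ k : Fin 3, Fin (n k)) :
    kapM (c4 (cl3 (n := n))) a (mu m) (al l q) (be l) x = kp a l m x.1 x.2 := by
  have h1 : ∀ k, a k * ∏ y ∈ fc (c4 (cl3 (n := n))) k, Res (al l q) (be l) x y ^ mu m y =
      Fo a l m k (l x.1 x.2).2 (-(l x.1 x.2).1) := fun k => Fo_root a l m q k (hev k) x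
  unfold kapM
  rw [h1]
  obtain ⟨k, i⟩ := x
  unfold kp
  fin_cases k
  · show -1 * _ = -_
    rw [neg_one_mul]
    rfl
  · show -1 * _ = -_
    rw [neg_one_mul]
    rfl
  · show 1 * _ = _
    rw [one_mul]
    rfl

/-- the hypotheses on the forms -/
structure HF (a : Fin 3 → ℤ) (l : ∀ k : Fin 3, Fin (n k) → ℤ × ℤ)
    (m : ∀ k : Fin 3, Fin (n k) → ℕ) : Prop where
  pos : 0 < n 0 + n 1 + n 2
  a0 : ∀ k, a k ≠ 0
  l0 : ∀ k i, l k i ≠ 0
  lne : ∀ k i k' j, (⟨k, i⟩ : Σ k : Fin 3, Fin (n k)) ≠ ⟨k', j⟩ →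
    (l k i).1 * (l k' j).2 ≠ (l k' j).1 * (l k i).2
  mp : ∀ k i, 1 ≤ m k i
  ev : ∀ k, Even (∑ i, m k i)
  odd : ∀ k i, Odd (m k i) ∨ IsSquare (kp a l m k i)
  rel : ∀ u v : ℤ, Fo a l m 0 u v - Fo a l m 1 u v = Fo a l m 2 u v

variable {a : Fin 3 → ℤ} {l : ∀ k : Fin 3, Fin (n k) → ℤ × ℤ} {m : ∀ k : Fin 3, Fin (n k) → ℕ}

lemma exists_q (h : ∀ k i, l k i ≠ 0) : ∃ q : ℕ, ∀ x : Σ k : Fin 3, Fin (n k), al l q x ≠ 0 := by
  refine ⟨1 + ∑ x : Σ k : Fin 3, Fin (n k), (l x.1 x.2).1.natAbs, fun x hx => ?_⟩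
  unfold al at hx
  by_cases hb : (l x.1 x.2).2 = 0
  · rw [hb, mul_zero, add_zero] at hx
    exact h x.1 x.2 (Prod.ext hx hb)
  · have h1 : (l x.1 x.2).1.natAbs ≤ ∑ x : Σ k : Fin 3, Fin (n k), (l x.1 x.2).1.natAbs :=
      single_le_sum (f := fun x : Σ k : Fin 3, Fin (n k) => (l x.1 x.2).1.natAbs)
        (fun _ _ => Nat.zero_le _) (mem_univ x)
    have h2 : (l x.1 x.2).1 = -(((1 + ∑ x : Σ k : Fin 3, Fin (n k), (l x.1 x.2).1.natAbs : ℕ) : ℤ) *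
        (l x.1 x.2).2) := by linarith
    have h3 : (l x.1 x.2).1.natAbs = (1 + ∑ x : Σ k : Fin 3, Fin (n k), (l x.1 x.2).1.natAbs) *
        (l x.1 x.2).2.natAbs := by
      conv_lhs => rw [h2]
      rw [Int.natAbs_neg, Int.natAbs_mul, Int.natAbs_natCast]
    have h4 : 1 ≤ (l x.1 x.2).2.natAbs := Int.natAbs_pos.2 hb
    have h5 : (1 + ∑ x : Σ k : Fin 3, Fin (n k), (l x.1 x.2).1.natAbs) * 1 ≤
        (1 + ∑ x : Σ k : Fin 3, Fin (n k), (l x.1 x.2).1.natAbs) * (l x.1 x.2).2.natAbs :=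
      Nat.mul_le_mul_left _ h4
    omega

/-- the family in the sense of the library -/
lemma HF.fm (h : HF a l m) {q : ℕ} (hq : ∀ x : Σ k : Fin 3, Fin (n k), al l q x ≠ 0) :
    Fm (c4 (cl3 (n := n))) a (mu m) (al l q) (be l) where
  cl := fun j => Pool.Agent.N870.D.c4_ne _ j
  a0 := h.a0
  mu := fun j => h.mp j.1 j.2
  al := hq
  res := by
    intro j i hji
    rw [Res_eq]
    intro h0
    apply h.lne j.1 j.2 i.1 i.2 hji
    linarith
  ev := by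
    intro k
    rw [sum_fc]
    exact h.ev k
  odd := by
    intro j
    rw [kap_eq a l m q h.ev j]
    exact h.odd j.1 j.2
  rel := by
    intro u v
    rw [FM_eq, FM_eq, FM_eq]
    exact h.rel _ _

/-- the number of the split factors -/
noncomputable def sH (a : Fin 3 → ℤ) (l : ∀ k : Fin 3, Fin (n k) → ℤ × ℤ)
    (m : ∀ k : Fin 3, Fin (n k) → ℕ) (k : Fin 3) : ℕ := by
  classical
  exact (univ.filter (fun i => IsSquare (kp a l m k i))).card

/-- the exponent -/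
noncomputable def eH (a : Fin 3 → ℤ) (l : ∀ k : Fin 3, Fin (n k) → ℤ × ℤ)
    (m : ∀ k : Fin 3, Fin (n k) → ℕ) (s : ℝ) (c : Fin 3) : ℝ :=
  (2 ^ s - 1) * (((n c : ℝ) + sH a l m c) / 2) - (1 - 2 ^ (-s)) * (n 0 + n 1 + n 2 - n c : ℝ)

lemma Fo_zero (h : ∀ k i, 1 ≤ m k i) {k : Fin 3} (hk : 0 < n k) : Fo a l m k 0 0 = 0 := by
  unfold Fo
  rw [prod_eq_zero (mem_univ (⟨0, hk⟩ : Fin (n k))), mul_zero]
  rw [mul_zero, mul_zero, add_zero]
  exact zero_pow (by have := h k ⟨0, hk⟩; omega)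

lemma Fo_const {k : Fin 3} (hk : n k = 0) (u v : ℤ) : Fo a l m k u v = a k := by
  unfold Fo
  have : ∏ i, ((l k i).1 * u + (l k i).2 * v) ^ m k i = 1 :=
    prod_eq_one fun i _ => absurd i.2 (by omega)
  rw [this, mul_one]

/-- there is a point where no form vanishes -/
lemma exists_ne (h : HF a l m) : ∃ v : ℤ, ∀ k, Fo a l m k 1 v ≠ 0 := by
  obtain ⟨q, hq⟩ := exists_q h.l0
  refine ⟨q, fun k => ?_⟩
  unfold Fo
  refine mul_ne_zero (h.a0 k) (prod_ne_zero_iff.2 fun i _ => pow_ne_zero _ ?_)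
  have h1 := hq ⟨k, i⟩
  unfold al at h1
  intro h2
  apply h1
  rw [← h2]
  ring

/-- two classes are not empty -/
lemma HF.two (h : HF a l m) (c : Fin 3) : ∃ j : Σ k : Fin 3, Fin (n k), cl3 j ≠ c := by
  by_contra hc
  push Not at hc
  have h1 : ∀ k, k ≠ c → n k = 0 := by
    intro k hk
    by_contra h0
    exact hk (hc ⟨k, ⟨0, Nat.pos_of_ne_zero h0⟩⟩)
  have h2 : 0 < n c := by
    by_contra h0
    have h3 : ∀ k, n k = 0 := by
      intro k
      by_cases hk : k = c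
      · rw [hk]
        omega
      · exact h1 k hk
    have := h.pos
    rw [h3 0, h3 1, h3 2] at this
    omega
  obtain ⟨v, hv⟩ := exists_ne h
  have h3 : Fo a l m c 0 0 = Fo a l m c 1 v := by
    have e0 := h.rel 0 0
    have e1 := h.rel 1 v
    fin_cases c
    · have k1 := h1 1 (by decide)
      have k2 := h1 2 (by decide)
      rw [Fo_const k1, Fo_const k2] at e0 e1
      show Fo a l m 0 0 0 = Fo a l m 0 1 v
      linarith
    · have k1 := h1 0 (by decide)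
      have k2 := h1 2 (by decide)
      rw [Fo_const k1, Fo_const k2] at e0 e1
      show Fo a l m 1 0 0 = Fo a l m 1 1 v
      linarith
    · have k1 := h1 0 (by decide)
      have k2 := h1 1 (by decide)
      rw [Fo_const k1, Fo_const k2] at e0 e1
      show Fo a l m 2 0 0 = Fo a l m 2 1 v
      linarith
  rw [Fo_zero h.mp h2] at h3
  exact hv c h3.symm

end

end Pool.Agent.N870.H
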