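import Mathlib
import Pool.Agent.N870.H.Gen

/-!
# Project H: split binary forms, the lower bound for all the moments
-/

set_option autoImplicit false

namespace Pool.Agent.N870.H

open Finset Filter Polynomial Pool.Agent.W262.RK Pool.Agent.W307.RT Pool.Agent.W307.RS
open Pool.Agent.TH841.PT Pool.Agent.TH841.PM

open Pool.Agent.W307.SE (SN SN_nonneg GGg)

open Pool.Agent.N870.D (c4 card_cP card_cP' card_ne_cP cP)

open Pool.Agent.N870.EC (mw mw_nonneg mw_le S_PW)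

open Pool.Agent.TH841.SH.D (rk ShaTor)

/-- powers of logarithms under a linear change of the variable -/
lemma scale_log (K : ℕ) (hK : 1 ≤ K) (e ε C : ℝ) (hε : 0 < ε) :
    ∃ T0 : ℕ, ∀ T : ℕ, T0 ≤ T → C * ((T : ℝ) ^ 2 * (Real.log T) ^ (e - ε)) ≤
      ((T / K : ℕ) : ℝ) ^ 2 * (Real.log ((T / K : ℕ) : ℝ)) ^ (e - ε / 2) := by
  obtain ⟨W, hW⟩ : ∃ W : ℝ, W = |C| * (4 * (K : ℝ) ^ 2) * 2 ^ |e - ε / 2| := ⟨_, rfl⟩
  obtain ⟨L1, hL1⟩ := eventually_atTop.1 (((tendsto_rpow_atTop (show 0 < ε / 2 by positivity)).comp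
    (Real.tendsto_log_atTop.comp (tendsto_natCast_atTop_atTop (R := ℝ)))).eventually_ge_atTop W)
  refine ⟨L1 + 4 * K ^ 2 + 16, fun T hT => ?_⟩
  obtain ⟨X, hX⟩ : ∃ X : ℕ, X = T / K := ⟨_, rfl⟩
  rw [← hX]
  have hK0 : (0 : ℝ) < K := by exact_mod_cast hK
  have h1 : T < K * (X + 1) := by
    rw [hX]
    exact Nat.lt_mul_div_succ T (by omega)
  have hXT : X ≤ T := by
    rw [hX]
    exact Nat.div_le_self _ _
  have hX1 : 4 ≤ X := by
    rw [hX, Nat.le_div_iff_mul_le (by omega)]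
    nlinarith [Nat.one_le_pow 2 K (by omega)]
  have h2 : (T : ℝ) ≤ 2 * K * X := by
    have h3 : T ≤ 2 * K * X := by
      have : K * (X + 1) ≤ K * (2 * X) := Nat.mul_le_mul_left _ (by omega)
      calc T ≤ K * (X + 1) := h1.le
        _ ≤ K * (2 * X) := this
        _ = 2 * K * X := by ring
    exact_mod_cast h3
  have hTr : (16 : ℝ) ≤ T := by exact_mod_cast (by omega : 16 ≤ T)
  have hXr : (4 : ℝ) ≤ X := by exact_mod_cast hX1
  have hlT : 1 < Real.log T := by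
    rw [Real.lt_log_iff_exp_lt (by linarith)]
    have := Real.exp_one_lt_d9
    linarith
  have h4 : Real.log X ≤ Real.log T := Real.log_le_log (by linarith) (by exact_mod_cast hXT)
  have h5 : Real.log T / 2 ≤ Real.log X := by
    have h6 : (T : ℝ) ≤ (X : ℝ) ^ 2 := by
      have h7 : T ≤ X ^ 2 := by
        have h8 : 2 * K ≤ X := by
          rw [hX, Nat.le_div_iff_mul_le (by omega)]
          nlinarith [Nat.one_le_pow 2 K (by omega)]
        have h9 : T ≤ 2 * K * X := by exact_mod_cast h2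
        calc T ≤ 2 * K * X := h9
          _ ≤ X * X := Nat.mul_le_mul_right _ h8
          _ = X ^ 2 := by ring
      exact_mod_cast h7
    have h10 := Real.log_le_log (by linarith) h6
    rw [Real.log_pow] at h10
    push_cast at h10
    linarith
  have hlT0 : 0 < Real.log T := by linarith
  have hlX0 : 0 < Real.log X := by linarith
  have h11 : (Real.log T) ^ (e - ε / 2) ≤ 2 ^ |e - ε / 2| * (Real.log X) ^ (e - ε / 2) := by
    rcases le_or_gt 0 (e - ε / 2) with h0 | h0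
    · rw [abs_of_nonneg h0, ← Real.mul_rpow (by norm_num) hlX0.le]
      exact Real.rpow_le_rpow hlT0.le (by linarith) h0
    · have h12 : (1 : ℝ) ≤ 2 ^ |e - ε / 2| := Real.one_le_rpow (by norm_num) (abs_nonneg _)
      have h13 : (Real.log T) ^ (e - ε / 2) ≤ (Real.log X) ^ (e - ε / 2) :=
        Real.rpow_le_rpow_of_nonpos hlX0 h4 h0.le
      have h14 : 0 ≤ (Real.log X) ^ (e - ε / 2) := Real.rpow_nonneg hlX0.le _
      nlinarith
  have h12 : (Real.log T) ^ (e - ε / 2) = (Real.log T) ^ (ε / 2) * (Real.log T) ^ (e - ε) := by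
    rw [← Real.rpow_add hlT0]
    congr 1
    ring
  have h13 : W ≤ (Real.log T) ^ (ε / 2) := hL1 T (by omega)
  have h14 : 0 ≤ (Real.log T) ^ (e - ε) := Real.rpow_nonneg hlT0.le _
  have h2p : (0 : ℝ) < 2 ^ |e - ε / 2| := by positivity
  have h15 : W * (Real.log T) ^ (e - ε) ≤ 2 ^ |e - ε / 2| * (Real.log X) ^ (e - ε / 2) := by
    calc W * (Real.log T) ^ (e - ε) ≤ (Real.log T) ^ (ε / 2) * (Real.log T) ^ (e - ε) :=
          mul_le_mul_of_nonneg_right h13 h14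
      _ = (Real.log T) ^ (e - ε / 2) := h12.symm
      _ ≤ _ := h11
  have h16 : |C| * (4 * (K : ℝ) ^ 2) * (Real.log T) ^ (e - ε) ≤ (Real.log X) ^ (e - ε / 2) := by
    rw [hW] at h15
    have h17 : 2 ^ |e - ε / 2| * (|C| * (4 * (K : ℝ) ^ 2) * (Real.log T) ^ (e - ε)) ≤
        2 ^ |e - ε / 2| * (Real.log X) ^ (e - ε / 2) := by
      refine le_trans (le_of_eq ?_) h15
      ring
    exact le_of_mul_le_mul_left h17 h2p
  calc C * ((T : ℝ) ^ 2 * (Real.log T) ^ (e - ε))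
      ≤ |C| * ((T : ℝ) ^ 2 * (Real.log T) ^ (e - ε)) :=
        mul_le_mul_of_nonneg_right (le_abs_self _) (by positivity)
    _ ≤ |C| * ((2 * K * X : ℝ) ^ 2 * (Real.log T) ^ (e - ε)) := by
        refine mul_le_mul_of_nonneg_left ?_ (abs_nonneg _)
        exact mul_le_mul_of_nonneg_right (pow_le_pow_left₀ (by linarith) h2 2) h14
    _ = (X : ℝ) ^ 2 * (|C| * (4 * (K : ℝ) ^ 2) * (Real.log T) ^ (e - ε)) := by ring
    _ ≤ (X : ℝ) ^ 2 * (Real.log X) ^ (e - ε / 2) :=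
        mul_le_mul_of_nonneg_left h16 (by positivity)

section

variable {n : Fin 3 → ℕ} {a : Fin 3 → ℤ} {l : ∀ k : Fin 3, Fin (n k) → ℤ × ℤ}
  {m : ∀ k : Fin 3, Fin (n k) → ℕ}

open Classical in
/-- the lower bound for the class 2 -/
theorem low_two (hlow : S_LOWH) (h : HF a l m) (s ε : ℝ) (hs : 0 < s) (hε : 0 < ε) (C : ℝ) :
    ∃ T0 : ℕ, ∀ T : ℕ, T0 ≤ T → C * ((T : ℝ) ^ 2 * (Real.log T) ^ (eH a l m s 2 - ε)) ≤
      ∑ t ∈ (Box T).filter (fun t : ℤ × ℤ => IsCoprime t.1 t.2 ∧ ∀ k, Fo a l m k t.1 t.2 ≠ 0),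
        SN (Fo a l m 0 t.1 t.2) (Fo a l m 1 t.1 t.2) ^ s := by
  obtain ⟨q, hq⟩ := exists_q h.l0
  have hfm := h.fm hq
  haveI : Nonempty (Σ k : Fin 3, Fin (n k)) := by
    obtain ⟨j, -⟩ := h.two 0
    exact ⟨j⟩
  obtain ⟨K, X0, hX0⟩ := hlow _ _ a (mu m) (al l q) (be l) hfm s (ε / 2) hs (by positivity)
  have he : (2 ^ s - 1) * ((nc (c4 (cl3 (n := n))) 2 +
      sc (c4 (cl3 (n := n))) a (mu m) (al l q) (be l) 2) / 2) -
      (1 - 2 ^ (-s)) * (nc (c4 (cl3 (n := n))) 0 + nc (c4 (cl3 (n := n))) 1) =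
      eH a l m s 2 := by
    have h1 : ∀ c : Fin 3, nc (c4 (cl3 (n := n))) c.castSucc = n c := by
      intro c
      unfold nc
      have h2 : (univ.filter (fun x : Σ k : Fin 3, Fin (n k) => cl3 x = c)).card = n c :=
        card_cP' c
      rw [← h2]
      congr 2
      ext x
      rw [mem_filter, mem_filter]
      exact and_congr_right fun _ => (Fin.castSucc_injective 3).eq_iff
    have e0 : nc (c4 (cl3 (n := n))) 0 = n 0 := h1 0
    have e1 : nc (c4 (cl3 (n := n))) 1 = n 1 := h1 1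
    have e2 : nc (c4 (cl3 (n := n))) 2 = n 2 := h1 2
    have e3 : sc (c4 (cl3 (n := n))) a (mu m) (al l q) (be l) 2 = sH a l m 2 := by
      unfold sc
      have h2 := card_cP (n := n) (fun k i => IsSquare (kp a l m k i)) 2
      unfold sH
      have h3 : (univ.filter (fun j : Σ k : Fin 3, Fin (n k) => c4 (cl3 (n := n)) j = 2 ∧
          IsSquare (kapM (c4 (cl3 (n := n))) a (mu m) (al l q) (be l) j))) =
          (univ.filter (fun x : Σ k : Fin 3, Fin (n k) => cP x = 2 ∧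
            IsSquare (kp a l m x.1 x.2))) := by
        ext x
        rw [mem_filter, mem_filter, kap_eq a l m q h.ev x]
        refine and_congr_right fun _ => and_congr_left fun _ => ?_
        exact (Fin.castSucc_injective 3).eq_iff (a := cl3 x) (b := 2)
      rw [h3]
      exact_mod_cast h2.trans (by congr!)
    unfold eH
    rw [e0, e1, e2, e3]
    ring
  rw [he] at hX0
  obtain ⟨Q, hQ⟩ : ∃ Q : ℕ, Q = (q + 1) * K + 1 := ⟨_, rfl⟩
  obtain ⟨T1, hT1⟩ := scale_log Q (by omega) (eH a l m s 2) ε C hε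
  refine ⟨T1 + Q * X0, fun T hT => (hT1 T (by omega)).trans ?_⟩
  have hXX : X0 ≤ T / Q := by
    rw [Nat.le_div_iff_mul_le (by omega)]
    have : X0 * Q = Q * X0 := Nat.mul_comm _ _
    omega
  refine (hX0 (T / Q) hXX).trans ?_
  obtain ⟨X, hX⟩ : ∃ X : ℕ, X = T / Q := ⟨_, rfl⟩
  rw [← hX]
  have hQX : Q * X ≤ T := by
    rw [hX]
    exact Nat.mul_div_le T Q
  have hKX : ((q : ℤ) + 1) * (K * X) ≤ T := by
    have h1 : (q + 1) * (K * X) ≤ T := by
      have : (q + 1) * (K * X) ≤ Q * X := by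
        rw [hQ]
        nlinarith [Nat.zero_le X]
      omega
    exact_mod_cast h1
  -- the substitution
  have hinj : Set.InjOn (fun t : ℤ × ℤ => (t.1, t.2 + q * t.1))
      (((Icc (-(K * X : ℤ)) (K * X) ×ˢ Icc (-(K * X : ℤ)) (K * X)).filter
        (fun t : ℤ × ℤ => IsCoprime t.1 t.2 ∧ ∀ j, fv (al l q) (be l) t.1 t.2 j ≠ 0) :
          Finset (ℤ × ℤ)) : Set (ℤ × ℤ)) := by
    intro t _ t' _ htt
    simp only [Prod.mk.injEq] at htt
    obtain ⟨h1, h2⟩ := htt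
    rw [h1] at h2
    exact Prod.ext h1 (by linarith)
  have hsum : ∑ t ∈ (Icc (-(K * X : ℤ)) (K * X) ×ˢ Icc (-(K * X : ℤ)) (K * X)).filter
        (fun t : ℤ × ℤ => IsCoprime t.1 t.2 ∧ ∀ j, fv (al l q) (be l) t.1 t.2 j ≠ 0),
        (SN (FM (c4 (cl3 (n := n))) a (mu m) (fv (al l q) (be l) t.1 t.2) 0)
          (FM (c4 (cl3 (n := n))) a (mu m) (fv (al l q) (be l) t.1 t.2) 1)) ^ s =
      ∑ t ∈ ((Icc (-(K * X : ℤ)) (K * X) ×ˢ Icc (-(K * X : ℤ)) (K * X)).filter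
        (fun t : ℤ × ℤ => IsCoprime t.1 t.2 ∧ ∀ j, fv (al l q) (be l) t.1 t.2 j ≠ 0)).image
          (fun t : ℤ × ℤ => (t.1, t.2 + q * t.1)),
        SN (Fo a l m 0 t.1 t.2) (Fo a l m 1 t.1 t.2) ^ s := by
    rw [sum_image hinj]
    refine sum_congr rfl fun t _ => ?_
    rw [FM_eq, FM_eq]
  rw [hsum]
  refine sum_le_sum_of_subset_of_nonneg ?_ fun t _ _ => Real.rpow_nonneg (SN_nonneg _ _) _
  intro t ht
  rw [mem_image] at ht
  obtain ⟨w, hw, rfl⟩ := ht
  rw [mem_filter, mem_product, mem_Icc, mem_Icc] at hw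
  obtain ⟨⟨⟨w1, w2⟩, w3, w4⟩, w5, w6⟩ := hw
  rw [mem_filter, mem_Box]
  refine ⟨⟨?_, ?_⟩, ?_, ?_⟩
  · have h1 : (K * X : ℤ) ≤ T := by
      have h2 : (0 : ℤ) ≤ q * (K * X) := by positivity
      nlinarith
    show w.1.natAbs ≤ T
    omega
  · show (w.2 + q * w.1).natAbs ≤ T
    have h1 : |w.2 + q * w.1| ≤ (T : ℤ) := by
      refine le_trans (abs_add_le _ _) (le_trans ?_ hKX)
      rw [abs_mul, Nat.abs_cast]
      have h2 : |w.1| ≤ (K * X : ℤ) := abs_le.2 ⟨w1, w2⟩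
      have h3 : |w.2| ≤ (K * X : ℤ) := abs_le.2 ⟨w3, w4⟩
      have h4 : (q : ℤ) * |w.1| ≤ q * (K * X) := mul_le_mul_of_nonneg_left h2 (by positivity)
      linarith
    rw [Int.abs_eq_natAbs] at h1
    exact_mod_cast h1
  · show IsCoprime w.1 (w.2 + q * w.1)
    exact w5.add_mul_right_right q
  · intro k
    show Fo a l m k w.1 (w.2 + q * w.1) ≠ 0
    unfold Fo
    refine mul_ne_zero (h.a0 k) (prod_ne_zero_iff.2 fun i _ => pow_ne_zero _ ?_)
    have h1 := w6 ⟨k, i⟩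
    rw [fv_eq] at h1
    exact h1

end

end Pool.Agent.N870.H
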