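import Mathlib
import Pool.Agent.N870.H.Low
import Pool.Agent.R421.NR.Par

/-!
# Project H: split binary forms, the lower bound for all the moments, all the classes
-/

set_option autoImplicit false

namespace Pool.Agent.N870.H

open Finset Filter Polynomial Pool.Agent.W262.RK Pool.Agent.W307.RT Pool.Agent.W307.RS
open Pool.Agent.TH841.PT Pool.Agent.TH841.PM

open Pool.Agent.W307.SE (SN SN_nonneg GGg)

open Pool.Agent.N870.EC (mw mw_nonneg mw_le S_PW)

section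

variable {n : Fin 3 → ℕ} {a : Fin 3 → ℤ} {l : ∀ k : Fin 3, Fin (n k) → ℤ × ℤ}
  {m : ∀ k : Fin 3, Fin (n k) → ℕ}

/-- at the zero of a linear factor of `F_k` the form `F_k` vanishes -/
lemma Fo_at (h : HF a l m) (k : Fin 3) (i : Fin (n k)) :
    Fo a l m k (l k i).2 (-(l k i).1) = 0 := by
  unfold Fo
  rw [prod_eq_zero (mem_univ i), mul_zero]
  have : (l k i).1 * (l k i).2 + (l k i).2 * -(l k i).1 = 0 := by ring
  rw [this]
  exact zero_pow (by have := h.mp k i; omega)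

/-- the permuted coefficients -/
def pa (π : Fin 3 → Fin 3) (σ : Fin 3 → ℤ) (a : Fin 3 → ℤ) (k : Fin 3) : ℤ := σ k * a (π k)

lemma Fo_perm (π : Fin 3 → Fin 3) (σ : Fin 3 → ℤ) (k : Fin 3) (u v : ℤ) :
    Fo (n := fun k => n (π k)) (pa π σ a) (fun k => l (π k)) (fun k => m (π k)) k u v =
      σ k * Fo a l m (π k) u v := by
  unfold Fo pa
  ring

/-- the permuted family -/
lemma HF.perm (h : HF a l m) (π : Fin 3 → Fin 3) (σ : Fin 3 → ℤ) (hπ : Function.Injective π)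
    (hσ : ∀ k, σ k ≠ 0) (hs : n (π 0) + n (π 1) + n (π 2) = n 0 + n 1 + n 2)
    (hk : ∀ k i, kp (n := fun k => n (π k)) (pa π σ a) (fun k => l (π k)) (fun k => m (π k)) k i =
      kp a l m (π k) i)
    (hrel : ∀ u v : ℤ, σ 0 * Fo a l m (π 0) u v - σ 1 * Fo a l m (π 1) u v =
      σ 2 * Fo a l m (π 2) u v) :
    HF (n := fun k => n (π k)) (pa π σ a) (fun k => l (π k)) (fun k => m (π k)) where
  pos := by
    rw [hs]
    exact h.pos
  a0 := fun k => mul_ne_zero (hσ k) (h.a0 _)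
  l0 := fun k i => h.l0 (π k) i
  lne := by
    intro k i k' j hne
    refine h.lne (π k) i (π k') j fun h1 => hne ?_
    have h2 : k = k' := hπ (congrArg Sigma.fst h1)
    subst h2
    have h3 : i = j := by simpa using h1
    rw [h3]
  mp := fun k i => h.mp (π k) i
  ev := fun k => h.ev (π k)
  odd := fun k i => by
    rw [hk]
    exact h.odd (π k) i
  rel := by
    intro u v
    rw [Fo_perm, Fo_perm, Fo_perm]
    exact hrel u v

lemma sH_perm (π : Fin 3 → Fin 3) (σ : Fin 3 → ℤ) (k : Fin 3)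
    (hk : ∀ i, kp (n := fun k => n (π k)) (pa π σ a) (fun k => l (π k)) (fun k => m (π k)) k i =
      kp a l m (π k) i) :
    sH (n := fun k => n (π k)) (pa π σ a) (fun k => l (π k)) (fun k => m (π k)) k =
      sH a l m (π k) := by
  unfold sH
  congr 1
  refine filter_congr fun i _ => ?_
  rw [hk]

lemma mw_symm (A B : ℤ) : mw A B = mw B A := by
  have e3 : EQ A B = EQ B A := by
    unfold EQ
    congr 1
    · ring
    · ring
  unfold mw
  rw [e3]

open Classical in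
/-- from the orders of the Selmer groups to `2 ^ rank * #Sha[2]` -/
lemma to_mw (hpw : S_PW) (h : HF a l m) (s : ℝ) (hs : 0 < s) (T : ℕ) (G : ℤ × ℤ → ℝ)
    (hG0 : ∀ t, 0 ≤ G t)
    (hG : ∀ t : ℤ × ℤ, G t = SN (Fo a l m 0 t.1 t.2) (Fo a l m 1 t.1 t.2) ∨
      G t = SN (Fo a l m 1 t.1 t.2) (Fo a l m 0 t.1 t.2)) :
    ∑ t ∈ (Box T).filter (fun t : ℤ × ℤ => IsCoprime t.1 t.2 ∧ ∀ k, Fo a l m k t.1 t.2 ≠ 0),
        G t ^ s ≤
      4 ^ s * ∑ t ∈ (Box T).filter (fun t : ℤ × ℤ => IsCoprime t.1 t.2 ∧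
        ∀ k, Fo a l m k t.1 t.2 ≠ 0), mw (Fo a l m 0 t.1 t.2) (Fo a l m 1 t.1 t.2) ^ s := by
  rw [mul_sum]
  refine sum_le_sum fun t ht => ?_
  have h1 := (mem_filter.1 ht).2.2
  have hne : Fo a l m 0 t.1 t.2 ≠ Fo a l m 1 t.1 t.2 := by
    intro k2
    apply h1 2
    rw [← h.rel, k2, sub_self]
  rw [← Real.mul_rpow (by norm_num) (mw_nonneg _ _)]
  refine Real.rpow_le_rpow (hG0 t) ?_ hs.le
  rcases hG t with h2 | h2
  · rw [h2]
    exact hpw _ _ (h1 0) (h1 1) hne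
  · rw [h2, mw_symm]
    exact hpw _ _ (h1 1) (h1 0) hne.symm

lemma kp_perm (h : HF a l m) (π : Fin 3 → Fin 3) (σ : Fin 3 → ℤ)
    (key : ∀ f : Fin 3 → ℤ, f 0 - f 1 = f 2 → ∀ k, f (π k) = 0 →
      ![-(σ 1 * f (π 1)), -(σ 0 * f (π 0)), σ 0 * f (π 0)] k = ![-f 1, -f 0, f 0] (π k))
    (k : Fin 3) (i : Fin (n (π k))) :
    kp (n := fun k => n (π k)) (pa π σ a) (fun k => l (π k)) (fun k => m (π k)) k i =
      kp a l m (π k) i := by
  have hf := Fo_at h (π k) i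
  have hr := h.rel (l (π k) i).2 (-(l (π k) i).1)
  have h1 := key (fun j => Fo a l m j (l (π k) i).2 (-(l (π k) i).1)) hr k hf
  unfold kp
  rw [Fo_perm, Fo_perm]
  exact h1

open Classical in
/-- the lower bound by a permutation of the classes -/
lemma low_perm (hlow : S_LOWH) (hpw : S_PW) (h : HF a l m) (π : Fin 3 → Fin 3) (σ : Fin 3 → ℤ)
    (hπ : Function.Bijective π) (hσ : ∀ k, σ k ≠ 0)
    (hs : n (π 0) + n (π 1) + n (π 2) = n 0 + n 1 + n 2)
    (key : ∀ f : Fin 3 → ℤ, f 0 - f 1 = f 2 → ∀ k, f (π k) = 0 →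
      ![-(σ 1 * f (π 1)), -(σ 0 * f (π 0)), σ 0 * f (π 0)] k = ![-f 1, -f 0, f 0] (π k))
    (hrel : ∀ f : Fin 3 → ℤ, f 0 - f 1 = f 2 → σ 0 * f (π 0) - σ 1 * f (π 1) = σ 2 * f (π 2))
    (hSN : ∀ f : Fin 3 → ℤ, f 0 - f 1 = f 2 →
      SN (σ 0 * f (π 0)) (σ 1 * f (π 1)) = SN (f 0) (f 1) ∨
      SN (σ 0 * f (π 0)) (σ 1 * f (π 1)) = SN (f 1) (f 0))
    (s ε : ℝ) (hs0 : 0 < s) (hε : 0 < ε) :
    ∃ T0 : ℕ, ∀ T : ℕ, T0 ≤ T → (T : ℝ) ^ 2 * (Real.log T) ^ (eH a l m s (π 2) - ε) ≤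
      ∑ t ∈ (Box T).filter (fun t : ℤ × ℤ => IsCoprime t.1 t.2 ∧ ∀ k, Fo a l m k t.1 t.2 ≠ 0),
        mw (Fo a l m 0 t.1 t.2) (Fo a l m 1 t.1 t.2) ^ s := by
  have h4 : (0 : ℝ) < 4 ^ s := by positivity
  have hkp := kp_perm h π σ key
  have hH := h.perm π σ hπ.injective hσ hs hkp (fun u v => hrel (fun j => Fo a l m j u v) (h.rel u v))
  obtain ⟨T0, hT0⟩ := low_two hlow hH s ε hs0 hε (4 ^ s)
  refine ⟨T0, fun T hT => ?_⟩
  have h1 := hT0 T hT
  have he : eH (n := fun k => n (π k)) (pa π σ a) (fun k => l (π k)) (fun k => m (π k)) s 2 =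
      eH a l m s (π 2) := by
    unfold eH
    rw [sH_perm π σ 2 (hkp 2)]
    have h5 : (n (π 0) : ℝ) + n (π 1) + n (π 2) = n 0 + n 1 + n 2 := by exact_mod_cast hs
    rw [h5]
  rw [he] at h1
  have hfil : ∀ t : ℤ × ℤ, (∀ k, σ k * Fo a l m (π k) t.1 t.2 ≠ 0) ↔
      ∀ k, Fo a l m k t.1 t.2 ≠ 0 := by
    intro t
    constructor
    · intro h1 k
      obtain ⟨j, rfl⟩ := hπ.surjective k
      exact right_ne_zero_of_mul (h1 j)
    · intro h1 k
      exact mul_ne_zero (hσ k) (h1 _)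
  simp only [Fo_perm] at h1
  simp only [hfil] at h1
  have h2 := h1.trans (to_mw hpw h s hs0 T (fun t => SN (σ 0 * Fo a l m (π 0) t.1 t.2)
    (σ 1 * Fo a l m (π 1) t.1 t.2)) (fun t => SN_nonneg _ _) fun t =>
      hSN (fun j => Fo a l m j t.1 t.2) (h.rel t.1 t.2))
  exact le_of_mul_le_mul_left h2 h4

open Classical in
/-- **the lower bound for all the moments** -/
theorem low_hom (hlow : S_LOWH) (hpw : S_PW) (h : HF a l m) (c : Fin 3) (s ε : ℝ) (hs : 0 < s)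
    (hε : 0 < ε) :
    ∃ T0 : ℕ, ∀ T : ℕ, T0 ≤ T → (T : ℝ) ^ 2 * (Real.log T) ^ (eH a l m s c - ε) ≤
      ∑ t ∈ (Box T).filter (fun t : ℤ × ℤ => IsCoprime t.1 t.2 ∧ ∀ k, Fo a l m k t.1 t.2 ≠ 0),
        mw (Fo a l m 0 t.1 t.2) (Fo a l m 1 t.1 t.2) ^ s := by
  fin_cases c
  · refine low_perm hlow hpw h ![1, 2, 0] ![-1, 1, -1] (by decide) (by decide) ?_ ?_ ?_ ?_ s ε hs hε
    · show n 1 + n 2 + n 0 = _
      omega
    · intro f hf k hk
      fin_cases k
      · change f 1 = 0 at hk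
        show -(1 * f 2) = -f 0
        rw [← hf, hk]
        ring
      · change f 2 = 0 at hk
        show -(-1 * f 1) = f 0
        rw [hk] at hf
        linarith
      · change f 0 = 0 at hk
        show -1 * f 1 = -f 1
        ring
    · intro f hf
      show -1 * f 1 - 1 * f 2 = -1 * f 0
      linarith
    · intro f hf
      right
      show SN (-1 * f 1) (1 * f 2) = SN (f 1) (f 0)
      rw [← hf, neg_one_mul, one_mul]
      exact Pool.Agent.R421.NR.SN_sw _ _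
  · refine low_perm hlow hpw h ![0, 2, 1] ![-1, -1, -1] (by decide) (by decide) ?_ ?_ ?_ ?_ s ε hs
      hε
    · show n 0 + n 2 + n 1 = _
      omega
    · intro f hf k hk
      fin_cases k
      · change f 0 = 0 at hk
        show -(-1 * f 2) = -f 1
        rw [hk] at hf
        linarith
      · change f 2 = 0 at hk
        show -(-1 * f 0) = f 0
        ring
      · change f 1 = 0 at hk
        show -1 * f 0 = -f 0
        ring
    · intro f hf
      show -1 * f 0 - -1 * f 2 = -1 * f 1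
      linarith
    · intro f hf
      left
      show SN (-1 * f 0) (-1 * f 2) = SN (f 0) (f 1)
      have : -1 * f 2 = f 1 - f 0 := by rw [← hf]; ring
      rw [this, neg_one_mul]
      exact Pool.Agent.R421.NR.SN_sw _ _
  · have h4 : (0 : ℝ) < 4 ^ s := by positivity
    obtain ⟨T0, hT0⟩ := low_two hlow h s ε hs hε (4 ^ s)
    refine ⟨T0, fun T hT => ?_⟩
    have h1 := (hT0 T hT).trans (to_mw hpw h s hs T (fun t => SN (Fo a l m 0 t.1 t.2)
      (Fo a l m 1 t.1 t.2)) (fun t => SN_nonneg _ _) fun t => Or.inl rfl)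
    exact le_of_mul_le_mul_left h1 h4

end

end Pool.Agent.N870.H
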