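import Mathlib
import Pool.Agent.N870.H.Gen

/-!
# Project H: split binary forms, the upper bound for the integral moments
-/

set_option autoImplicit false

namespace Pool.Agent.N870.H

open Finset Filter Polynomial Pool.Agent.W262.RK Pool.Agent.W307.RT Pool.Agent.W307.RS
open Pool.Agent.TH841.PT Pool.Agent.TH841.PM

open Pool.Agent.W307.SE (SN SN_nonneg GGg)

open Pool.Agent.N870.D (c4 ec card_cP card_cP' card_ne_cP cP)

open Pool.Agent.N870.EC (mw mw_nonneg mw_le)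

/-- from the short squares to the boxes, with growth -/
lemma box_ofE {g : ℤ × ℤ → ℝ} {E : ℝ} (hE : 0 ≤ E) (h : ∀ B : ℕ, ∃ C : ℝ, ∀ (N1 N2 : ℤ) (X : ℕ),
    1 ≤ X → N1.natAbs ≤ X ^ B → N2.natAbs ≤ X ^ B →
    ∑ t ∈ Icc 1 X ×ˢ Icc 1 X, g (N1 + (t.1 : ℤ), N2 + (t.2 : ℤ)) ≤
      C * (X ^ 2 * (1 + Real.log X) ^ E)) :
    ∃ C : ℝ, 0 ≤ C ∧ ∀ T : ℕ, 1 ≤ T → ∑ t ∈ Box T, g t ≤
      C * ((T : ℝ) ^ 2 * (1 + Real.log T) ^ E) := by
  obtain ⟨C, hC⟩ := h 1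
  refine ⟨max C 0 * (9 * (1 + Real.log 3) ^ E), ?_, fun T hT => ?_⟩
  · have : 0 ≤ Real.log 3 := Real.log_nonneg (by norm_num)
    positivity
  have h1 := hC (-(T : ℤ) - 1) (-(T : ℤ) - 1) (2 * T + 1) (by omega) (by rw [pow_one]; omega)
    (by rw [pow_one]; omega)
  have h2 : ∑ t ∈ Box T, g t =
      ∑ t ∈ Icc 1 (2 * T + 1) ×ˢ Icc 1 (2 * T + 1), g (-(T : ℤ) - 1 + (t.1 : ℤ),
        -(T : ℤ) - 1 + (t.2 : ℤ)) := by
    symm
    apply sum_bij (fun (t : ℕ × ℕ) _ => ((-(T : ℤ) - 1 + (t.1 : ℤ), -(T : ℤ) - 1 + (t.2 : ℤ)) :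
      ℤ × ℤ))
    · intro t ht
      rw [mem_product, mem_Icc, mem_Icc] at ht
      rw [mem_Box]
      constructor <;> simp only <;> omega
    · intro t _ t' _ htt
      simp only [Prod.mk.injEq] at htt
      ext <;> omega
    · intro t ht
      rw [mem_Box] at ht
      refine ⟨((t.1 + T + 1).toNat, (t.2 + T + 1).toNat), ?_, ?_⟩
      · rw [mem_product, mem_Icc, mem_Icc]
        simp only
        omega
      · ext <;> simp only <;> omega
    · intro t _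
      rfl
  rw [h2]
  refine h1.trans ?_
  have hT1 : (1 : ℝ) ≤ T := by exact_mod_cast hT
  have hl : 0 ≤ Real.log (T : ℝ) := Real.log_natCast_nonneg T
  have hl3 : 0 ≤ Real.log 3 := Real.log_nonneg (by norm_num)
  have h3 : (((2 * T + 1 : ℕ) : ℝ)) ≤ 3 * T := by push_cast; linarith
  have h3' : (1 : ℝ) ≤ (((2 * T + 1 : ℕ) : ℝ)) := by exact_mod_cast (by omega : 1 ≤ 2 * T + 1)
  have h4 : Real.log (((2 * T + 1 : ℕ) : ℝ)) ≤ Real.log 3 + Real.log T := by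
    rw [← Real.log_mul (by norm_num) (by linarith)]
    exact Real.log_le_log (by linarith) h3
  have h4' : 0 ≤ Real.log (((2 * T + 1 : ℕ) : ℝ)) := Real.log_nonneg h3'
  have h5 : 1 + Real.log (((2 * T + 1 : ℕ) : ℝ)) ≤ (1 + Real.log 3) * (1 + Real.log T) := by
    nlinarith [mul_nonneg hl3 hl]
  have h6 : (1 + Real.log (((2 * T + 1 : ℕ) : ℝ))) ^ E ≤
      (1 + Real.log 3) ^ E * (1 + Real.log T) ^ E := by
    rw [← Real.mul_rpow (by linarith) (by linarith)]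
    exact Real.rpow_le_rpow (by linarith) h5 hE
  have h7 : (((2 * T + 1 : ℕ) : ℝ)) ^ 2 ≤ 9 * (T : ℝ) ^ 2 := by
    calc (((2 * T + 1 : ℕ) : ℝ)) ^ 2 ≤ (3 * (T : ℝ)) ^ 2 := pow_le_pow_left₀ (by linarith) h3 2
      _ = 9 * (T : ℝ) ^ 2 := by ring
  calc C * ((((2 * T + 1 : ℕ) : ℝ)) ^ 2 * (1 + Real.log (((2 * T + 1 : ℕ) : ℝ))) ^ E)
      ≤ max C 0 * ((((2 * T + 1 : ℕ) : ℝ)) ^ 2 * (1 + Real.log (((2 * T + 1 : ℕ) : ℝ))) ^ E) :=
        mul_le_mul_of_nonneg_right (le_max_left _ _) (by positivity)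
    _ ≤ max C 0 * ((9 * (T : ℝ) ^ 2) * ((1 + Real.log 3) ^ E * (1 + Real.log T) ^ E)) := by
        refine mul_le_mul_of_nonneg_left ?_ (le_max_right _ _)
        exact mul_le_mul h7 h6 (by positivity) (by positivity)
    _ = _ := by ring

section

variable {n : Fin 3 → ℕ} {a : Fin 3 → ℤ} {l : ∀ k : Fin 3, Fin (n k) → ℤ × ℤ}
  {m : ∀ k : Fin 3, Fin (n k) → ℕ}

lemma card_J : ((Fintype.card (Σ k : Fin 3, Fin (n k)) : ℕ)) = n 0 + n 1 + n 2 := by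
  rw [Fintype.card_sigma, Fin.sum_univ_three]
  simp

open Classical in
/-- the split indices -/
noncomputable def spH (a : Fin 3 → ℤ) (l : ∀ k : Fin 3, Fin (n k) → ℤ × ℤ)
    (m : ∀ k : Fin 3, Fin (n k) → ℕ) (x : Σ k : Fin 3, Fin (n k)) : Bool :=
  decide (IsSquare (kp a l m x.1 x.2))

lemma ec_eq (a : Fin 3 → ℤ) (l : ∀ k : Fin 3, Fin (n k) → ℤ × ℤ)
    (m : ∀ k : Fin 3, Fin (n k) → ℕ) (k : ℕ) (c : Fin 3) :
    ec (cl3 (n := n)) (spH a l m) k c = eH a l m k c := by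
  classical
  unfold Pool.Agent.N870.D.ec eH
  have h1 : (univ.filter (fun x : Σ k : Fin 3, Fin (n k) => cl3 x = c ∧ spH a l m x = true)).card =
      sH a l m c := by
    have h2 := card_cP (n := n) (fun k i => IsSquare (kp a l m k i)) c
    unfold sH
    refine Eq.trans ?_ (h2.trans (by congr!))
    congr 1
    refine filter_congr fun x _ => ?_
    unfold spH
    rw [decide_eq_true_eq]
    rfl
  have h2 : (univ.filter (fun x : Σ k : Fin 3, Fin (n k) => cl3 x = c)).card = n c :=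
    card_cP' c
  have h3 : ((univ.filter (fun x : Σ k : Fin 3, Fin (n k) => cl3 x ≠ c)).card : ℝ) =
      n 0 + n 1 + n 2 - n c := card_ne_cP c
  rw [h1, h2, h3, Real.rpow_neg (by norm_num), Real.rpow_natCast]
  ring

/-- the main average -/
lemma main_nb (hconv : S_CONV) (hmak : S_MAKH) (h : HF a l m) {q : ℕ}
    (hq : ∀ x : Σ k : Fin 3, Fin (n k), al l q x ≠ 0) {k : ℕ} (hk : 1 ≤ k) {E : ℝ} (hE : 0 ≤ E)
    (hE' : ∀ c, eH a l m k c ≤ E) :
    ∃ z0 : ℕ, ∀ z, z0 ≤ z → ∃ C' : ℝ, ∀ y, z < y →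
      ∑ s ∈ Tup (Σ k : Fin 3, Fin (n k)) z y,
        NB (c4 (cl3 (n := n))) (fun j _ => kapM (c4 (cl3 (n := n))) a (mu m) (al l q) (be l) j) s ^ k *
        ∏ j, gw 1 (Fintype.card (Σ k : Fin 3, Fin (n k))) (s j) ≤
          C' * (Real.log y) ^ ((Fintype.card (Σ k : Fin 3, Fin (n k)) : ℝ) + E) := by
  have hfm := h.fm hq
  have hcard : 1 ≤ Fintype.card (Σ k : Fin 3, Fin (n k)) := by
    rw [card_J]
    exact h.pos
  obtain ⟨z0, hz0⟩ := hmak (Σ k : Fin 3, Fin (n k)) cl3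
    (fun j => kapM (c4 (cl3 (n := n))) a (mu m) (al l q) (be l) j) (spH a l m) k E hk
    (fun j => Pool.Agent.W230.RT.kapM_ne hfm.a0 hfm.res j)
    (fun j hj => by
      rw [kap_eq a l m q h.ev j]
      unfold spH at hj
      exact of_decide_eq_false hj)
    h.two hE (fun c => by rw [ec_eq]; exact hE' c) _ hcard
  refine ⟨z0 + Fintype.card (Σ k : Fin 3, Fin (n k)) + 2, fun z hz => ?_⟩
  obtain ⟨C, hC⟩ := hz0 z (by omega)
  refine ⟨C, fun y hy => le_trans ?_ (hC y hy)⟩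
  exact hconv _ _ (fun j => kapM (c4 (cl3 (n := n))) a (mu m) (al l q) (be l) j) k _ z y hfm.cl
    (by omega) (by omega)

open Classical in
/-- **the upper bound for the integral moments** -/
theorem up_hom (hconv : S_CONV) (hmak : S_MAKH) (hfam : S_FAMK) (h : HF a l m) {k : ℕ}
    (hk : 1 ≤ k) {E : ℝ} (hE : 0 ≤ E) (hE' : ∀ c, eH a l m k c ≤ E) :
    ∃ C : ℝ, 0 ≤ C ∧ ∀ T : ℕ, 1 ≤ T → ∑ t ∈ (Box T).filter (fun t : ℤ × ℤ =>
      IsCoprime t.1 t.2 ∧ ∀ k, Fo a l m k t.1 t.2 ≠ 0),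
      mw (Fo a l m 0 t.1 t.2) (Fo a l m 1 t.1 t.2) ^ k ≤
        C * ((T : ℝ) ^ 2 * (1 + Real.log T) ^ E) := by
  obtain ⟨q, hq⟩ := exists_q h.l0
  have hfm := h.fm hq
  have h1 := hfam k E hE _ _ a (mu m) (al l q) (be l) hfm (main_nb hconv hmak h hq hk hE hE') q
    (fun u v => -(Fo a l m 0 u v)) (fun u v => -(Fo a l m 1 u v))
    (fun u v => by rw [FM_eq, neg_neg]) (fun u v => by rw [FM_eq, neg_neg])
  obtain ⟨C, hC0, hC⟩ := box_ofE hE h1
  refine ⟨C, hC0, fun T hT => le_trans ?_ (hC T hT)⟩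
  rw [sum_filter]
  refine sum_le_sum fun t _ => ?_
  split_ifs with ht
  · have k1 : Fo a l m 0 t.1 t.2 ≠ Fo a l m 1 t.1 t.2 := by
      intro k2
      apply ht.2 2
      rw [← h.rel, k2, sub_self]
    unfold GGg
    rw [if_pos ⟨ht.1, neg_ne_zero.2 (ht.2 0), neg_ne_zero.2 (ht.2 1),
      fun k2 => k1 (neg_injective k2)⟩, neg_neg, neg_neg]
    exact pow_le_pow_left₀ (mw_nonneg _ _) (mw_le (ht.2 0) (ht.2 1) k1) k
  · unfold GGg
    split_ifs
    · exact pow_nonneg (SN_nonneg _ _) _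
    · exact le_rfl

end

end Pool.Agent.N870.H
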