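import Mathlib
import Pool.Agent.N870.H.Low2
import Pool.Agent.N870.H.Up

/-!
# Project H: split binary forms, the growth of the moments
-/

set_option autoImplicit false

namespace Pool.Agent.N870.H

open Finset Filter Topology Pool.Agent.W262.RK Pool.Agent.W307.RT Pool.Agent.W307.RS
open Pool.Agent.TH841.PT Pool.Agent.TH841.PM

open Pool.Agent.N870.EC (mw mw_nonneg mw_le S_PW)

section

variable {n : Fin 3 → ℕ} {a : Fin 3 → ℤ} {l : ∀ k : Fin 3, Fin (n k) → ℤ × ℤ}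
  {m : ∀ k : Fin 3, Fin (n k) → ℕ}

/-- the exponent of the growth -/
noncomputable def gH (a : Fin 3 → ℤ) (l : ∀ k : Fin 3, Fin (n k) → ℤ × ℤ)
    (m : ∀ k : Fin 3, Fin (n k) → ℕ) (s : ℝ) : ℝ :=
  max 0 (max (eH a l m s 0) (max (eH a l m s 1) (eH a l m s 2)))

open Classical in
/-- the moment -/
noncomputable def Mo (a : Fin 3 → ℤ) (l : ∀ k : Fin 3, Fin (n k) → ℤ × ℤ)
    (m : ∀ k : Fin 3, Fin (n k) → ℕ) (s : ℝ) (T : ℕ) : ℝ :=
  ∑ t ∈ (Box T).filter (fun t : ℤ × ℤ => IsCoprime t.1 t.2 ∧ ∀ k, Fo a l m k t.1 t.2 ≠ 0),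
    mw (Fo a l m 0 t.1 t.2) (Fo a l m 1 t.1 t.2) ^ s

/-- boundedness -/
def Bd (a : Fin 3 → ℤ) (l : ∀ k : Fin 3, Fin (n k) → ℤ × ℤ)
    (m : ∀ k : Fin 3, Fin (n k) → ℕ) (s : ℝ) : Prop :=
  ∃ C : ℝ, ∀ T : ℕ, 1 ≤ T → Mo a l m s T ≤ C * (T : ℝ) ^ 2

lemma gH_nonneg (s : ℝ) : 0 ≤ gH a l m s := le_max_left _ _

lemma eH_le_gH (s : ℝ) (c : Fin 3) : eH a l m s c ≤ gH a l m s := by
  unfold gH
  fin_cases c
  · exact (le_max_left _ _).trans (le_max_right _ _)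
  · exact ((le_max_left _ _).trans (le_max_right _ _)).trans (le_max_right _ _)
  · exact ((le_max_right _ _).trans (le_max_right _ _)).trans (le_max_right _ _)

lemma gH_cases (s : ℝ) : gH a l m s = 0 ∨ ∃ c, gH a l m s = eH a l m s c := by
  unfold gH
  rcases max_choice (0 : ℝ) (max (eH a l m s 0) (max (eH a l m s 1) (eH a l m s 2))) with h | h
  · exact Or.inl h
  · right
    rw [h]
    rcases max_choice (eH a l m s 0) (max (eH a l m s 1) (eH a l m s 2)) with h1 | h1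
    · exact ⟨0, h1⟩
    · rw [h1]
      rcases max_choice (eH a l m s 1) (eH a l m s 2) with h2 | h2
      · exact ⟨1, h2⟩
      · exact ⟨2, h2⟩

lemma gH_eq_zero (s : ℝ) : gH a l m s = 0 ↔ ∀ c, eH a l m s c ≤ 0 := by
  constructor
  · intro h c
    exact (eH_le_gH s c).trans h.le
  · intro h
    unfold gH
    exact max_eq_left (max_le (h 0) (max_le (h 1) (h 2)))

/-- the moments increase with the order -/
lemma Mo_mono (h : HF a l m) {s s' : ℝ} (hs : s' ≤ s) (T : ℕ) :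
    Mo a l m s' T ≤ Mo a l m s T := by
  classical
  unfold Mo
  refine sum_le_sum fun t ht => ?_
  have h1 := (mem_filter.1 ht).2.2
  refine Real.rpow_le_rpow_of_exponent_le ?_ hs
  refine Pool.Agent.N870.D.one_le_mw (h1 0) (h1 1) fun k2 => ?_
  apply h1 2
  rw [← h.rel, k2, sub_self]

lemma eH_small (c : Fin 3) (ε s : ℝ) (hε : 0 < ε) (hs : 0 < s) :
    ∃ s' : ℝ, 0 < s' ∧ s' ≤ s ∧ -ε < eH a l m s' c := by
  have h1 : Tendsto (fun x : ℝ => eH a l m x c) (𝓝[>] 0) (𝓝 (eH a l m 0 c)) := by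
    have h2 : Continuous (fun x : ℝ => eH a l m x c) := by
      unfold eH
      have e1 : Continuous (fun x : ℝ => (2 : ℝ) ^ x) :=
        Real.continuous_const_rpow (by norm_num)
      have e2 : Continuous (fun x : ℝ => (2 : ℝ) ^ (-x)) := e1.comp continuous_neg
      fun_prop
    exact h2.continuousAt.tendsto.mono_left nhdsWithin_le_nhds
  have h0 : eH a l m 0 c = 0 := by
    unfold eH
    rw [neg_zero, Real.rpow_zero]
    ring
  rw [h0] at h1
  have h3 : ∀ᶠ x in 𝓝[>] (0 : ℝ), -ε < eH a l m x c := h1.eventually_const_lt (by linarith)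
  have h4 : ∀ᶠ x in 𝓝[>] (0 : ℝ), x ∈ Set.Ioc 0 s := Ioc_mem_nhdsGT hs
  obtain ⟨x, hx1, hx2⟩ := (h3.and h4).exists
  exact ⟨x, hx2.1, hx2.2, hx1⟩

variable (hlow : S_LOWH) (hpw : S_PW) (h : HF a l m)

include hlow hpw h

/-- the lower bound with the exponent of the growth -/
theorem low_gH (s ε : ℝ) (hs : 0 < s) (hε : 0 < ε) :
    ∃ T0 : ℕ, ∀ T : ℕ, T0 ≤ T → (T : ℝ) ^ 2 * (Real.log T) ^ (gH a l m s - ε) ≤
      Mo a l m s T := by
  classical
  rcases gH_cases (a := a) (l := l) (m := m) s with h0 | ⟨c, hc⟩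
  · obtain ⟨s', h1, h2, h3⟩ := eH_small (a := a) (l := l) (m := m) 0 (ε / 2) s (by positivity) hs
    obtain ⟨T0, hT0⟩ := low_hom hlow hpw h 0 s' (ε / 2) h1 (by positivity)
    refine ⟨T0 + 3, fun T hT => ?_⟩
    refine le_trans ?_ ((hT0 T (by omega)).trans (Mo_mono h h2 T))
    refine mul_le_mul_of_nonneg_left ?_ (by positivity)
    have h4 : (1 : ℝ) ≤ Real.log T := by
      have h5 : (3 : ℝ) ≤ T := by exact_mod_cast (by omega : 3 ≤ T)
      rw [Real.le_log_iff_exp_le (by linarith)]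
      have := Real.exp_one_lt_d9
      linarith
    exact Real.rpow_le_rpow_of_exponent_le h4 (by rw [h0]; linarith)
  · obtain ⟨T0, hT0⟩ := low_hom hlow hpw h c s ε hs hε
    refine ⟨T0, fun T hT => ?_⟩
    rw [hc]
    exact hT0 T hT

/-- a positive exponent: the moment is unbounded -/
lemma not_Bd {s : ℝ} (hs : 0 < s) {c : Fin 3} (hc : 0 < eH a l m s c) : ¬ Bd a l m s := by
  rintro ⟨C, hC⟩
  obtain ⟨T0, hT0⟩ := low_hom hlow hpw h c s (eH a l m s c / 2) hs (by positivity)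
  obtain ⟨L1, hL1⟩ := eventually_atTop.1 (((tendsto_rpow_atTop
    (show 0 < eH a l m s c / 2 by positivity)).comp
    (Real.tendsto_log_atTop.comp (tendsto_natCast_atTop_atTop (R := ℝ)))).eventually_ge_atTop
      (C + 1))
  have h1 := (hT0 (T0 + L1 + 1) (by omega)).trans (hC (T0 + L1 + 1) (by omega))
  have h2 : C + 1 ≤ (Real.log ((T0 + L1 + 1 : ℕ) : ℝ)) ^ (eH a l m s c / 2) :=
    hL1 (T0 + L1 + 1) (by omega)
  have h3 : eH a l m s c - eH a l m s c / 2 = eH a l m s c / 2 := by ring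
  rw [h3] at h1
  have h4 : (0 : ℝ) < ((T0 + L1 + 1 : ℕ) : ℝ) ^ 2 := by positivity
  have h5 : ((T0 + L1 + 1 : ℕ) : ℝ) ^ 2 * (C + 1) ≤ C * ((T0 + L1 + 1 : ℕ) : ℝ) ^ 2 :=
    (mul_le_mul_of_nonneg_left h2 h4.le).trans h1
  linarith

/-- no moment of order greater than two is bounded -/
theorem no_Bd {s : ℝ} (hs : 2 < s) : ¬ Bd a l m s := by
  have hs0 : 0 < s := by linarith
  have hp : (0 : ℝ) < 2 ^ s := by positivity
  have h2s : (4 : ℝ) < 2 ^ s := by
    calc (4 : ℝ) = 2 ^ (2 : ℝ) := by norm_num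
      _ < 2 ^ s := Real.rpow_lt_rpow_of_exponent_lt (by norm_num) hs
  have hneg : (2 : ℝ) ^ (-s) = 1 / 2 ^ s := by rw [Real.rpow_neg (by norm_num), one_div]
  intro hb
  have hall : ∀ c : Fin 3, eH a l m s c ≤ 0 := by
    intro c
    by_contra hc
    push Not at hc
    exact not_Bd hlow hpw h hs0 hc hb
  have e1 : (1 - (2 : ℝ) ^ (-s)) = (2 ^ s - 1) * (1 / 2 ^ s) := by
    rw [hneg]
    field_simp
  have h5 : ∀ c : Fin 3, ((n c : ℝ) + sH a l m c) / 2 ≤ (1 / 2 ^ s) * (n 0 + n 1 + n 2 - n c : ℝ) := by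
    intro c
    have h6 := hall c
    unfold eH at h6
    rw [e1] at h6
    have h7 : (0 : ℝ) < 2 ^ s - 1 := by linarith
    have h8 : (2 ^ s - 1) * (((n c : ℝ) + sH a l m c) / 2) ≤
        (2 ^ s - 1) * ((1 / 2 ^ s) * (n 0 + n 1 + n 2 - n c : ℝ)) := by linarith
    exact le_of_mul_le_mul_left h8 h7
  have h0 := h5 0
  have h1 := h5 1
  have h2 := h5 2
  have k0 : (0 : ℝ) ≤ sH a l m 0 := Nat.cast_nonneg _
  have k1 : (0 : ℝ) ≤ sH a l m 1 := Nat.cast_nonneg _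
  have k2 : (0 : ℝ) ≤ sH a l m 2 := Nat.cast_nonneg _
  have hn : (0 : ℝ) < n 0 + n 1 + n 2 := by exact_mod_cast h.pos
  have h9 : ((n 0 : ℝ) + n 1 + n 2) / 2 ≤ (1 / 2 ^ s) * (2 * (n 0 + n 1 + n 2)) := by linarith
  have h10 : (1 : ℝ) / 2 ^ s < 1 / 4 := one_div_lt_one_div_of_lt (by norm_num) h2s
  have h11 : (1 : ℝ) / 2 ^ s * (2 * (n 0 + n 1 + n 2)) < 1 / 4 * (2 * (n 0 + n 1 + n 2)) :=
    mul_lt_mul_of_pos_right h10 (by linarith)
  linarith

omit hlow hpw in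
/-- the upper bound with the exponent of the growth -/
theorem up_gH (hconv : S_CONV) (hmak : S_MAKH) (hfam : S_FAMK) {k : ℕ} (hk : 1 ≤ k) :
    ∃ C : ℝ, ∀ T : ℕ, 1 ≤ T → Mo a l m k T ≤
      C * ((T : ℝ) ^ 2 * (1 + Real.log T) ^ gH a l m k) := by
  classical
  obtain ⟨C, -, hC⟩ := up_hom hconv hmak hfam h hk (gH_nonneg (a := a) (l := l) (m := m) (k : ℝ))
    (eH_le_gH (a := a) (l := l) (m := m) (k : ℝ))
  refine ⟨C, fun T hT => le_trans (le_of_eq ?_) (hC T hT)⟩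
  unfold Mo
  refine sum_congr (by congr!) fun t _ => ?_
  rw [Real.rpow_natCast]

/-- the moments of integral order: boundedness -/
theorem Bd_iff (hconv : S_CONV) (hmak : S_MAKH) (hfam : S_FAMK) {k : ℕ} (hk : 1 ≤ k) :
    Bd a l m k ↔ gH a l m k = 0 := by
  constructor
  · intro hb
    rw [gH_eq_zero]
    intro c
    by_contra hc
    push Not at hc
    exact not_Bd hlow hpw h (by exact_mod_cast (by omega : 0 < k)) hc hb
  · intro h0
    obtain ⟨C, hC⟩ := up_gH h hconv hmak hfam hk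
    refine ⟨C, fun T hT => (hC T hT).trans (le_of_eq ?_)⟩
    rw [h0, Real.rpow_zero, mul_one]

/-- the average -/
theorem Bd_one (hconv : S_CONV) (hmak : S_MAKH) (hfam : S_FAMK) :
    Bd a l m 1 ↔ ∀ c, 2 * n c + sH a l m c ≤ n 0 + n 1 + n 2 := by
  have h1 := Bd_iff hlow hpw h hconv hmak hfam le_rfl
  rw [Nat.cast_one, gH_eq_zero] at h1
  rw [h1]
  refine forall_congr' fun c => ?_
  have h2 : (2 : ℝ) ^ (1 : ℝ) = 2 := Real.rpow_one 2
  have h3 : (2 : ℝ) ^ (-(1 : ℝ)) = 1 / 2 := by rw [Real.rpow_neg_one]; norm_num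
  unfold eH
  rw [h2, h3]
  have h4 : (2 * n c + sH a l m c ≤ n 0 + n 1 + n 2) ↔
      (2 * (n c : ℝ) + sH a l m c ≤ n 0 + n 1 + n 2) := by
    rw [← Nat.cast_le (α := ℝ)]
    push_cast
    rfl
  rw [h4]
  constructor <;> intro h5 <;> linarith

/-- the second moment -/
theorem Bd_two (hconv : S_CONV) (hmak : S_MAKH) (hfam : S_FAMK) :
    Bd a l m 2 ↔ n 0 = n 1 ∧ n 1 = n 2 ∧ ∀ c, sH a l m c = 0 := by
  have h1 := Bd_iff hlow hpw h hconv hmak hfam (k := 2) (by norm_num)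
  rw [Nat.cast_ofNat, gH_eq_zero] at h1
  rw [h1]
  have h2 : (2 : ℝ) ^ (2 : ℝ) = 4 := by norm_num
  have h3 : (2 : ℝ) ^ (-(2 : ℝ)) = 1 / 4 := by
    rw [Real.rpow_neg (by norm_num), h2]
    norm_num
  have h4 : ∀ c, eH a l m 2 c ≤ 0 ↔ 3 * n c + 2 * sH a l m c ≤ n 0 + n 1 + n 2 := by
    intro c
    unfold eH
    rw [h2, h3]
    have h5 : (3 * n c + 2 * sH a l m c ≤ n 0 + n 1 + n 2) ↔
        (3 * (n c : ℝ) + 2 * sH a l m c ≤ n 0 + n 1 + n 2) := by
      rw [← Nat.cast_le (α := ℝ)]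
      push_cast
      rfl
    rw [h5]
    constructor <;> intro h6 <;> linarith
  simp only [h4]
  constructor
  · intro h5
    have k0 := h5 0
    have k1 := h5 1
    have k2 := h5 2
    refine ⟨by omega, by omega, fun c => ?_⟩
    fin_cases c
    · show sH a l m 0 = 0
      omega
    · show sH a l m 1 = 0
      omega
    · show sH a l m 2 = 0
      omega
  · rintro ⟨k0, k1, k2⟩ c
    rw [k2 c]
    have : n c = n 2 := by
      fin_cases c
      · exact k0.trans k1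
      · exact k1
      · rfl
    omega

end

end Pool.Agent.N870.H
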