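import Mathlib
import Pool.Agent.N870.D.Mak


/-!
# Project H: the main average for the `k`-th powers, for abstract weights of the types
-/

set_option autoImplicit false

namespace Pool.Agent.N870.H

open Finset Polynomial Pool.Agent.W262.RK Pool.Agent.W307.RT Pool.Agent.W307.RS
open Pool.Agent.TH841.PT Pool.Agent.TH841.PM Pool.Agent.TH841.TR

open Pool.Agent.N870.D (c4 c4_ne ec ATXD S_CMB ZK ph cmbK wK_ph CDscale CDmono wt_empty nz)

open Pool.Agent.W307.FK (dt)

section

variable {J : Type} [Fintype J] [DecidableEq J]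

/-- the sum of the weights of the types -/
noncomputable def Sg (g : J × Ty → ℕ → ℝ) (j : J) (p : ℕ) : ℝ := ∑ θ : Ty, g (j, θ) p

/-- the sum with signs -/
noncomputable def Dg (g : J × Ty → ℕ → ℝ) (j : J) (p : ℕ) : ℝ :=
  ∑ θ : Ty, (if θ 0 = true then -1 else 1) * g (j, θ) p

/-- the weights with signs -/
noncomputable def ac (cls : J → Fin 3) (g : J × Ty → ℕ → ℝ) {k : ℕ} (i : IK4 (c4 cls) k)
    (p : ℕ) : ℝ :=
  wK (c4 cls) i * (if dt k (ph cls i).2.1 (ph cls i).2.2 % 2 = 1 then Dg g i.1.1 p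
    else Sg g i.1.1 p)

lemma kap_one (cls : J → Fin 3) {k : ℕ} (i : IK4 (c4 cls) k) : κK4 (c4 cls) i = 1 := by
  unfold κK4
  have hm : ∀ b, Pool.Agent.TH841.PM.mt (c4 cls i.1.1) (i.1.2.1 b) (i.1.2.2 b) = false := by
    intro b
    unfold Pool.Agent.TH841.PM.mt
    rw [decide_eq_false (c4_ne cls _)]
    rfl
  simp [hm]

lemma bK_eq (cls : J → Fin 3) {k : ℕ} (θ : Ty) (i : IK4 (c4 cls) k) :
    bK (c4 cls) (fun _ => θ) i =
      (decide (dt k (ph cls i).2.1 (ph cls i).2.2 % 2 = 1) && θ 0) := by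
  unfold bK bt
  simp only [if_neg (c4_ne cls i.1.1)]
  unfold dt ph nz
  cases h : θ 0
  · simp
  · simp only [Bool.and_true]

lemma sum_c (cls : J → Fin 3) (g : J × Ty → ℕ → ℝ) {k : ℕ} (i : IK4 (c4 cls) k) (p : ℕ) :
    Jr (κK4 (c4 cls) i) p * ∑ θ : Ty, wK (c4 cls) i * ((if bK (c4 cls) (fun _ => θ) i then -1
      else 1) * g (i.1.1, θ) p) = ac cls g i p := by
  rw [kap_one, Jr_one_left', one_mul, ← mul_sum]
  unfold ac
  congr 1
  by_cases h : dt k (ph cls i).2.1 (ph cls i).2.2 % 2 = 1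
  · rw [if_pos h]
    unfold Dg
    refine sum_congr rfl fun θ _ => ?_
    rw [bK_eq, decide_eq_true h, Bool.true_and]
  · rw [if_neg h]
    unfold Sg
    refine sum_congr rfl fun θ _ => ?_
    rw [bK_eq, decide_eq_false h, Bool.false_and]
    simp

/-- the hypotheses on the weights -/
structure Wg (sp : J → Bool) (g : J × Ty → ℕ → ℝ) (c z : ℕ) : Prop where
  nn : ∀ i p, 0 ≤ g i p
  le : ∀ j p, Sg g j p ≤ c
  mer : ∃ C : ℝ, ∀ (j : J) (y : ℕ), z < y → |Sp (Sg g j) z y - Real.log (Real.log y)| ≤ C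
  tw : ∃ E0 C : ℝ, ∀ (j : J) (y r : ℕ) (e : Bool), z < y → 1 < r → Squarefree r →
    (∀ p : ℕ, p.Prime → p ∣ r → z < p) →
    ∑ p ∈ PS z y, Sg g j p * (Jr p r * x4 e p) / (p : ℝ) ≤ E0 * Real.log (Real.log r) + C ∧
    ∑ p ∈ PS z y, Dg g j p * (Jr p r * x4 e p) / (p : ℝ) ≤ E0 * Real.log (Real.log r) + C
  ns : ∃ C : ℝ, ∀ (j : J) (y : ℕ), sp j = false → z < y →
    ∑ p ∈ PS z y, Dg g j p / (p : ℝ) ≤ C

/-- **the main average for abstract weights** -/
theorem makc (hats : ATXD) (hcmb : S_CMB) (hmer : MERGE) (hexp : Pool.Agent.TH841.PM.EXPK)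
    (cls : J → Fin 3) (sp : J → Bool) {k : ℕ} (hk : 1 ≤ k) (hcl : ∀ c : Fin 3, ∃ j, cls j ≠ c)
    {E : ℝ} (hE : 0 ≤ E) (hE' : ∀ c : Fin 3, ec cls sp k c ≤ E) (g : J × Ty → ℕ → ℝ) (c : ℕ)
    (hc : 1 ≤ c) {z : ℕ} (hg : Wg sp g c z) (hz4 : 4 ≤ z)
    (hz : 2 * c + 2 + Fintype.card (IK4 (c4 cls) k) * (2 * c) ≤ z)
    (hz' : 2 * c + 2 + Fintype.card (IK4 (c4 cls) k) ≤ z) :
    ∃ C : ℝ, ∀ y, z < y →
      ∑ s ∈ Tup (J × Ty) z y, NBK k (clsI (c4 cls)) eI s * ∏ i, gp (g i) c (s i) ≤
        C * (Real.log y) ^ ((Fintype.card J : ℝ) + E) := by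
  obtain ⟨hCA, hCB, hCD⟩ := cmbK hcmb cls sp hk hcl (T := Fintype.card J + E)
    (by linarith) (fun c => by linarith [hE' c])
  obtain ⟨hnn, hle, ⟨Cm, hCm⟩, ⟨E0, Ct, hCt⟩, ⟨Ch, hCh⟩⟩ := hg
  set Cs : ℝ := |Cm| with hCs
  have hCs0 : 0 ≤ Cs := abs_nonneg _
  have hSnn : ∀ j p, 0 ≤ Sg g j p := fun j p => sum_nonneg fun θ _ => hnn _ _
  set K0 : ℝ := |Ct| + Cs + |Ch| with hK0
  have hK00 : 0 ≤ K0 := by positivity
  have hll : ∀ y, z < y → 0 ≤ Real.log (Real.log y) := by
    intro y hy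
    have h3 : (3 : ℝ) ≤ y := by exact_mod_cast (by omega : 3 ≤ y)
    apply Real.log_nonneg
    rw [Real.le_log_iff_exp_le (by linarith)]
    have := Real.exp_one_lt_d9
    linarith
  have hSb : ∀ (i : IK4 (c4 cls) k) y, Sp (fun p => wK (c4 cls) i * Sg g i.1.1 p) z y =
      wK (c4 cls) i * Sp (Sg g i.1.1) z y := by
    intro i y
    unfold Sp
    rw [mul_sum]
    exact sum_congr rfl fun p _ => by ring
  have hSl : ∀ j y, z < y → Sp (Sg g j) z y ≤ Real.log (Real.log y) + Cs ∧
      Real.log (Real.log y) - Cs ≤ Sp (Sg g j) z y := by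
    intro j y hy
    have h1 := abs_le.1 (hCm j y hy)
    have h2 : Cm ≤ Cs := le_abs_self _
    constructor <;> linarith [h1.1, h1.2]
  set M : ℕ → ℝ := fun y => (Fintype.card J + E) * (Real.log (Real.log y) + Cs) with hM
  have hSw : ∀ y, z < y → ∀ i : IK4 (c4 cls) k,
      Sp (fun p => wK (c4 cls) i * Sg g i.1.1 p) z y ≤
      wK (c4 cls) i * (Real.log (Real.log y) + Cs) := by
    intro y hy i
    rw [hSb]
    exact mul_le_mul_of_nonneg_left (hSl i.1.1 y hy).1 (wK_pos (c4 cls) i).le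
  have hfin : ∀ y, z < y → ((Fintype.card J : ℝ) + E - 1 / 2 ^ k) *
      (Real.log (Real.log y) + Cs) ≤ M y + K0 - 1 / 2 ^ k * Real.log (Real.log y) := by
    intro y hy
    have h2 : ((Fintype.card J : ℝ) + E - 1 / 2 ^ k) * (Real.log (Real.log y) + Cs) =
        (Fintype.card J + E) * (Real.log (Real.log y) + Cs) -
          1 / 2 ^ k * Real.log (Real.log y) - 1 / 2 ^ k * Cs := by ring
    have h3 : 0 ≤ 1 / 2 ^ k * Cs := by positivity
    rw [h2, hM]
    beta_reduce
    linarith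
  have habs : ∀ (i : IK4 (c4 cls) k) (p : ℕ), |ac cls g i p| ≤ wK (c4 cls) i * Sg g i.1.1 p := by
    intro i p
    unfold ac
    rw [abs_mul, abs_of_pos (wK_pos (c4 cls) i)]
    refine mul_le_mul_of_nonneg_left ?_ (wK_pos (c4 cls) i).le
    split_ifs
    · unfold Dg Sg
      refine (abs_sum_le_sum_abs _ _).trans (sum_le_sum fun θ _ => ?_)
      rw [abs_mul, abs_of_nonneg (hnn _ _)]
      split_ifs <;> simp
    · rw [abs_of_nonneg (hSnn _ _)]
  have hE1 : E0 ≤ |E0| := le_abs_self _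
  obtain ⟨C, hC⟩ := hats (2 * c) (by omega) (IK4 (c4 cls) k) (ac cls g)
    (fun i p => wK (c4 cls) i * Sg g i.1.1 p) (LK4 (c4 cls)) (ZK cls sp k) c z (1 / 2 ^ k) K0
    |E0| M
    (by
      intro i p
      have h2 := hle i.1.1 p
      have h3 := wK_le_one (c4 cls) i
      have h4 := (wK_pos (c4 cls) i).le
      have h5 := hSnn i.1.1 p
      push_cast
      nlinarith)
    { ab := habs
      LL := LK4_self (c4 cls)
      hz := by omega
      hδ := by positivity
      hE := abs_nonneg _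
      hC := hK00
      low := by
        intro i y hy
        rw [hSb i]
        have h1 := (hSl i.1.1 y hy).2
        have h2 : (1 : ℝ) / 2 ^ k = wK (c4 cls) i := (wK_ph cls i).symm
        have h3 := wK_le_one (c4 cls) i
        have h4 := hll y hy
        have h5 : wK (c4 cls) i * (Real.log (Real.log y) - Cs) ≤
            wK (c4 cls) i * Sp (Sg g i.1.1) z y :=
          mul_le_mul_of_nonneg_left h1 (wK_pos (c4 cls) i).le
        have h6 : 0 ≤ |Ct| := abs_nonneg _
        have h7 : 0 ≤ |Ch| := abs_nonneg _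
        rw [hK0]
        nlinarith
      H1 := by
        intro i hi y hy
        have hi' := mem_filter.1 (mem_filter.1 hi).2
        have h1 : ∑ p ∈ PS z y, Dg g i.1.1 p / (p : ℝ) ≤ Ch := hCh i.1.1 y hi'.2.1 hy
        have h2 : ∑ p ∈ PS z y, ac cls g i p / (p : ℝ) =
            wK (c4 cls) i * ∑ p ∈ PS z y, Dg g i.1.1 p / (p : ℝ) := by
          rw [mul_sum]
          refine sum_congr rfl fun p _ => ?_
          unfold ac
          rw [if_pos hi'.2.2]
          ring
        rw [h2]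
        have h3 : ∑ p ∈ PS z y, Dg g i.1.1 p / (p : ℝ) ≤ |Ch| := h1.trans (le_abs_self _)
        have h7 := mul_le_mul_of_nonneg_left h3 (wK_pos (c4 cls) i).le
        have h8 := mul_le_mul_of_nonneg_right (wK_le_one (c4 cls) i) (abs_nonneg Ch)
        have h9 : 0 ≤ |Ct| := abs_nonneg _
        rw [hK0]
        linarith
      H2 := by
        intro i y r e hy hr hsq hpr
        obtain ⟨ha, hb⟩ := hCt i.1.1 y r e hy hr hsq hpr
        have hlr := loglog_nonneg (by omega : 2 ≤ z) hr hpr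
        have hX : ∃ X : ℝ, ∑ p ∈ PS z y, ac cls g i p * (Jr p r * x4 e p) / (p : ℝ) =
            wK (c4 cls) i * X ∧ X ≤ E0 * Real.log (Real.log r) + Ct := by
          by_cases h : dt k (ph cls i).2.1 (ph cls i).2.2 % 2 = 1
          · refine ⟨_, ?_, hb⟩
            rw [mul_sum]
            refine sum_congr rfl fun p _ => ?_
            unfold ac
            rw [if_pos h]
            ring
          · refine ⟨_, ?_, ha⟩
            rw [mul_sum]
            refine sum_congr rfl fun p _ => ?_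
            unfold ac
            rw [if_neg h]
            ring
        obtain ⟨X, h2, h3⟩ := hX
        rw [h2]
        have h4 : X ≤ |E0| * Real.log (Real.log r) + |Ct| := by
          have := mul_le_mul_of_nonneg_right hE1 hlr
          linarith [le_abs_self Ct]
        have h5 : 0 ≤ |E0| * Real.log (Real.log r) + |Ct| := by positivity
        have h7 := mul_le_mul_of_nonneg_left h4 (wK_pos (c4 cls) i).le
        have h8 := mul_le_mul_of_nonneg_right (wK_le_one (c4 cls) i) h5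
        have h9 : 0 ≤ |Ch| := abs_nonneg _
        rw [hK0]
        linarith
      CA := by
        intro y hy
        have hT : 0 ≤ Real.log (Real.log y) + Cs := by have := hll y hy; positivity
        exact hCA.scale hT (hSw y hy)
      CB := by
        intro y hy
        have hT : 0 ≤ Real.log (Real.log y) + Cs := by have := hll y hy; positivity
        refine (hCB.scale hT (hSw y hy)).mono ?_
        exact hfin y hy
      CD := by
        intro y hy
        have hT : 0 ≤ Real.log (Real.log y) + Cs := by have := hll y hy; positivity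
        exact CDmono (CDscale hCD hT (hSw y hy)) (hfin y hy) }
    (by omega)
  refine ⟨C * Real.exp ((Fintype.card J + E) * Cs), fun y hy => ?_⟩
  have h1 := exptK hexp hmer (c4 cls) g k c z y (by omega)
    (wt (∅ : Finset (J → ℝ)))
  simp only [sum_c, wt_empty, mul_one] at h1
  rw [h1]
  have h2 := hC y hy
  have hly : 0 < Real.log y := Real.log_pos (by exact_mod_cast (by omega : 1 < y))
  have h4 : Real.exp (M y) = Real.exp ((Fintype.card J + E) * Cs) *
      (Real.log y) ^ ((Fintype.card J : ℝ) + E) := by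
    rw [Real.rpow_def_of_pos hly, hM, ← Real.exp_add]
    congr 1
    beta_reduce
    ring
  rw [h4] at h2
  calc _ ≤ _ := le_abs_self _
    _ ≤ _ := h2
    _ = _ := by ring

end

end Pool.Agent.N870.H
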