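import Mathlib
import Pool.Agent.N870.H.Stm
import Pool.Agent.N870.H.MakC
import Pool.Agent.N870.D.Pen
import Pool.Agent.N222.D.ATX
import Pool.Agent.N263.D.CMB

/-!
# Project H: the main average for constants
-/

set_option autoImplicit false

namespace Pool.Agent.N870.H

open Finset Polynomial Pool.Agent.W262.RK Pool.Agent.W307.RT Pool.Agent.W307.RS
open Pool.Agent.TH841.PT Pool.Agent.TH841.PM Pool.Agent.TH841.TR

open Pool.Agent.N870.D (c4 ec)

open Pool.Agent.H474R2.PG (rho)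

lemma range_X {p : ℕ} (hp : p.Prime) :
    (range p).filter (fun a : ℕ => (p : ℤ) ∣ (X : ℤ[X]).eval (a : ℤ)) = {0} := by
  ext a
  rw [mem_filter, mem_range, mem_singleton, eval_X]
  constructor
  · rintro ⟨h1, h2⟩
    exact Nat.eq_zero_of_dvd_of_lt (Int.natCast_dvd_natCast.1 h2) h1
  · rintro rfl
    exact ⟨hp.pos, dvd_zero _⟩

lemma rho_X1 {p : ℕ} (hp : p.Prime) : rho X p = 1 := by
  unfold rho
  rw [range_X hp, card_singleton]

lemma rhoc_X1 (κ : ℤ) {p : ℕ} (hp : p.Prime) : rhoc X (C κ) p = Jr κ p := by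
  unfold rhoc
  rw [range_X hp, sum_singleton, eval_C]

lemma ndvd_XC {κ : ℤ} (h : κ ≠ 0) :
    ¬ ((X : ℤ[X]).map (Int.castRingHom ℚ)) ∣ (C κ : ℤ[X]).map (Int.castRingHom ℚ) := by
  rw [Polynomial.map_X, Polynomial.map_C, X_dvd_iff, coeff_C_zero]
  simpa using h

lemma nsq_XC {κ : ℤ} (h : ¬ IsSquare κ) : NSqg X (C κ) 1 := by
  intro q hq
  rw [Polynomial.map_X, Polynomial.map_C, X_dvd_iff] at hq
  apply h
  have h1 : (κ : ℚ) = q.coeff 0 * q.coeff 0 := by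
    have h2 : (q ^ 2 - C ((1 : ℤ) : ℚ) * C ((Int.castRingHom ℚ) κ)).coeff 0 =
        q.coeff 0 * q.coeff 0 - κ := by
      simp [sq, mul_coeff_zero]
    rw [h2] at hq
    linarith
  have h3 : IsSquare (κ : ℚ) := ⟨_, h1⟩
  rwa [Rat.isSquare_intCast_iff] at h3

lemma sg_Jr {κ : ℤ} {p : ℕ} (hp : p.Prime) (h : ¬ (p : ℤ) ∣ κ) :
    (if sg0 p κ = true then (-1 : ℝ) else 1) = Jr κ p := by
  have := Fact.mk hp
  unfold sg0 Jr
  have hc : jacobiSym κ p = 1 ∨ jacobiSym κ p = -1 := by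
    apply jacobiSym.eq_one_or_neg_one
    have h2 : IsCoprime κ (p : ℤ) :=
      ((Nat.prime_iff_prime_int.1 hp).coprime_iff_not_dvd.2 h).symm
    exact Int.isCoprime_iff_gcd_eq_one.1 h2
  rcases hc with h1 | h1
  · rw [h1]
    simp
  · rw [h1]
    simp

section

variable {J : Type} [Fintype J] [DecidableEq J]

omit [Fintype J] [DecidableEq J] in
lemma gκ_sum (κ : J → ℤ) (z : ℕ) (j : J) (p : ℕ) (F : Ty → ℝ) :
    ∑ θ : Ty, F θ * gκ κ z (j, θ) p =
      if p.Prime ∧ z < p then F (fun _ => sg0 p (κ j)) else 0 := by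
  unfold gκ
  by_cases h : p.Prime ∧ z < p
  · rw [if_pos h, sum_eq_single (fun _ => sg0 p (κ j))]
    · rw [if_pos ⟨h.1, h.2, rfl⟩, mul_one]
    · intro θ _ hθ
      rw [if_neg (fun hh => hθ hh.2.2), mul_zero]
    · intro hh
      exact absurd (mem_univ _) hh
  · rw [if_neg h]
    refine sum_eq_zero fun θ _ => ?_
    rw [if_neg (fun hh => h ⟨hh.1, hh.2.1⟩), mul_zero]

omit [Fintype J] [DecidableEq J] in
lemma Sg_gκ (κ : J → ℤ) (z : ℕ) (j : J) (p : ℕ) :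
    Sg (gκ κ z) j p = if p.Prime ∧ z < p then 1 else 0 := by
  have h := gκ_sum κ z j p (fun _ => 1)
  simp only [one_mul] at h
  exact h

omit [Fintype J] [DecidableEq J] in
lemma Dg_gκ (κ : J → ℤ) (z : ℕ) (j : J) (p : ℕ) :
    Dg (gκ κ z) j p = if p.Prime ∧ z < p then (if sg0 p (κ j) = true then -1 else 1) else 0 :=
  gκ_sum κ z j p (fun θ => if θ 0 = true then -1 else 1)

/-- **H/MAKH** -/
theorem t_MAKH : S_MAKH := by
  intro J _ _ cls κ sp k E hk hκ hsp hcl hE hE' c hc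
  have hirr : Irreducible (X : ℤ[X]) := irreducible_X
  have hdeg : 0 < (X : ℤ[X]).natDegree := by simp
  choose E0 zt hE0 hzt using fun j : J => twg X hirr hdeg (C (κ j)) (ndvd_XC (hκ j))
  obtain ⟨E1, z1, hE1, hz1⟩ := twg X hirr hdeg (C 1) (ndvd_XC one_ne_zero)
  have hh : ∀ j : J, ∃ z0 : ℕ, ∀ z, z0 ≤ z → ∃ C' : ℝ, sp j = false → ∀ y : ℕ, z < y →
      ∑ p ∈ PS z y, rhoc X (C (κ j)) p / (p : ℝ) ≤ C' := by
    intro j
    by_cases hj : sp j = false
    · obtain ⟨z0, hz0⟩ := h1l X hirr hdeg (C (κ j)) (ndvd_XC (hκ j)) (nsq_XC (hsp j hj))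
      exact ⟨z0, fun z hz => (hz0 z hz).imp fun C' hC _ => hC⟩
    · exact ⟨0, fun z _ => ⟨0, fun h => absurd h hj⟩⟩
  choose zh hzh using hh
  refine ⟨4 + z1 + univ.sup zt + univ.sup zh + univ.sup (fun j => (κ j).natAbs) +
    (2 * c + 2 + Fintype.card (IK4 (c4 cls) k) * (2 * c)) +
    (2 * c + 2 + Fintype.card (IK4 (c4 cls) k)), fun z hz => ?_⟩
  have hzt' : ∀ i, zt i ≤ z := fun i => (le_sup (f := zt) (mem_univ i)).trans (by omega)
  have hzh' : ∀ i, zh i ≤ z := fun i => (le_sup (f := zh) (mem_univ i)).trans (by omega)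
  have hzκ : ∀ i, (κ i).natAbs ≤ z := fun i =>
    (le_sup (f := fun j => (κ j).natAbs) (mem_univ i)).trans (by omega)
  choose Ct hCt using fun j => hzt j z (hzt' j)
  choose Ch hCh using fun j => hzh j z (hzh' j)
  obtain ⟨Cu, hCu⟩ := hz1 z (by omega)
  obtain ⟨Cm, hCm0, hCm⟩ := mert hirr hdeg (z := z) (by omega)
  have hpr : ∀ {y p : ℕ}, p ∈ PS z y → p.Prime ∧ z < p := fun hp =>
    ⟨(mem_filter.1 hp).2, (mem_Ioc.1 (mem_filter.1 hp).1).1⟩
  have hS : ∀ (j : J) {y p : ℕ}, p ∈ PS z y → Sg (gκ κ z) j p = 1 := by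
    intro j y p hp
    rw [Sg_gκ, if_pos (hpr hp)]
  have hD : ∀ (j : J) {y p : ℕ}, p ∈ PS z y → Dg (gκ κ z) j p = rhoc X (C (κ j)) p := by
    intro j y p hp
    rw [Dg_gκ, if_pos (hpr hp), rhoc_X1 _ (hpr hp).1, sg_Jr (hpr hp).1]
    intro hd
    have h1 := Int.natCast_dvd.1 hd
    have h2 := Nat.le_of_dvd (Int.natAbs_pos.2 (hκ j)) h1
    have h3 := hzκ j
    have h4 := (hpr hp).2
    omega
  have hlr0 : ∀ r : ℕ, 1 < r → (∀ p : ℕ, p.Prime → p ∣ r → z < p) →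
      0 ≤ Real.log (Real.log r) := fun r hr h => loglog_nonneg (by omega : 2 ≤ z) hr h
  refine makc Pool.Agent.N222.D.t_ATX Pool.Agent.N263.D.t_CMB MergeF.merge EXPf.expk cls sp hk hcl
    hE hE' (gκ κ z) c hc (z := z) ?_ (by omega) (by omega) (by omega)
  refine ⟨fun i p => ?_, fun j p => ?_, ⟨Cm, fun j y hy => ?_⟩,
    ⟨∑ j, E0 j + E1, ∑ j, |Ct j| + |Cu|, fun j y r e hy hr hsq hp => ⟨?_, ?_⟩⟩,
    ⟨∑ j, |Ch j|, fun j y hj hy => ?_⟩⟩
  · unfold gκ
    split_ifs <;> norm_num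
  · rw [Sg_gκ]
    have h1 : (1 : ℝ) ≤ c := by exact_mod_cast hc
    split_ifs <;> linarith
  · have h1 := hCm y hy
    have h2 : Sp (Sg (gκ κ z) j) z y = Sp (fun p => (rho X p : ℝ)) z y := by
      unfold Sp
      refine sum_congr rfl fun p hp => ?_
      beta_reduce
      rw [hS j hp, rho_X1 (hpr hp).1]
      simp
    rw [h2]
    exact h1
  · have h1 := hCu y r e hy hr hsq hp
    have h2 : ∑ p ∈ PS z y, Sg (gκ κ z) j p * (Jr p r * x4 e p) / (p : ℝ) =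
        ∑ p ∈ PS z y, rhoc X (C 1) p * (Jr p r * x4 e p) / (p : ℝ) := by
      refine sum_congr rfl fun p hp => ?_
      rw [hS j hp, rhoc_X1 _ (hpr hp).1, Jr_one_left']
    rw [h2]
    have h3 := hlr0 r hr hp
    have h4 : 0 ≤ (∑ j, E0 j) * Real.log (Real.log r) :=
      mul_nonneg (sum_nonneg fun i _ => hE0 i) h3
    have h5 : 0 ≤ ∑ j, |Ct j| := sum_nonneg fun i _ => abs_nonneg _
    linarith [le_abs_self Cu]
  · have h1 := hCt j y r e hy hr hsq hp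
    have h2 : ∑ p ∈ PS z y, Dg (gκ κ z) j p * (Jr p r * x4 e p) / (p : ℝ) =
        ∑ p ∈ PS z y, rhoc X (C (κ j)) p * (Jr p r * x4 e p) / (p : ℝ) := by
      refine sum_congr rfl fun p hp => ?_
      rw [hD j hp]
    rw [h2]
    have h3 := hlr0 r hr hp
    have h4 : E0 j * Real.log (Real.log r) ≤ (∑ j, E0 j) * Real.log (Real.log r) :=
      mul_le_mul_of_nonneg_right (single_le_sum (f := E0) (fun j _ => hE0 j) (mem_univ j)) h3
    have h5 : |Ct j| ≤ ∑ j, |Ct j| :=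
      single_le_sum (f := fun j => |Ct j|) (fun j _ => abs_nonneg _) (mem_univ j)
    have h6 : 0 ≤ E1 * Real.log (Real.log r) := mul_nonneg hE1 h3
    linarith [le_abs_self (Ct j), abs_nonneg Cu]
  · have h1 := hCh j hj y hy
    have h2 : ∑ p ∈ PS z y, Dg (gκ κ z) j p / (p : ℝ) =
        ∑ p ∈ PS z y, rhoc X (C (κ j)) p / (p : ℝ) := by
      refine sum_congr rfl fun p hp => ?_
      rw [hD j hp]
    rw [h2]
    have h5 : |Ch j| ≤ ∑ j, |Ch j| :=
      single_le_sum (f := fun j => |Ch j|) (fun j _ => abs_nonneg _) (mem_univ j)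
    linarith [le_abs_self (Ch j)]

end

end Pool.Agent.N870.H
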