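import Mathlib
import Pool.Agent.N870.H.Stm8
import Pool.Agent.N870.H.MakH
import Pool.Agent.N547.H.Conv0
import Pool.Agent.Y723.Z8.MakZ
import Pool.Agent.Y776.Z8.WGT
import Pool.Agent.Y723.Z8.Fin

/-!
# Project H: the main average for the family with torsion `Z/2 x Z/8`
-/

set_option autoImplicit false

namespace Pool.Agent.N870.H.Mak8f

open Finset Pool.Agent.W262.RK Pool.Agent.W307.RT Pool.Agent.TH841.PT Pool.Agent.Y723.Z8
open Pool.Agent.TH841.PM Pool.Agent.Y776.Z8 Pool.Agent.N547.H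

open Pool.Agent.N870.D (c4 ec)

/-- the weights of the types -/
noncomputable def g7 (i : Fin 7 × Ty) (p : ℕ) : ℝ :=
  (if i.2 = (fun _ => false) then rr8 (i.1, false) p else 0) +
    (if i.2 = (fun _ => true) then rr8 (i.1, true) p else 0)

lemma c4_73 : c4 c73 = c7 := by
  funext j
  revert j
  decide

lemma c7_ne (j : Fin 7) : c7 j ≠ 3 := by
  revert j
  decide

lemma tf_ne : (fun _ => true : Ty) ≠ (fun _ => false) := fun h => by
  have := congrFun h 0
  simp at this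

lemma sum7 (j : Fin 7) (p : ℕ) (F : Ty → ℝ) : ∑ θ : Ty, F θ * g7 (j, θ) p =
    F (fun _ => false) * rr8 (j, false) p + F (fun _ => true) * rr8 (j, true) p := by
  unfold g7
  simp only [mul_add, mul_ite, mul_zero]
  rw [sum_add_distrib, sum_ite_eq' univ (fun _ => false : Ty), sum_ite_eq' univ (fun _ => true : Ty),
    if_pos (mem_univ _), if_pos (mem_univ _)]

lemma Sg7 (j : Fin 7) (p : ℕ) : Sg g7 j p = rr8 (j, false) p + rr8 (j, true) p := by
  have h := sum7 j p (fun _ => 1)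
  simp only [one_mul] at h
  exact h

lemma Dg7 (j : Fin 7) (p : ℕ) : Dg g7 j p = rr8 (j, false) p - rr8 (j, true) p := by
  have h := sum7 j p (fun θ => if θ 0 = true then -1 else 1)
  unfold Dg
  rw [h]
  simp
  ring

/-- the sums as sums of characters -/
lemma Sg_form (j : Fin 7) : ∃ (κ : ℤ) (c : ℝ), (κ = -1 ∨ κ = 2 ∨ κ = -2) ∧ (c = 0 ∨ c = 1) ∧
    ∀ p : ℕ, p % 2 = 1 → Sg g7 j p = 1 + c * Jr κ p := by
  by_cases h1 : j.val < 4
  · refine ⟨-1, 0, by simp, by simp, fun p hp => ?_⟩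
    rw [Sg7, rr_add j hp, if_pos h1]
    ring
  · by_cases h2 : j.val = 4
    · refine ⟨-1, 1, by simp, by simp, fun p hp => ?_⟩
      rw [Sg7, rr_add j hp, if_neg h1, if_pos h2]
      ring
    · refine ⟨2, 1, by simp, by simp, fun p hp => ?_⟩
      rw [Sg7, rr_add j hp, if_neg h1, if_neg h2]
      ring

lemma Dg_form (j : Fin 7) : ∃ (κ κ' : ℤ) (c : ℝ), (κ = 1 ∨ κ = -1 ∨ κ = 2 ∨ κ = -2) ∧
    (κ' = -1 ∨ κ' = 2 ∨ κ' = -2) ∧ (c = 0 ∨ c = 1) ∧
    (sp7 j = false → κ = -1) ∧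
    ∀ p : ℕ, p % 2 = 1 → Dg g7 j p = Jr κ p + c * Jr κ' p := by
  by_cases h1 : j.val < 4
  · refine ⟨1, -1, 0, by simp, by simp, by simp, fun h => ?_, fun p hp => ?_⟩
    · unfold sp7 at h
      rw [decide_eq_false_iff_not] at h
      omega
    · rw [Dg7, rr_sub j hp, if_pos h1, jr_one]
      ring
  · by_cases h2 : j.val = 4
    · refine ⟨1, -1, 1, by simp, by simp, by simp, fun h => ?_, fun p hp => ?_⟩
      · unfold sp7 at h
        rw [decide_eq_false_iff_not] at h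
        omega
      · rw [Dg7, rr_sub j hp, if_neg h1, if_pos h2, jr_one]
        ring
    · refine ⟨-1, -2, 1, by simp, by simp, by simp, fun _ => rfl, fun p hp => ?_⟩
      rw [Dg7, rr_sub j hp, if_neg h1, if_neg h2]
      ring

lemma wg7 {z : ℕ} (hz : 10 ≤ z) : Wg sp7 g7 10 z := by
  obtain ⟨CM, hM⟩ := Pool.Agent.Y776.Z8.mert z hz
  obtain ⟨CC, hCC, hC⟩ := chr_all Chr.chr z
  obtain ⟨CU, hCU, hU⟩ := ub_all z hz
  refine ⟨fun i p => ?_, fun j p => ?_, ⟨|CM| + CC, fun j y hy => ?_⟩,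
    ⟨2, 2 * CU, fun j y r e hy hr hsq hpr => ?_⟩, ⟨2 * CC, fun j y hj hy => ?_⟩⟩
  · unfold g7
    have h1 := rr8_nonneg (i.1, false) p
    have h2 := rr8_nonneg (i.1, true) p
    split_ifs <;> linarith
  · rw [Sg7]
    have := rr8_sum_le j p
    push_cast
    linarith
  · obtain ⟨κ, c, hκ, hc, hf⟩ := Sg_form j
    have e1 : Sp (Sg g7 j) z y = ∑ p ∈ PS z y, (1 : ℝ) / (p : ℝ) +
        c * ∑ p ∈ PS z y, Jr κ p / (p : ℝ) := by
      unfold Sp
      rw [mul_sum, ← sum_add_distrib]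
      refine sum_congr rfl fun p hp => ?_
      rw [hf p (odd_of_mem hz hp)]
      ring
    have h1 := abs_le.1 ((hM y hy).trans (le_abs_self CM))
    have h2 := abs_le.1 (hC κ hκ y hy)
    rw [e1, abs_le]
    rcases hc with rfl | rfl <;> constructor <;> linarith [h1.1, h1.2, h2.1, h2.2]
  · have h3 := ll_nonneg hz hr hpr
    constructor
    · obtain ⟨κ, c, hκ, hc, hf⟩ := Sg_form j
      have e1 : ∑ p ∈ PS z y, Sg g7 j p * (Jr p r * x4 e p) / (p : ℝ) =
          ∑ p ∈ PS z y, Jr p r * Jr 1 p * x4 e p / (p : ℝ) +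
          c * ∑ p ∈ PS z y, Jr p r * Jr κ p * x4 e p / (p : ℝ) := by
        rw [mul_sum, ← sum_add_distrib]
        refine sum_congr rfl fun p hp => ?_
        rw [hf p (odd_of_mem hz hp), jr_one]
        ring
      have h1 := hU 1 (by simp) y r e hy hr hsq hpr
      have h2 := hU κ (by tauto) y r e hy hr hsq hpr
      rw [e1]
      rcases hc with rfl | rfl <;> linarith
    · obtain ⟨κ, κ', c, hκ, hκ', hc, -, hf⟩ := Dg_form j
      have e1 : ∑ p ∈ PS z y, Dg g7 j p * (Jr p r * x4 e p) / (p : ℝ) =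
          ∑ p ∈ PS z y, Jr p r * Jr κ p * x4 e p / (p : ℝ) +
          c * ∑ p ∈ PS z y, Jr p r * Jr κ' p * x4 e p / (p : ℝ) := by
        rw [mul_sum, ← sum_add_distrib]
        refine sum_congr rfl fun p hp => ?_
        rw [hf p (odd_of_mem hz hp)]
        ring
      have h1 := hU κ hκ y r e hy hr hsq hpr
      have h2 := hU κ' (by tauto) y r e hy hr hsq hpr
      rw [e1]
      rcases hc with rfl | rfl <;> linarith
  · obtain ⟨κ, κ', c, hκ, hκ', hc, hs, hf⟩ := Dg_form j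
    have hκ1 := hs hj
    subst hκ1
    have e1 : ∑ p ∈ PS z y, Dg g7 j p / (p : ℝ) = ∑ p ∈ PS z y, Jr (-1) p / (p : ℝ) +
        c * ∑ p ∈ PS z y, Jr κ' p / (p : ℝ) := by
      rw [mul_sum, ← sum_add_distrib]
      refine sum_congr rfl fun p hp => ?_
      rw [hf p (odd_of_mem hz hp)]
      ring
    have h1 := abs_le.1 (hC (-1) (by simp) y hy)
    have h2 := abs_le.1 (hC κ' hκ' y hy)
    rw [e1]
    rcases hc with rfl | rfl <;> linarith [h1.1, h1.2, h2.1, h2.2]

/-! ### The extension of the tuples -/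

/-- the extension by `1` -/
def ext (s : Fin 7 × Bool → ℕ) (i : Fin 7 × Ty) : ℕ :=
  if i.2 = (fun _ => false) then s (i.1, false)
  else if i.2 = (fun _ => true) then s (i.1, true) else 1

lemma ext_app (s : Fin 7 × Bool → ℕ) (j : Fin 7) (b : Bool) : ext s (j, fun _ => b) = s (j, b) := by
  unfold ext
  cases b
  · rw [if_pos rfl]
  · rw [if_neg tf_ne, if_pos rfl]

lemma ext_cases (s : Fin 7 × Bool → ℕ) (i : Fin 7 × Ty) :
    (∃ b : Bool, i.2 = (fun _ => b)) ∨ ext s i = 1 := by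
  by_cases h1 : i.2 = (fun _ => false)
  · exact Or.inl ⟨false, h1⟩
  · by_cases h2 : i.2 = (fun _ => true)
    · exact Or.inl ⟨true, h2⟩
    · right
      unfold ext
      rw [if_neg h1, if_neg h2]

lemma prod_ext {M : Type} [CommMonoid M] (G : Fin 7 × Ty → M)
    (hG : ∀ i : Fin 7 × Ty, (∀ b : Bool, i.2 ≠ (fun _ => b)) → G i = 1) :
    ∏ i, G i = ∏ i : Fin 7 × Bool, G (i.1, fun _ => i.2) := by
  symm
  have hinj : Function.Injective (fun i : Fin 7 × Bool => ((i.1, fun _ => i.2) : Fin 7 × Ty)) := by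
    intro i i' h
    obtain ⟨h1, h2⟩ := Prod.ext_iff.1 h
    exact Prod.ext h1 (congrFun h2 0)
  rw [← prod_image (s := univ) (f := G) (g := fun i : Fin 7 × Bool =>
    ((i.1, fun _ => i.2) : Fin 7 × Ty)) (fun _ _ _ _ h => hinj h)]
  refine prod_subset (subset_univ _) fun i _ hi => hG i fun b hb => hi ?_
  rw [mem_image]
  exact ⟨(i.1, b), mem_univ _, Prod.ext rfl hb.symm⟩

lemma ext_one (s : Fin 7 × Bool → ℕ) {i : Fin 7 × Ty} (h : ∀ b : Bool, i.2 ≠ (fun _ => b)) :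
    ext s i = 1 := by
  rcases ext_cases s i with ⟨b, hb⟩ | h1
  · exact absurd hb (h b)
  · exact h1

lemma prod_ext1 (s : Fin 7 × Bool → ℕ) : ∏ i, ext s i = ∏ i, s i := by
  rw [prod_ext (ext s) fun i h => ext_one s h]
  exact prod_congr rfl fun i _ => ext_app s i.1 i.2

lemma g7_app (j : Fin 7) (b : Bool) (p : ℕ) : g7 (j, fun _ => b) p = rr8 (j, b) p := by
  unfold g7
  cases b
  · rw [if_pos rfl, if_neg tf_ne.symm, add_zero]
  · rw [if_neg tf_ne, if_pos rfl, zero_add]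

lemma gp_ext (s : Fin 7 × Bool → ℕ) (c : ℕ) :
    ∏ i, gp (g7 i) c (ext s i) = ∏ i, gp (rr8 i) c (s i) := by
  rw [prod_ext (fun i => gp (g7 i) c (ext s i)) fun i h => ?_]
  · refine prod_congr rfl fun i _ => ?_
    rw [ext_app]
    unfold gp
    refine prod_congr rfl fun p _ => ?_
    rw [g7_app]
  · rw [ext_one s h]
    unfold gp
    simp

lemma ext_mem {z y : ℕ} {s : Fin 7 × Bool → ℕ} (hs : s ∈ Tup (Fin 7 × Bool) z y) :
    ext s ∈ Tup (Fin 7 × Ty) z y := by
  rw [memT] at hs ⊢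
  refine ⟨fun i => ?_, fun i i' hii => ?_⟩
  · rcases ext_cases s i with ⟨b, hb⟩ | h
    · obtain ⟨j, θ⟩ := i
      simp only at hb
      subst hb
      rw [ext_app]
      exact hs.1 _
    · rw [h]
      exact one_dvd _
  · rcases ext_cases s i with ⟨b, hb⟩ | h
    · rcases ext_cases s i' with ⟨b', hb'⟩ | h
      · obtain ⟨j, θ⟩ := i
        obtain ⟨j', θ'⟩ := i'
        simp only at hb hb'
        subst hb
        subst hb'
        rw [ext_app, ext_app]
        refine hs.2 _ _ fun h => hii ?_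
        obtain ⟨h1, h2⟩ := Prod.ext_iff.1 h
        simp only at h1 h2
        rw [h1, h2]
      · rw [h]
        exact Nat.coprime_one_right _
    · rw [h]
      exact Nat.coprime_one_left _

lemma LTs_ext {s : Fin 7 × Bool → ℕ} {p : ℕ} (hpp : p.Prime)
    (v w h g : Bool) : LTs cls8 e8 s ∅ p v w h g ↔ LTs (clsI c7) eI (ext s) ∅ p v w h g := by
  constructor
  · intro hL i hi
    rcases ext_cases s i with ⟨b, hb⟩ | h1
    · obtain ⟨j, θ⟩ := i
      have hb' : θ = (fun _ => b) := hb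
      subst hb'
      rw [ext_app] at hi
      exact hL (j, b) hi
    · rw [h1] at hi
      exact absurd (Nat.dvd_one.1 hi) hpp.one_lt.ne'
  · intro hL i hi
    obtain ⟨j, b⟩ := i
    exact hL (j, fun _ => b) (by rwa [ext_app])

lemma NL_ext (s : Fin 7 × Bool → ℕ) : NL (∏ j, s j) (LTs cls8 e8 s ∅) =
    NL (∏ j, ext s j) (LTs (clsI c7) eI (ext s) ∅) := by
  rw [prod_ext1]
  exact NL_congr fun p hp v w h g => LTs_ext (Nat.prime_of_mem_primeFactors hp) v w h g

lemma NBT_simp {I : Type} [Fintype I] [DecidableEq I] (cls : I → Fin 4) (e : I → Fin 3 → Bool)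
    (s : I → ℕ) (h : ∀ i, cls i ≠ 3) : NBT cls e s = (NL (∏ j, s j) (LTs cls e s ∅) : ℝ) := by
  unfold NBT
  rw [P3_empty h, powerset_empty, sum_singleton, card_empty, pow_zero, one_mul]

lemma NBK_simp {I : Type} [Fintype I] [DecidableEq I] (k : ℕ) (cls : I → Fin 4)
    (e : I → Fin 3 → Bool) (s : I → ℕ) (h : ∀ i, cls i ≠ 3) :
    NBK k cls e s = (NL (∏ j, s j) (LTs cls e s ∅) : ℝ) ^ k := by
  unfold NBK
  rw [P3_empty h, powerset_empty, sum_singleton, card_empty, pow_zero, one_mul]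

lemma NB_ext (s : Fin 7 × Bool → ℕ) (k : ℕ) :
    NBT cls8 e8 s ^ k = NBK k (clsI c7) eI (ext s) := by
  rw [NBT_simp cls8 e8 s (fun i => c7_ne i.1), NBK_simp k (clsI c7) eI (ext s)
    (fun i => c7_ne i.1), NL_ext]

/-- **H/MAK8** -/
theorem t_MAK8 : S_MAK8 := by
  intro k E hk hE hE'
  have hcl : ∀ c : Fin 3, ∃ j, c73 j ≠ c := by decide
  refine ⟨10 + (2 * 10 + 2 + Fintype.card (IK4 (c4 c73) k) * (2 * 10)) +
    (2 * 10 + 2 + Fintype.card (IK4 (c4 c73) k)), fun z hz => ?_⟩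
  obtain ⟨C, hC⟩ := makc Pool.Agent.N222.D.t_ATX Pool.Agent.N263.D.t_CMB MergeF.merge EXPf.expk c73
    sp7 hk hcl hE hE' g7 10 (by norm_num) (z := z) (wg7 (by omega)) (by omega) (by omega) (by omega)
  refine ⟨C, fun y hy => ?_⟩
  have h1 := hC y hy
  have hcard : ((Fintype.card (Fin 7) : ℕ) : ℝ) = 7 := by simp
  rw [hcard] at h1
  refine le_trans ?_ h1
  rw [c4_73]
  have h2 : ∑ s ∈ Tup (Fin 7 × Bool) z y, NBT cls8 e8 s ^ k * ∏ i, gp (rr8 i) 10 (s i) =
      ∑ s ∈ (Tup (Fin 7 × Bool) z y).image ext, NBK k (clsI c7) eI s *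
        ∏ i, gp (g7 i) 10 (s i) := by
    rw [sum_image]
    · refine sum_congr rfl fun s hs => ?_
      rw [NB_ext, gp_ext]
    · intro s _ t _ hst
      funext i
      have := congrFun hst (i.1, fun _ => i.2)
      rwa [ext_app, ext_app] at this
  rw [h2]
  refine sum_le_sum_of_subset_of_nonneg ?_ ?_
  · intro x hx
    obtain ⟨s, hs, rfl⟩ := mem_image.1 hx
    exact ext_mem hs
  · intro s hs _
    refine mul_nonneg (Pool.Agent.N547.H.NBK_nonneg _ _ _ _) (prod_nonneg fun i _ => ?_)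
    unfold gp
    refine prod_nonneg fun p hp => ?_
    have hpp := Nat.prime_of_mem_primeFactors hp
    have h3 : z < p := PPpf hpp ((Nat.dvd_of_mem_primeFactors hp).trans ((memT.1 hs).1 i))
    have h4 : (10 : ℝ) ≤ (p : ℝ) := by exact_mod_cast (by omega : 10 ≤ p)
    refine div_nonneg ((wg7 (z := z) (by omega)).nn i p) ?_
    push_cast
    linarith

end Pool.Agent.N870.H.Mak8f
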