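import Mathlib
import Pool.Agent.N870.H.Up
import Pool.Agent.Y723.Z8.FinS
import Pool.Agent.Y606.Z8.PX6

/-!
# Project H: the elliptic curves with torsion `Z/2 x Z/m`, the upper bounds for the moments
-/

set_option autoImplicit false

namespace Pool.Agent.N870.H

open Finset Filter Polynomial Pool.Agent.W262.RK Pool.Agent.W307.RT Pool.Agent.W307.RS
open Pool.Agent.TH841.PT Pool.Agent.TH841.PM Pool.Agent.Y723.Z8

open Pool.Agent.W307.SE (SN SN_nonneg GGg SelR PARX)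

/-- the sum over the box, with the conditions -/
lemma box_filter {M N : ℤ → ℤ → ℤ} {k : ℕ} {E : ℝ} (hE : 0 ≤ E)
    (h : ∀ B : ℕ, ∃ C : ℝ, ∀ (N1 N2 : ℤ) (X : ℕ), 1 ≤ X → N1.natAbs ≤ X ^ B → N2.natAbs ≤ X ^ B →
    ∑ t ∈ Icc 1 X ×ˢ Icc 1 X, GGg (fun A B => SN A B ^ k) M N
      (N1 + (t.1 : ℤ), N2 + (t.2 : ℤ)) ≤ C * (X ^ 2 * (1 + Real.log X) ^ E)) :
    ∃ C : ℝ, 0 ≤ C ∧ ∀ T : ℕ, 1 ≤ T → ∑ t ∈ (Box T).filter (fun t : ℤ × ℤ =>
      IsCoprime t.1 t.2 ∧ M t.1 t.2 ≠ 0 ∧ N t.1 t.2 ≠ 0 ∧ M t.1 t.2 ≠ N t.1 t.2),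
      SN (-(M t.1 t.2)) (-(N t.1 t.2)) ^ k ≤ C * ((T : ℝ) ^ 2 * (1 + Real.log T) ^ E) := by
  classical
  obtain ⟨C, hC0, hC⟩ := box_ofE hE h
  refine ⟨C, hC0, fun T hT => le_trans (le_of_eq ?_) (hC T hT)⟩
  rw [sum_filter]
  refine sum_congr rfl fun t _ => ?_
  unfold GGg
  congr 1

/-- the boxes for linear forms -/
lemma box_lin (hconv : S_CONV) (hmak : S_MAKH) (hfam : S_FAMK) {J : Type} [Fintype J]
    [DecidableEq J] (cls : J → Fin 3) (cls' : J → Fin 4) (hcls : cls' = Pool.Agent.N870.D.c4 cls)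
    (a : Fin 3 → ℤ) (μ : J → ℕ) (α β : J → ℤ) (hfm : Fm cls' a μ α β) (sp : J → Bool)
    (hsp : ∀ j, sp j = false → ¬ IsSquare (kapM cls' a μ α β j))
    (htwo : ∀ c : Fin 3, ∃ j, cls j ≠ c) (hJ : 1 ≤ Fintype.card J) {k : ℕ} (hk : 1 ≤ k) {E : ℝ}
    (hE : 0 ≤ E) (hE' : ∀ c : Fin 3, Pool.Agent.N870.D.ec cls sp k c ≤ E) (q : ℕ)
    (M N : ℤ → ℤ → ℤ) (hM : ∀ u v, FM cls' a μ (fv α β u v) 0 = -(M u (v + q * u)))
    (hN : ∀ u v, FM cls' a μ (fv α β u v) 1 = -(N u (v + q * u))) :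
    ∃ C : ℝ, 0 ≤ C ∧ ∀ T : ℕ, 1 ≤ T → ∑ t ∈ (Box T).filter (fun t : ℤ × ℤ =>
      IsCoprime t.1 t.2 ∧ M t.1 t.2 ≠ 0 ∧ N t.1 t.2 ≠ 0 ∧ M t.1 t.2 ≠ N t.1 t.2),
      SN (-(M t.1 t.2)) (-(N t.1 t.2)) ^ k ≤ C * ((T : ℝ) ^ 2 * (1 + Real.log T) ^ E) := by
  subst hcls
  refine box_filter hE (hfam k E hE J _ a μ α β hfm ?_ q M N hM hN)
  obtain ⟨z0, hz0⟩ := hmak J cls
    (fun j => kapM (Pool.Agent.N870.D.c4 cls) a μ α β j) sp k E hk
    (fun j => Pool.Agent.W230.RT.kapM_ne hfm.a0 hfm.res j) hsp htwo hE hE' _ hJ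
  refine ⟨z0 + Fintype.card J + 2, fun z hz => ?_⟩
  obtain ⟨C, hC⟩ := hz0 z (by omega)
  refine ⟨C, fun y hy => le_trans ?_ (hC y hy)⟩
  exact hconv _ _ (fun j => kapM (Pool.Agent.N870.D.c4 cls) a μ α β j) k _ z y hfm.cl
    (by omega) (by omega)

/-- the exponents -/
noncomputable def e4 (s : ℝ) : ℝ := (2 ^ s - 1) - 2 * (1 - 2 ^ (-s))

/-- the exponents -/
noncomputable def e6 (s : ℝ) : ℝ := 3 / 2 * (2 ^ s - 1) - 4 * (1 - 2 ^ (-s))

/-- the exponents -/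
noncomputable def e8x (s : ℝ) : ℝ := 2 * (2 ^ s - 1) - 4 * (1 - 2 ^ (-s))

lemma pow_facts {k : ℕ} (hk : 1 ≤ k) : (2 : ℝ) ≤ 2 ^ k ∧ (0 : ℝ) < 1 / 2 ^ k ∧
    (1 : ℝ) / 2 ^ k ≤ 1 / 2 := by
  have h1 : (2 : ℝ) ≤ 2 ^ k := by
    calc (2 : ℝ) = 2 ^ 1 := by norm_num
      _ ≤ 2 ^ k := pow_le_pow_right₀ (by norm_num) hk
  exact ⟨h1, by positivity, one_div_le_one_div_of_le (by norm_num) h1⟩

lemma e4_nonneg {k : ℕ} (hk : 1 ≤ k) : 0 ≤ e4 k := by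
  obtain ⟨h1, h2, h3⟩ := pow_facts hk
  unfold e4
  rw [Real.rpow_neg (by norm_num), Real.rpow_natCast, ← one_div]
  have h4 : (2 : ℝ) ^ k - 1 - 2 * (1 - 1 / 2 ^ k) = (2 ^ k - 1) * (1 - 2 * (1 / 2 ^ k)) := by
    field_simp
  rw [h4]
  apply mul_nonneg <;> linarith

lemma e8_nonneg {k : ℕ} (hk : 1 ≤ k) : 0 ≤ e8x k := by
  have h := e4_nonneg hk
  have : e8x k = 2 * e4 k := by
    unfold e8x e4
    ring
  rw [this]
  linarith

/-- `Z/2 x Z/4`, the boxes -/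
theorem box4 (hconv : S_CONV) (hmak : S_MAKH) (hfam : S_FAMK) {k : ℕ} (hk : 1 ≤ k) :
    ∃ C : ℝ, 0 ≤ C ∧ ∀ T : ℕ, 1 ≤ T → ∑ t ∈ (Box T).filter (fun t : ℤ × ℤ =>
      IsCoprime t.1 t.2 ∧ M4 t.1 t.2 ≠ 0 ∧ N4 t.1 t.2 ≠ 0 ∧ M4 t.1 t.2 ≠ N4 t.1 t.2),
      SN (-(M4 t.1 t.2)) (-(N4 t.1 t.2)) ^ k ≤ C * ((T : ℝ) ^ 2 * (1 + Real.log T) ^ e4 k) := by
  refine box_lin hconv hmak hfam (![0, 1, 2, 2] : Fin 4 → Fin 3) Pool.Agent.W307.RT.c4
    (by decide) (fun _ => -1) m4 α4 β4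
    { cl := by decide
      a0 := by decide
      mu := by decide
      al := by decide
      res := by decide
      ev := by decide
      odd := fun j => by revert j; decide
      rel := fun u v => by rw [FM40, FM41, FM42]; ring } ![true, true, false, false]
    (by decide) (by decide) (by simp) hk (e4_nonneg hk) ?_ 2 M4 N4 FM40 FM41
  intro c
  obtain ⟨h1, h2, h3⟩ := pow_facts hk
  unfold Pool.Agent.N870.D.ec e4
  rw [Real.rpow_neg (by norm_num), Real.rpow_natCast, ← one_div]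
  have a0 : (univ.filter (fun j => (![0, 1, 2, 2] : Fin 4 → Fin 3) j = 0)).card = 1 := by decide
  have a1 : (univ.filter (fun j => (![0, 1, 2, 2] : Fin 4 → Fin 3) j = 1)).card = 1 := by decide
  have a2 : (univ.filter (fun j => (![0, 1, 2, 2] : Fin 4 → Fin 3) j = 2)).card = 2 := by decide
  have b0 : (univ.filter (fun j => (![0, 1, 2, 2] : Fin 4 → Fin 3) j = 0 ∧
    (![true, true, false, false] : Fin 4 → Bool) j = true)).card = 1 := by decide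
  have b1 : (univ.filter (fun j => (![0, 1, 2, 2] : Fin 4 → Fin 3) j = 1 ∧
    (![true, true, false, false] : Fin 4 → Bool) j = true)).card = 1 := by decide
  have b2 : (univ.filter (fun j => (![0, 1, 2, 2] : Fin 4 → Fin 3) j = 2 ∧
    (![true, true, false, false] : Fin 4 → Bool) j = true)).card = 0 := by decide
  have d0 : (univ.filter (fun j => (![0, 1, 2, 2] : Fin 4 → Fin 3) j ≠ 0)).card = 3 := by decide
  have d1 : (univ.filter (fun j => (![0, 1, 2, 2] : Fin 4 → Fin 3) j ≠ 1)).card = 3 := by decide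
  have d2 : (univ.filter (fun j => (![0, 1, 2, 2] : Fin 4 → Fin 3) j ≠ 2)).card = 2 := by decide
  match c with
  | 0 => rw [a0, b0, d0]; push_cast; linarith
  | 1 => rw [a1, b1, d1]; push_cast; linarith
  | 2 => rw [a2, b2, d2]; push_cast; linarith

/-- `Z/2 x Z/6`, the boxes -/
theorem box6 (hconv : S_CONV) (hmak : S_MAKH) (hfam : S_FAMK) {k : ℕ} (hk : 1 ≤ k) {E : ℝ}
    (hE : 0 ≤ E) (hE' : e6 k ≤ E) :
    ∃ C : ℝ, 0 ≤ C ∧ ∀ T : ℕ, 1 ≤ T → ∑ t ∈ (Box T).filter (fun t : ℤ × ℤ =>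
      IsCoprime t.1 t.2 ∧ M6 t.1 t.2 ≠ 0 ∧ N6 t.1 t.2 ≠ 0 ∧ M6 t.1 t.2 ≠ N6 t.1 t.2),
      SN (-(M6 t.1 t.2)) (-(N6 t.1 t.2)) ^ k ≤ C * ((T : ℝ) ^ 2 * (1 + Real.log T) ^ E) := by
  refine box_lin hconv hmak hfam (![0, 0, 1, 1, 2, 2] : Fin 6 → Fin 3) Pool.Agent.W307.RT.c6
    (by decide) (fun _ => -1) m6 α6 β6
    { cl := by decide
      a0 := by decide
      mu := by decide
      al := by decide
      res := by decide
      ev := by decide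
      odd := fun j => Or.inl (by revert j; decide)
      rel := fun u v => by rw [FM60, FM61, FM62]; ring } ![true, false, true, false, false, true]
    (by decide) (by decide) (by simp) hk hE ?_ 3 M6 N6
    (fun u v => by rw [FM60]; norm_num) (fun u v => by rw [FM61]; norm_num)
  intro c
  refine le_trans ?_ hE'
  obtain ⟨h1, h2, h3⟩ := pow_facts hk
  unfold Pool.Agent.N870.D.ec e6
  rw [Real.rpow_neg (by norm_num), Real.rpow_natCast, ← one_div]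
  have a0 : ∀ c, (univ.filter (fun j => (![0, 0, 1, 1, 2, 2] : Fin 6 → Fin 3) j = c)).card = 2 := by
    decide
  have b0 : ∀ c, (univ.filter (fun j => (![0, 0, 1, 1, 2, 2] : Fin 6 → Fin 3) j = c ∧
    (![true, false, true, false, false, true] : Fin 6 → Bool) j = true)).card = 1 := by decide
  have d0 : ∀ c, (univ.filter (fun j => (![0, 0, 1, 1, 2, 2] : Fin 6 → Fin 3) j ≠ c)).card = 4 := by
    decide
  rw [a0, b0, d0]
  push_cast
  linarith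

/-- `Z/2 x Z/8`, the boxes -/
theorem box8 (havg : S_AVG8) (hmak : S_MAK8) {k : ℕ} (hk : 1 ≤ k) :
    ∃ C : ℝ, 0 ≤ C ∧ ∀ T : ℕ, 1 ≤ T → ∑ t ∈ (Box T).filter (fun t : ℤ × ℤ =>
      IsCoprime t.1 t.2 ∧ M8 t.1 t.2 ≠ 0 ∧ N8 t.1 t.2 ≠ 0 ∧ M8 t.1 t.2 ≠ N8 t.1 t.2),
      SN (-(M8 t.1 t.2)) (-(N8 t.1 t.2)) ^ k ≤ C * ((T : ℝ) ^ 2 * (1 + Real.log T) ^ e8x k) := by
  refine box_filter (e8_nonneg hk) (havg k _ (e8_nonneg hk) (hmak k _ hk (e8_nonneg hk) ?_))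
  intro c
  obtain ⟨h1, h2, h3⟩ := pow_facts hk
  unfold Pool.Agent.N870.D.ec e8x
  rw [Real.rpow_neg (by norm_num), Real.rpow_natCast, ← one_div]
  have a0 : (univ.filter (fun j => c73 j = 0)).card = 2 := by decide
  have a1 : (univ.filter (fun j => c73 j = 1)).card = 2 := by decide
  have a2 : (univ.filter (fun j => c73 j = 2)).card = 3 := by decide
  have b0 : (univ.filter (fun j => c73 j = 0 ∧ sp7 j = true)).card = 2 := by decide
  have b1 : (univ.filter (fun j => c73 j = 1 ∧ sp7 j = true)).card = 2 := by decide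
  have b2 : (univ.filter (fun j => c73 j = 2 ∧ sp7 j = true)).card = 1 := by decide
  have d0 : (univ.filter (fun j => c73 j ≠ 0)).card = 5 := by decide
  have d1 : (univ.filter (fun j => c73 j ≠ 1)).card = 5 := by decide
  have d2 : (univ.filter (fun j => c73 j ≠ 2)).card = 4 := by decide
  match c with
  | 0 => rw [a0, b0, d0]; push_cast; linarith
  | 1 => rw [a1, b1, d1]; push_cast; linarith
  | 2 => rw [a2, b2, d2]; push_cast; linarith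

end Pool.Agent.N870.H
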