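import Mathlib
import Pool.Agent.N870.H.Tor
import Pool.Agent.N870.H.MakH
import Pool.Agent.N870.H.Mak8
import Pool.Agent.N380.H.CRVK
import Pool.Agent.N164.H.AVG8
import Pool.Agent.N701.H.AVGK
import Pool.Agent.N547.H.Conv
import Pool.Agent.N82.H_FAMK
import Pool.Agent.N870.EG.Fin
import Pool.Agent.N559.EG.COMBK
import Pool.Agent.Y728.RC.Av
import Pool.Agent.Y294.ET.Low8
import Pool.Agent.Y294.ET.Two
import Pool.Agent.W307.RT.Main4

/-!
# Project H: the tails of the rank for the noncyclic torsion groups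
-/

set_option autoImplicit false

namespace Pool.Agent.N870.H.Rk

open Finset Filter Topology Pool.Agent.W307.RT

open Pool.Agent.W307.SE (SelR)
open Pool.Agent.TH841.SH.D (Sha)

/-- the order of `Sel_2 / E(ℚ)[2]` -/
noncomputable def sz (c : ℤ × ℤ) : ℕ := 2 ^ Module.finrank ℤ (Sh c.1 c.2).toAffine.Point *
  Nat.card {x : Sha (Sh c.1 c.2) // x + x = 0}

lemma hasT_two {m j : ℕ} (hj : 0 < j) (hm : m = 2 * j) {W : WeierstrassCurve ℚ}
    (h : HasT m W) : HasT 2 W := by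
  obtain ⟨P, Q, hP, hQ, hQP⟩ := h
  refine ⟨j • P, Q, ?_, hQ, fun h => hQP ?_⟩
  · rw [addOrderOf_nsmul_of_dvd hj.ne' (by rw [hP, hm]; exact Dvd.intro_left 2 rfl), hP, hm]
    exact Nat.mul_div_cancel _ hj
  · obtain ⟨k, hk⟩ := AddSubgroup.mem_zmultiples_iff.1 h
    refine AddSubgroup.mem_zmultiples_iff.2 ⟨k * j, ?_⟩
    rw [← hk, mul_zsmul, natCast_zsmul]

lemma mem_ok {m H : ℕ} (hm : m = 2 ∨ m = 4 ∨ m = 6 ∨ m = 8) {c : ℤ × ℤ} (h : c ∈ Cv m H) :
    4 * c.1 ^ 3 + 27 * c.2 ^ 2 ≠ 0 ∧ HasT 2 (Sh c.1 c.2) := by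
  classical
  unfold Cv at h
  obtain ⟨_, a1, _, _, _, a3⟩ := mem_filter.1 h
  refine ⟨a1, ?_⟩
  rcases hm with rfl | rfl | rfl | rfl
  · exact a3
  · exact hasT_two (j := 2) (by norm_num) rfl a3
  · exact hasT_two (j := 3) (by norm_num) rfl a3
  · exact hasT_two (j := 4) (by norm_num) rfl a3

lemma sz_eq {m H : ℕ} (hm : m = 2 ∨ m = 4 ∨ m = 6 ∨ m = 8) {c : ℤ × ℤ} (h : c ∈ Cv m H) :
    4 * sz c = (SelR c.1 c.2).ncard := by
  obtain ⟨h1, h2⟩ := mem_ok hm h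
  obtain ⟨-, -, h3⟩ := Pool.Agent.Y728.RC.sel_eq h1 h2
  unfold sz
  rw [← h3, pow_add]
  ring

lemma two_pow_le {m H : ℕ} (hm : m = 2 ∨ m = 4 ∨ m = 6 ∨ m = 8) {c : ℤ × ℤ} (h : c ∈ Cv m H) :
    2 ^ Module.finrank ℤ (Sh c.1 c.2).toAffine.Point ≤ sz c := by
  obtain ⟨h1, h2⟩ := mem_ok hm h
  obtain ⟨-, h3, -⟩ := Pool.Agent.Y728.RC.sel_eq h1 h2
  have : 0 < Nat.card {x : Sha (Sh c.1 c.2) // x + x = 0} := by
    have : Nonempty {x : Sha (Sh c.1 c.2) // x + x = 0} := ⟨⟨0, add_zero 0⟩⟩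
    exact Nat.card_pos
  exact Nat.le_mul_of_pos_right _ this

/-- the exponents -/
noncomputable def ee (m : ℕ) (s : ℝ) : ℝ :=
  max 0 (if m = 2 then 1 / 2 * (2 ^ s - 1) - 2 * (1 - 2 ^ (-s))
    else if m = 4 then (2 ^ s - 1) - 2 * (1 - 2 ^ (-s))
    else if m = 6 then 3 / 2 * (2 ^ s - 1) - 4 * (1 - 2 ^ (-s))
    else 2 * (2 ^ s - 1) - 4 * (1 - 2 ^ (-s)))

lemma ee_nonneg (m : ℕ) (s : ℝ) : 0 ≤ ee m s := le_max_left _ _

/-- the upper bounds for the moments -/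
def Up (m k : ℕ) (E : ℝ) : Prop := ∃ C : ℝ, 0 ≤ C ∧ ∀ H : ℕ, 1 ≤ H →
  ∑ c ∈ Cv m H, ((SelR c.1 c.2).ncard : ℝ) ^ k ≤ C * ((Cv m H).card * (1 + Real.log H) ^ E)

lemma Up.mono {m k : ℕ} {E E' : ℝ} (h : Up m k E) (hE : E ≤ E') : Up m k E' := by
  obtain ⟨C, hC0, hC⟩ := h
  refine ⟨C, hC0, fun H hH => (hC H hH).trans ?_⟩
  have hl : 0 ≤ Real.log (H : ℝ) := Real.log_natCast_nonneg H
  refine mul_le_mul_of_nonneg_left (mul_le_mul_of_nonneg_left ?_ (Nat.cast_nonneg _)) hC0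
  exact Real.rpow_le_rpow_of_exponent_le (by linarith) hE

theorem up {m : ℕ} (hm : m = 2 ∨ m = 4 ∨ m = 6 ∨ m = 8) {k : ℕ} (hk : 1 ≤ k) :
    Up m k (ee m k) := by
  have hconv := Pool.Agent.N547.H.t_CONV
  have hfam := Pool.Agent.N82.H.t_FAMK Pool.Agent.N701.H.t_AVGK
  have hmak : Pool.Agent.N870.H.S_MAKH := Pool.Agent.N870.H.t_MAKH
  have hcrv : Pool.Agent.N870.H.S_CRVK := Pool.Agent.N380.H.t_CRVK
  have havg8 : Pool.Agent.N870.H.S_AVG8 := Pool.Agent.N164.H.t_AVG8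
  have hmak8 : Pool.Agent.N870.H.S_MAK8 := Pool.Agent.N870.H.Mak8f.t_MAK8
  have h2 : ∀ q : ℕ, 2 ≤ q → Up 2 q (ee 2 q) := by
    intro q hq
    have h := Pool.Agent.N870.EG.finq Pool.Agent.N559.EG.t_COMBK hq
    refine Up.mono h ?_
    unfold ee Pool.Agent.N870.EG.EX
    rw [if_pos rfl]
    refine le_trans (le_of_eq ?_) (le_max_right _ _)
    rw [Real.rpow_neg (by norm_num), Real.rpow_natCast, one_div]
    ring
  rcases hm with rfl | rfl | rfl | rfl
  · rcases Nat.lt_or_ge k 2 with h1 | h1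
    · obtain rfl : k = 1 := by omega
      obtain ⟨C, hC0, hC⟩ := h2 2 le_rfl
      have he : ee 2 (2 : ℕ) = 0 := by
        unfold ee
        rw [if_pos rfl, Real.rpow_neg (by norm_num)]
        norm_num
      refine Up.mono (E := 0) ⟨C, hC0, fun H hH => ?_⟩ (ee_nonneg _ _)
      have h3 := hC H hH
      rw [he] at h3
      refine le_trans (sum_le_sum fun c hc => ?_) h3
      have h4 : 1 ≤ (SelR c.1 c.2).ncard := by
        rw [← sz_eq (Or.inl rfl) hc]
        have h5 := two_pow_le (Or.inl rfl) hc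
        have h6 : 1 ≤ 2 ^ Module.finrank ℤ (Sh c.1 c.2).toAffine.Point := Nat.one_le_two_pow
        omega
      have h5 : (1 : ℝ) ≤ ((SelR c.1 c.2).ncard : ℝ) := by exact_mod_cast h4
      exact pow_le_pow_right₀ h5 (by norm_num)
    · exact h2 k h1
  · have h0 := Pool.Agent.N870.H.e4_nonneg hk
    refine Up.mono (hcrv 4 12 k _ M4 N4 (by norm_num) h0
      Pool.Agent.Y723.Z8.S46.px4.1 Pool.Agent.W29.RT.low4 Pool.Agent.W701.FK.seld'
      Pool.Agent.W597.SE.selc (Pool.Agent.N870.H.box4 hconv hmak hfam hk)) ?_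
    unfold ee Pool.Agent.N870.H.e4
    exact le_max_right _ _
  · have h0 := ee_nonneg 6 k
    exact hcrv 6 24 k (ee 6 k) M6 N6 (by norm_num) h0
      Pool.Agent.Y606.Z8.px6.1 Pool.Agent.W376.RTL.low6 Pool.Agent.W701.FK.seld'
      Pool.Agent.W597.SE.selc (Pool.Agent.N870.H.box6 hconv hmak hfam hk h0 (by
        unfold ee Pool.Agent.N870.H.e6
        exact le_max_right _ _))
  · have h0 := Pool.Agent.N870.H.e8_nonneg hk
    refine Up.mono (hcrv 8 48 k _ Pool.Agent.Y723.Z8.M8 Pool.Agent.Y723.Z8.N8 (by norm_num) h0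
      Pool.Agent.Y38.Z8.px8.1 Pool.Agent.Y723.Z8.Fin8.low8 Pool.Agent.W701.FK.seld'
      Pool.Agent.W597.SE.selc (Pool.Agent.N870.H.box8 havg8 hmak8 hk)) ?_
    unfold ee Pool.Agent.N870.H.e8x
    exact le_max_right _ _

open Classical in
/-- the curves with the exact torsion group `Z/2 x Z/m` -/
noncomputable def G (m H : ℕ) : Finset (ℤ × ℤ) :=
  (Cv m H).filter (fun c => (m = 2 → ∀ P : (Sh c.1 c.2).toAffine.Point,
    addOrderOf P ≠ 3 ∧ addOrderOf P ≠ 4) ∧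
    (m = 4 → ∀ P : (Sh c.1 c.2).toAffine.Point, addOrderOf P ≠ 8))

lemma G_sub (m H : ℕ) : G m H ⊆ Cv m H := by
  classical
  exact filter_subset _ _

lemma G_two (H : ℕ) : G 2 H = Pool.Agent.Y294.ET.G34 H := by
  classical
  unfold G Pool.Agent.Y294.ET.G34
  refine filter_congr fun c _ => ?_
  constructor
  · intro h
    exact h.1 rfl
  · intro h
    exact ⟨fun _ => h, fun h => absurd h (by norm_num)⟩

lemma G_four (H : ℕ) : G 4 H = Pool.Agent.Y294.ET.G8 H := by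
  classical
  unfold G Pool.Agent.Y294.ET.G8
  refine filter_congr fun c _ => ?_
  constructor
  · intro h
    exact h.2 rfl
  · intro h
    exact ⟨fun h => absurd h (by norm_num), fun _ => h⟩

lemma G_other {m : ℕ} (h2 : m ≠ 2) (h4 : m ≠ 4) (H : ℕ) : G m H = Cv m H := by
  classical
  unfold G
  exact filter_true_of_mem fun c _ => ⟨fun h => absurd h h2, fun h => absurd h h4⟩

lemma tend4 : Tendsto (fun H : ℕ => (Pool.Agent.Y294.ET.G8 H).card) atTop atTop := by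
  obtain ⟨c, C, T0, hc, h⟩ := Pool.Agent.Y294.ET.low8
  rw [tendsto_atTop_atTop]
  intro b
  obtain ⟨n, hn⟩ := exists_nat_gt ((b : ℝ) / c)
  set T := max (max n T0) 1 with hT
  have h1 : (b : ℝ) ≤ c * (T : ℝ) ^ 2 := by
    rw [div_lt_iff₀ hc] at hn
    have hT1 : (1 : ℝ) ≤ T := by exact_mod_cast (le_max_right (max n T0) 1)
    have hTn : (n : ℝ) ≤ T := by
      exact_mod_cast (le_max_left n T0).trans (le_max_left (max n T0) 1)
    have h2 : (T : ℝ) ≤ (T : ℝ) ^ 2 := by nlinarith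
    nlinarith
  refine ⟨C * T ^ 12, fun H hH => ?_⟩
  have h3 := h T H ((le_max_right n T0).trans (le_max_left _ 1)) hH
  exact_mod_cast h1.trans h3

theorem tend {m : ℕ} (hm : m = 2 ∨ m = 4 ∨ m = 6 ∨ m = 8) :
    Tendsto (fun H : ℕ => (G m H).card) atTop atTop := by
  rcases hm with rfl | rfl | rfl | rfl
  · simp only [G_two]
    exact Pool.Agent.Y294.ET.tend34
  · simp only [G_four]
    exact tend4
  · simp only [G_other (m := 6) (by norm_num) (by norm_num)]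
    exact tendsto_of_low Pool.Agent.W376.RTL.low6
  · simp only [G_other (m := 8) (by norm_num) (by norm_num)]
    exact tendsto_of_low Pool.Agent.Y723.Z8.Fin8.low8

/-- the curves of `G` are a positive proportion -/
theorem prop {m : ℕ} (hm : m = 2 ∨ m = 4 ∨ m = 6 ∨ m = 8) :
    ∃ (K : ℝ) (H₀ : ℕ), 0 ≤ K ∧ ∀ H : ℕ, H₀ ≤ H → ((Cv m H).card : ℝ) ≤ K * (G m H).card := by
  rcases hm with rfl | rfl | rfl | rfl
  · obtain ⟨H1, hH1⟩ := eventually_atTop.1 (Pool.Agent.Y294.ET.ratio34.eventually_const_lt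
      (show (1 / 2 : ℝ) < 1 by norm_num))
    refine ⟨2, H1, by norm_num, fun H hH => ?_⟩
    have h1 := hH1 H hH
    rw [G_two]
    rcases (Nat.cast_nonneg (Cv 2 H).card : (0 : ℝ) ≤ (Cv 2 H).card).eq_or_lt with h2 | h2
    · rw [← h2]
      positivity
    · rw [lt_div_iff₀ h2] at h1
      linarith
  · obtain ⟨C, hC⟩ := Pool.Agent.Y294.ET.final_sub (by norm_num)
      (Pool.Agent.W605.RT.par4_of Pool.Agent.W261.RT.iso) _ Pool.Agent.Y294.ET.G8_sub
      Pool.Agent.Y294.ET.low8 Pool.Agent.W307.RT.box4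
    obtain ⟨H1, hH1⟩ := eventually_atTop.1 (tend4.eventually_ge_atTop 1)
    refine ⟨max C 0, H1, le_max_right _ _, fun H hH => ?_⟩
    rw [G_four]
    have h1 : (Pool.Agent.Y294.ET.G8 H).Nonempty := card_pos.1 (hH1 H hH)
    refine ((hC H).2 h1).trans ?_
    exact mul_le_mul_of_nonneg_right (le_max_left _ _) (Nat.cast_nonneg _)
  · refine ⟨1, 0, by norm_num, fun H _ => ?_⟩
    rw [G_other (by norm_num) (by norm_num), one_mul]
  · refine ⟨1, 0, by norm_num, fun H _ => ?_⟩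
    rw [G_other (by norm_num) (by norm_num), one_mul]

open Classical in
/-- **the tail bound** -/
theorem core {m : ℕ} (hm : m = 2 ∨ m = 4 ∨ m = 6 ∨ m = 8) {k : ℕ} (hk : 1 ≤ k) :
    ∃ (K : ℝ) (H₀ : ℕ), 0 ≤ K ∧ ∀ H : ℕ, H₀ ≤ H → ∀ X : ℝ, 0 < X →
      (((G m H).filter (fun c => X ≤ sz c)).card : ℝ) * X ^ k ≤
        K * (Real.log H) ^ ee m k * (G m H).card := by
  obtain ⟨C, hC0, hC⟩ := up hm hk
  obtain ⟨K, H1, hK0, hK⟩ := prop hm
  refine ⟨C * K * 2 ^ ee m k, H1 + 3, by positivity, fun H hH X hX => ?_⟩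
  have h1 := hC H (by omega)
  have h2 := hK H (by omega)
  have hl : 1 ≤ Real.log H := by
    have h3 : (3 : ℝ) ≤ H := by exact_mod_cast (by omega : 3 ≤ H)
    rw [Real.le_log_iff_exp_le (by linarith)]
    have := Real.exp_one_lt_d9
    linarith
  have h3 : (1 + Real.log H) ^ ee m k ≤ 2 ^ ee m k * (Real.log H) ^ ee m k := by
    rw [← Real.mul_rpow (by norm_num) (by linarith)]
    exact Real.rpow_le_rpow (by linarith) (by linarith) (ee_nonneg _ _)
  calc (((G m H).filter (fun c => X ≤ sz c)).card : ℝ) * X ^ k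
      = ∑ c ∈ (G m H).filter (fun c => X ≤ sz c), X ^ k := by
        rw [sum_const, nsmul_eq_mul]
    _ ≤ ∑ c ∈ (G m H).filter (fun c => X ≤ sz c), ((SelR c.1 c.2).ncard : ℝ) ^ k := by
        refine sum_le_sum fun c hc => pow_le_pow_left₀ hX.le ?_ k
        obtain ⟨a1, a2⟩ := mem_filter.1 hc
        rw [← sz_eq hm (G_sub m H a1)]
        push_cast
        have : (0 : ℝ) ≤ (sz c : ℝ) := Nat.cast_nonneg _
        linarith
    _ ≤ ∑ c ∈ Cv m H, ((SelR c.1 c.2).ncard : ℝ) ^ k :=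
        sum_le_sum_of_subset_of_nonneg ((filter_subset _ _).trans (G_sub m H))
          fun _ _ _ => by positivity
    _ ≤ C * ((Cv m H).card * (1 + Real.log H) ^ ee m k) := h1
    _ ≤ C * ((K * (G m H).card) * (2 ^ ee m k * (Real.log H) ^ ee m k)) := by
        refine mul_le_mul_of_nonneg_left ?_ hC0
        exact mul_le_mul h2 h3 (by positivity) (by positivity)
    _ = _ := by ring

open Classical in
/-- the scale `log log H` -/
theorem scale {m : ℕ} (hm : m = 2 ∨ m = 4 ∨ m = 6 ∨ m = 8) {k : ℕ} (hk : 1 ≤ k) (l : ℝ)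
    (ε : ℝ) (hε : 0 < ε) : ∃ H₀ : ℕ, ∀ H : ℕ, H₀ ≤ H →
      (((G m H).filter (fun c => l * Real.log (Real.log H) ≤
        (Module.finrank ℤ (Sh c.1 c.2).toAffine.Point : ℝ))).card : ℝ) ≤
        (Real.log H) ^ (-(k * l * Real.log 2 - ee m k) + ε) * (G m H).card := by
  obtain ⟨K, H1, hK0, hK⟩ := core hm hk
  obtain ⟨H2, hH2⟩ := eventually_atTop.1 (((tendsto_rpow_atTop hε).comp
    (Real.tendsto_log_atTop.comp (tendsto_natCast_atTop_atTop (R := ℝ)))).eventually_ge_atTop K)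
  refine ⟨H1 + H2 + 3, fun H hH => ?_⟩
  have h1 : (3 : ℝ) ≤ H := by exact_mod_cast (by omega : 3 ≤ H)
  have hl : 0 < Real.log H := Real.log_pos (by linarith)
  have h2 : K ≤ (Real.log H) ^ ε := hH2 H (by omega)
  obtain ⟨X, hX⟩ : ∃ X : ℝ, X = (Real.log H) ^ (l * Real.log 2) := ⟨_, rfl⟩
  have hX0 : 0 < X := hX ▸ Real.rpow_pos_of_pos hl _
  have h3 := hK H (by omega) X hX0
  have h4 : X ^ k = (Real.log H) ^ (k * l * Real.log 2) := by
    rw [hX, ← Real.rpow_natCast, ← Real.rpow_mul hl.le]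
    congr 1
    ring
  have h5 : ((G m H).filter (fun c => l * Real.log (Real.log H) ≤
        (Module.finrank ℤ (Sh c.1 c.2).toAffine.Point : ℝ))) ⊆
      (G m H).filter (fun c => X ≤ sz c) := by
    intro c hc
    obtain ⟨a1, a2⟩ := mem_filter.1 hc
    refine mem_filter.2 ⟨a1, ?_⟩
    have a3 := two_pow_le hm (G_sub m H a1)
    have a4 : ((2 : ℝ) ^ Module.finrank ℤ (Sh c.1 c.2).toAffine.Point) ≤ (sz c : ℝ) := by
      exact_mod_cast a3
    refine le_trans ?_ a4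
    rw [hX, ← Real.rpow_natCast, Real.rpow_def_of_pos hl, Real.rpow_def_of_pos (by norm_num)]
    rw [Real.exp_le_exp]
    have h6 : 0 < Real.log 2 := Real.log_pos (by norm_num)
    nlinarith
  have h6 : (((G m H).filter (fun c => l * Real.log (Real.log H) ≤
        (Module.finrank ℤ (Sh c.1 c.2).toAffine.Point : ℝ))).card : ℝ) ≤
      (((G m H).filter (fun c => X ≤ sz c)).card : ℝ) := by
    exact_mod_cast card_le_card h5
  have h7 : 0 < X ^ k := by positivity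
  have h8 : (Real.log H) ^ (-(k * l * Real.log 2 - ee m k) + ε) =
      (Real.log H) ^ ε * (Real.log H) ^ ee m k / X ^ k := by
    rw [h4, ← Real.rpow_add hl, ← Real.rpow_sub hl]
    congr 1
    ring
  rw [h8, div_mul_eq_mul_div, le_div_iff₀ h7]
  calc _ ≤ (((G m H).filter (fun c => X ≤ sz c)).card : ℝ) * X ^ k :=
        mul_le_mul_of_nonneg_right h6 h7.le
    _ ≤ K * (Real.log H) ^ ee m k * (G m H).card := h3
    _ ≤ (Real.log H) ^ ε * (Real.log H) ^ ee m k * (G m H).card := by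
        refine mul_le_mul_of_nonneg_right (mul_le_mul_of_nonneg_right h2 ?_) (Nat.cast_nonneg _)
        exact Real.rpow_nonneg hl.le _

open Classical in
/-- faster than any power -/
theorem super {m : ℕ} (hm : m = 2 ∨ m = 4 ∨ m = 6 ∨ m = 8) (A : ℝ) :
    ∃ l₀ : ℝ, ∀ l : ℝ, l₀ ≤ l → ∃ H₀ : ℕ, ∀ H : ℕ, H₀ ≤ H →
      (((G m H).filter (fun c => l * Real.log (Real.log H) ≤
        (Module.finrank ℤ (Sh c.1 c.2).toAffine.Point : ℝ))).card : ℝ) ≤
        (Real.log H) ^ (-(A * l)) * (G m H).card := by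
  have h2 : 0 < Real.log 2 := Real.log_pos (by norm_num)
  obtain ⟨k, hk⟩ := exists_nat_gt ((|A| + 1) / Real.log 2)
  rw [div_lt_iff₀ h2] at hk
  have hk1 : 1 ≤ k := by
    rcases Nat.eq_zero_or_pos k with h | h
    · rw [h] at hk
      have := abs_nonneg A
      norm_num at hk
      linarith
    · exact h
  refine ⟨ee m k + 1, fun l hl => ?_⟩
  obtain ⟨H1, hH1⟩ := scale hm hk1 l 1 one_pos
  refine ⟨H1 + 3, fun H hH => (hH1 H (by omega)).trans ?_⟩
  have h3 : (3 : ℝ) ≤ H := by exact_mod_cast (by omega : 3 ≤ H)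
  have hlg : 1 ≤ Real.log H := by
    rw [Real.le_log_iff_exp_le (by linarith)]
    have := Real.exp_one_lt_d9
    linarith
  refine mul_le_mul_of_nonneg_right (Real.rpow_le_rpow_of_exponent_le hlg ?_) (Nat.cast_nonneg _)
  have he := ee_nonneg m k
  have hl0 : 0 ≤ l := by linarith
  have h4 : (|A| + 1) * l ≤ k * Real.log 2 * l := mul_le_mul_of_nonneg_right hk.le hl0
  have h5 : A * l ≤ |A| * l := mul_le_mul_of_nonneg_right (le_abs_self A) hl0
  nlinarith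

end Pool.Agent.N870.H.Rk
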