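import Mathlib
import Pool.Agent.N870.H.Rk
import Pool.Agent.N870.EC.LowG
import Pool.Agent.N870.EC.Fam
import Pool.Agent.N870.EC.Fam4
import Pool.Agent.N870.EC.Selge
import Pool.Agent.N454.EC.CNT2
import Pool.Agent.N568.EC.DEN
import Pool.Agent.N704.EC.Fam4
import Pool.Agent.N300.EC.SZ4
import Pool.Agent.N459.EC.CARD4
import Pool.Agent.N870.EC.Fam6
import Pool.Agent.N803.EC.Fam8
import Pool.Agent.N136.EC.SZG
import Pool.Agent.N713.EC.CARDG
import Pool.Agent.N31.EC.DEN6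
import Pool.Agent.N401.EC.DEN8
import Pool.Agent.N279.EC.Fam2
import Pool.Agent.N530.EC.SZ2
import Pool.Agent.N756.EC.Card2a

/-!
# Project H: two-sided bounds for the tails of `2 ^ rank * #Ш[2]` at the scale `log log H`
-/

set_option autoImplicit false

namespace Pool.Agent.N870.H.Rk

open Finset Filter Topology Pool.Agent.W307.RT

open Pool.Agent.W307.SE (SelR)

/-- the elements of a window carry the moment -/
lemma window {ι : Type} (S : Finset ι) (f : ι → ℝ) (hf : ∀ i ∈ S, 0 < f i) (k : ℕ)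
    (A B D Y Z : ℝ) (hZ : 0 < Z) [DecidablePred (fun i => Y ≤ f i)] (hY : 0 ≤ Y)
    (h1 : ∑ i ∈ S, f i ^ k ≤ A) (h2 : D ≤ ∑ i ∈ S, f i ^ (k + 1))
    (h3 : ∑ i ∈ S, f i ^ (k + 2) ≤ B) :
    D ≤ Y * A + B / Z + ((S.filter (fun i => Y ≤ f i)).card : ℝ) * Z ^ (k + 1) := by
  have h4 : ∑ i ∈ S, f i ^ (k + 1) ≤ ∑ i ∈ S, (Y * f i ^ k + f i ^ (k + 2) / Z +
      (if Y ≤ f i then Z ^ (k + 1) else 0)) := by
    refine sum_le_sum fun i hi => ?_
    have h0 := hf i hi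
    have a1 : 0 ≤ Y * f i ^ k := by positivity
    have a2 : 0 ≤ f i ^ (k + 2) / Z := by positivity
    have a3 : (0 : ℝ) ≤ if Y ≤ f i then Z ^ (k + 1) else 0 := by split_ifs <;> positivity
    rcases le_or_gt Y (f i) with h5 | h5
    · rw [if_pos h5] at a3 ⊢
      rcases le_or_gt (f i) Z with h6 | h6
      · have h7 : f i ^ (k + 1) ≤ Z ^ (k + 1) := pow_le_pow_left₀ h0.le h6 _
        linarith
      · have h7 : f i ^ (k + 1) ≤ f i ^ (k + 2) / Z := by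
          rw [le_div_iff₀ hZ, pow_succ (f i) (k + 1)]
          exact mul_le_mul_of_nonneg_left h6.le (by positivity)
        linarith
    · have h7 : f i ^ (k + 1) ≤ Y * f i ^ k := by
        rw [pow_succ, mul_comm]
        exact mul_le_mul_of_nonneg_right h5.le (by positivity)
      linarith
  rw [sum_add_distrib, sum_add_distrib, ← mul_sum, ← sum_div, ← sum_filter, sum_const,
    nsmul_eq_mul] at h4
  have h5 : Y * ∑ i ∈ S, f i ^ k ≤ Y * A := mul_le_mul_of_nonneg_left h1 hY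
  have h6 : (∑ i ∈ S, f i ^ (k + 2)) / Z ≤ B / Z := div_le_div_of_nonneg_right h3 hZ.le
  linarith

/-- the exponents without the maximum -/
noncomputable def rw' (m : ℕ) (s : ℝ) : ℝ :=
  if m = 2 then 1 / 2 * (2 ^ s - 1) - 2 * (1 - 2 ^ (-s))
    else if m = 4 then (2 ^ s - 1) - 2 * (1 - 2 ^ (-s))
    else if m = 6 then 3 / 2 * (2 ^ s - 1) - 4 * (1 - 2 ^ (-s))
    else 2 * (2 ^ s - 1) - 4 * (1 - 2 ^ (-s))

lemma ee_eq (m : ℕ) (s : ℝ) : ee m s = max 0 (rw' m s) := rfl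

/-- the lower bounds for the moments -/
theorem low {m : ℕ} (hm : m = 2 ∨ m = 4 ∨ m = 6 ∨ m = 8) (s ε : ℝ) (hs : 0 < s) (hε : 0 < ε) :
    ∃ H0 : ℕ, ∀ H : ℕ, H0 ≤ H → ((Cv m H).card : ℝ) * (Real.log H) ^ (rw' m s - ε) ≤
      ∑ c ∈ Cv m H, ((SelR c.1 c.2).ncard : ℝ) ^ s := by
  rcases hm with rfl | rfl | rfl | rfl
  · obtain ⟨H0, h⟩ := Pool.Agent.N870.EC.low_two Pool.Agent.N454.EC.t_CNT2
      Pool.Agent.N568.EC.t_DEN2 Pool.Agent.N279.EC.t_FAM2
      (Pool.Agent.N530.EC.t_SZ2 Pool.Agent.N870.EC.selge) Pool.Agent.N756.EC.card2 s ε hs hε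
    refine ⟨H0, fun H hH => le_trans (le_of_eq ?_) (h H hH)⟩
    unfold rw'
    rw [if_pos rfl]
    congr 2
    ring
  · exact Pool.Agent.N870.EC.low_four Pool.Agent.N454.EC.t_CNT2
      Pool.Agent.N568.EC.t_DEN4 Pool.Agent.N704.EC.t_FAM4
      (Pool.Agent.N300.EC.t_SZ4 Pool.Agent.N870.EC.selge) Pool.Agent.N459.EC.t_CARD4 s ε hs hε
  · exact Pool.Agent.N870.EC.low_six
      Pool.Agent.N454.EC.t_CNT2 Pool.Agent.N31.EC.t_DEN6 Pool.Agent.N870.EC.fam6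
      (Pool.Agent.N136.EC.t_SZG Pool.Agent.N870.EC.selge) Pool.Agent.N713.EC.t_CARDG
      Pool.Agent.Y606.Z8.px6.1 s ε hs hε
  · exact Pool.Agent.N870.EC.low_eight
      Pool.Agent.N454.EC.t_CNT2 Pool.Agent.N401.EC.t_DEN8 Pool.Agent.N803.EC.t_FAM8
      (Pool.Agent.N136.EC.t_SZG Pool.Agent.N870.EC.selge) Pool.Agent.N713.EC.t_CARDG
      Pool.Agent.Y38.Z8.px8.1 s ε hs hε

lemma two_rpow_neg (k : ℕ) : (2 : ℝ) ^ (-(k : ℝ)) = 1 / 2 ^ k := by
  rw [Real.rpow_neg (by norm_num), Real.rpow_natCast, one_div]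

lemma four_le_pow {k : ℕ} (hk : 2 ≤ k) : (4 : ℝ) ≤ 2 ^ k := by
  calc (4 : ℝ) = 2 ^ 2 := by norm_num
    _ ≤ 2 ^ k := pow_le_pow_right₀ (by norm_num) hk

lemma rw_nonneg {m : ℕ} (hm : m = 2 ∨ m = 4 ∨ m = 6 ∨ m = 8) {k : ℕ} (hk : 2 ≤ k) :
    0 ≤ rw' m k := by
  have h4 := four_le_pow hk
  have h0 : (0 : ℝ) < 2 ^ k := by positivity
  have h1 : (1 : ℝ) / 2 ^ k ≤ 1 / 4 := one_div_le_one_div_of_le (by norm_num) h4
  have h2 : (2 : ℝ) ^ k * (1 / 2 ^ k) = 1 := by field_simp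
  have h3 : (0 : ℝ) < 1 / 2 ^ k := by positivity
  unfold rw'
  rw [two_rpow_neg, Real.rpow_natCast]
  rcases hm with rfl | rfl | rfl | rfl
  · rw [if_pos rfl]
    nlinarith
  · rw [if_neg (by norm_num), if_pos rfl]
    linarith
  · rw [if_neg (by norm_num), if_neg (by norm_num), if_pos rfl]
    linarith
  · rw [if_neg (by norm_num), if_neg (by norm_num), if_neg (by norm_num)]
    linarith

lemma ee_rw {m : ℕ} (hm : m = 2 ∨ m = 4 ∨ m = 6 ∨ m = 8) {k : ℕ} (hk : 2 ≤ k) :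
    ee m k = rw' m k := by
  rw [ee_eq]
  exact max_eq_right (rw_nonneg hm hk)

open Classical in
/-- **the lower bound for the tail** -/
theorem lowk {m : ℕ} (hm : m = 2 ∨ m = 4 ∨ m = 6 ∨ m = 8) {k : ℕ} (hk : 1 ≤ k) (δ : ℝ)
    (hδ : 0 < δ) : ∃ H₀ : ℕ, ∀ H : ℕ, H₀ ≤ H →
      ((Cv m H).card : ℝ) * (Real.log H) ^ (-((k + 1) * (ee m (k + 2 : ℕ) - ee m (k + 1 : ℕ)) -
        ee m (k + 1 : ℕ)) - δ) ≤
      (((Cv m H).filter (fun c => (Real.log H) ^ (ee m (k + 1 : ℕ) - ee m k - δ) ≤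
        (sz c : ℝ))).card : ℝ) := by
  obtain ⟨ε, hε⟩ : ∃ ε : ℝ, ε = δ / (3 * k + 6) := ⟨_, rfl⟩
  have hk0 : (0 : ℝ) < 3 * k + 6 := by positivity
  have hε0 : 0 < ε := by rw [hε]; positivity
  have hδε : δ = (3 * k + 6) * ε := by rw [hε]; field_simp
  obtain ⟨C1, hC10, hC1⟩ := up hm hk
  obtain ⟨C2, hC20, hC2⟩ := up hm (k := k + 2) (by omega)
  obtain ⟨H1, hH1⟩ := low hm ((k + 1 : ℕ) : ℝ) ε (by positivity) hε0
  rw [← ee_rw hm (by omega : 2 ≤ k + 1)] at hH1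
  obtain ⟨a, ha⟩ : ∃ a : ℝ, a = ee m k := ⟨_, rfl⟩
  obtain ⟨b, hb⟩ : ∃ b : ℝ, b = ee m (k + 1 : ℕ) := ⟨_, rfl⟩
  obtain ⟨d, hd⟩ : ∃ d : ℝ, d = ee m (k + 2 : ℕ) := ⟨_, rfl⟩
  have ha0 : 0 ≤ a := ha ▸ ee_nonneg _ _
  have hd0 : 0 ≤ d := hd ▸ ee_nonneg _ _
  rw [← ha, ← hb, ← hd]
  rw [← ha] at hC1
  rw [← hb] at hH1
  rw [← hd] at hC2
  have hlim : Tendsto (fun H : ℕ => (Real.log H) ^ ε) atTop atTop :=
    (tendsto_rpow_atTop hε0).comp (Real.tendsto_log_atTop.comp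
      (tendsto_natCast_atTop_atTop (R := ℝ)))
  obtain ⟨H2, hH2⟩ := eventually_atTop.1 (hlim.eventually_ge_atTop
    (4 + 2 * (C1 * 2 ^ a + C2 * 2 ^ d)))
  refine ⟨H1 + H2 + 3, fun H hH => ?_⟩
  have h1 := hH1 H (by omega)
  have h2 : 4 + 2 * (C1 * 2 ^ a + C2 * 2 ^ d) ≤ (Real.log H) ^ ε := hH2 H (by omega)
  have h3 : (3 : ℝ) ≤ H := by exact_mod_cast (by omega : 3 ≤ H)
  obtain ⟨L, hL⟩ : ∃ L : ℝ, L = Real.log H := ⟨_, rfl⟩
  have hU1 := hC1 H (by omega)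
  have hU2 := hC2 H (by omega)
  have hL1 : 1 ≤ L := by
    rw [hL, Real.le_log_iff_exp_le (by linarith)]
    have := Real.exp_one_lt_d9
    linarith
  rw [← hL] at h1 h2 hU1 hU2 ⊢
  have hL0 : 0 < L := by linarith
  obtain ⟨n, hn⟩ : ∃ n : ℝ, n = ((Cv m H).card : ℝ) := ⟨_, rfl⟩
  have hn0 : 0 ≤ n := hn ▸ Nat.cast_nonneg _
  rw [← hn] at h1 hU1 hU2 ⊢
  have hK1 : 0 ≤ C1 * 2 ^ a := by positivity
  have hK2 : 0 ≤ C2 * 2 ^ d := by positivity
  have hb1 : (1 + L) ^ a ≤ 2 ^ a * L ^ a := by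
    rw [← Real.mul_rpow (by norm_num) hL0.le]
    exact Real.rpow_le_rpow (by linarith) (by linarith) ha0
  have hb2 : (1 + L) ^ d ≤ 2 ^ d * L ^ d := by
    rw [← Real.mul_rpow (by norm_num) hL0.le]
    exact Real.rpow_le_rpow (by linarith) (by linarith) hd0
  have hU1' : ∑ c ∈ Cv m H, ((SelR c.1 c.2).ncard : ℝ) ^ k ≤ C1 * 2 ^ a * (n * L ^ a) := by
    refine hU1.trans ?_
    calc C1 * (n * (1 + L) ^ a) ≤ C1 * (n * (2 ^ a * L ^ a)) :=
          mul_le_mul_of_nonneg_left (mul_le_mul_of_nonneg_left hb1 hn0) hC10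
      _ = _ := by ring
  have hU2' : ∑ c ∈ Cv m H, ((SelR c.1 c.2).ncard : ℝ) ^ (k + 2) ≤
      C2 * 2 ^ d * (n * L ^ d) := by
    refine hU2.trans ?_
    calc C2 * (n * (1 + L) ^ d) ≤ C2 * (n * (2 ^ d * L ^ d)) :=
          mul_le_mul_of_nonneg_left (mul_le_mul_of_nonneg_left hb2 hn0) hC20
      _ = _ := by ring
  have h1' : n * L ^ (b - ε) ≤ ∑ c ∈ Cv m H, ((SelR c.1 c.2).ncard : ℝ) ^ (k + 1) := by
    refine h1.trans (le_of_eq ?_)
    exact sum_congr rfl fun c _ => Real.rpow_natCast _ _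
  have hpos : ∀ c ∈ Cv m H, (0 : ℝ) < ((SelR c.1 c.2).ncard : ℝ) := by
    intro c hc
    have h5 := sz_eq hm hc
    have h6 := two_pow_le hm hc
    have h7 : 1 ≤ 2 ^ Module.finrank ℤ (Sh c.1 c.2).toAffine.Point := Nat.one_le_two_pow
    have h8 : 0 < (SelR c.1 c.2).ncard := by omega
    exact_mod_cast h8
  obtain ⟨Y, hY⟩ : ∃ Y : ℝ, Y = L ^ (b - a - 3 * ε) := ⟨_, rfl⟩
  obtain ⟨Z, hZ⟩ : ∃ Z : ℝ, Z = L ^ (d - b + 3 * ε) := ⟨_, rfl⟩
  have hY0 : 0 < Y := hY ▸ Real.rpow_pos_of_pos hL0 _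
  have hZ0 : 0 < Z := hZ ▸ Real.rpow_pos_of_pos hL0 _
  have hw := window (Cv m H) (fun c => ((SelR c.1 c.2).ncard : ℝ)) hpos k _ _ _ Y Z hZ0 hY0.le
    hU1' h1' hU2'
  have e1 : Y * (C1 * 2 ^ a * (n * L ^ a)) = C1 * 2 ^ a * (n * L ^ (b - 3 * ε)) := by
    have : L ^ (b - 3 * ε) = Y * L ^ a := by
      rw [hY, ← Real.rpow_add hL0]
      congr 1
      ring
    rw [this]
    ring
  have e2 : C2 * 2 ^ d * (n * L ^ d) / Z = C2 * 2 ^ d * (n * L ^ (b - 3 * ε)) := by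
    have : L ^ d = Z * L ^ (b - 3 * ε) := by
      rw [hZ, ← Real.rpow_add hL0]
      congr 1
      ring
    rw [this]
    field_simp
  rw [e1, e2] at hw
  have e3 : L ^ (b - ε) = L ^ ε * (L ^ ε * L ^ (b - 3 * ε)) := by
    rw [← Real.rpow_add hL0, ← Real.rpow_add hL0]
    congr 1
    ring
  have hLε : 1 ≤ L ^ ε := Real.one_le_rpow hL1 hε0.le
  have hq0 : 0 ≤ n * L ^ (b - 3 * ε) := mul_nonneg hn0 (Real.rpow_nonneg hL0.le _)
  have e4 : C1 * 2 ^ a * (n * L ^ (b - 3 * ε)) + C2 * 2 ^ d * (n * L ^ (b - 3 * ε)) ≤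
      1 / 2 * (n * L ^ (b - ε)) := by
    rw [e3]
    have e5 : (C1 * 2 ^ a + C2 * 2 ^ d) ≤ 1 / 2 * (L ^ ε * L ^ ε) := by nlinarith
    calc _ = (C1 * 2 ^ a + C2 * 2 ^ d) * (n * L ^ (b - 3 * ε)) := by ring
      _ ≤ (1 / 2 * (L ^ ε * L ^ ε)) * (n * L ^ (b - 3 * ε)) :=
          mul_le_mul_of_nonneg_right e5 hq0
      _ = _ := by ring
  have e6 : 1 / 2 * (n * L ^ (b - ε)) ≤
      (((Cv m H).filter (fun c => Y ≤ ((SelR c.1 c.2).ncard : ℝ))).card : ℝ) * Z ^ (k + 1) := by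
    linarith
  have e7 : (((Cv m H).filter (fun c => Y ≤ ((SelR c.1 c.2).ncard : ℝ))).card : ℝ) ≤
      (((Cv m H).filter (fun c => L ^ (b - a - δ) ≤ (sz c : ℝ))).card : ℝ) := by
    have : (Cv m H).filter (fun c => Y ≤ ((SelR c.1 c.2).ncard : ℝ)) ⊆
        (Cv m H).filter (fun c => L ^ (b - a - δ) ≤ (sz c : ℝ)) := by
      intro c hc
      obtain ⟨a1, a2⟩ := mem_filter.1 hc
      refine mem_filter.2 ⟨a1, ?_⟩
      rw [← sz_eq hm a1] at a2
      push_cast at a2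
      have a3 : 4 * L ^ (b - a - δ) ≤ Y := by
        have a4 : Y = L ^ ((3 * k + 3) * ε) * L ^ (b - a - δ) := by
          rw [hY, hδε, ← Real.rpow_add hL0]
          congr 1
          ring
        rw [a4]
        refine mul_le_mul_of_nonneg_right ?_ (Real.rpow_nonneg hL0.le _)
        have a5 : L ^ ε ≤ L ^ ((3 * k + 3) * ε) := by
          refine Real.rpow_le_rpow_of_exponent_le hL1 ?_
          have : (0 : ℝ) ≤ k := Nat.cast_nonneg k
          nlinarith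
        linarith
      linarith
    exact_mod_cast card_le_card this
  have hZk : 0 < Z ^ (k + 1) := by positivity
  refine le_trans ?_ e7
  have e8 : n * L ^ (-((k + 1) * (d - b) - b) - δ) * Z ^ (k + 1) ≤ 1 / 2 * (n * L ^ (b - ε)) := by
    have e9 : Z ^ (k + 1) = L ^ ((d - b + 3 * ε) * (k + 1 : ℕ)) := by
      rw [hZ, ← Real.rpow_natCast, ← Real.rpow_mul hL0.le]
    rw [e9, mul_assoc, ← Real.rpow_add hL0]
    have e10 : -((k + 1) * (d - b) - b) - δ + (d - b + 3 * ε) * (k + 1 : ℕ) = (b - ε) + -(2 * ε) := by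
      rw [hδε]
      push_cast
      ring
    rw [e10, Real.rpow_add hL0]
    have e11 : L ^ (-(2 * ε)) ≤ 1 / 2 := by
      rw [Real.rpow_neg hL0.le, inv_eq_one_div]
      refine one_div_le_one_div_of_le (by norm_num) ?_
      have : L ^ ε ≤ L ^ (2 * ε) := Real.rpow_le_rpow_of_exponent_le hL1 (by linarith)
      linarith
    have e12 : 0 ≤ n * L ^ (b - ε) := mul_nonneg hn0 (Real.rpow_nonneg hL0.le _)
    calc n * (L ^ (b - ε) * L ^ (-(2 * ε))) = n * L ^ (b - ε) * L ^ (-(2 * ε)) := by ring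
      _ ≤ n * L ^ (b - ε) * (1 / 2) := mul_le_mul_of_nonneg_left e11 e12
      _ = _ := by ring
  have e13 := e8.trans e6
  exact le_of_mul_le_mul_right e13 hZk

/-! ### The order of the exponent -/

lemma ee_le {m : ℕ} (hm : m = 2 ∨ m = 4 ∨ m = 6 ∨ m = 8) (k : ℕ) : ee m k ≤ 2 * 2 ^ k := by
  have h1 : (1 : ℝ) ≤ 2 ^ k := one_le_pow₀ (by norm_num)
  have h2 : (0 : ℝ) < 1 / 2 ^ k := by positivity
  have h3 : (1 : ℝ) / 2 ^ k ≤ 1 := by rw [div_le_one (by positivity)]; exact h1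
  rw [ee_eq]
  refine max_le (by positivity) ?_
  unfold rw'
  rw [two_rpow_neg, Real.rpow_natCast]
  rcases hm with rfl | rfl | rfl | rfl
  · rw [if_pos rfl]
    linarith
  · rw [if_neg (by norm_num), if_pos rfl]
    linarith
  · rw [if_neg (by norm_num), if_neg (by norm_num), if_pos rfl]
    linarith
  · rw [if_neg (by norm_num), if_neg (by norm_num), if_neg (by norm_num)]
    linarith

lemma diff_ge {m : ℕ} (hm : m = 2 ∨ m = 4 ∨ m = 6 ∨ m = 8) {k : ℕ} (hk : 2 ≤ k) :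
    1 / 2 * 2 ^ k - 1 ≤ ee m (k + 1 : ℕ) - ee m k := by
  rw [ee_rw hm hk, ee_rw hm (by omega : 2 ≤ k + 1)]
  have h1 : (1 : ℝ) ≤ 2 ^ k := one_le_pow₀ (by norm_num)
  have h2 : (0 : ℝ) < 1 / 2 ^ k := by positivity
  have h4 := four_le_pow hk
  have h3 : (1 : ℝ) / 2 ^ k ≤ 1 / 4 := one_div_le_one_div_of_le (by norm_num) h4
  have h5 : (2 : ℝ) ^ (k + 1) = 2 * 2 ^ k := by ring
  have h6 : (1 : ℝ) / 2 ^ (k + 1) = 1 / 2 * (1 / 2 ^ k) := by rw [h5]; field_simp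
  unfold rw'
  rw [two_rpow_neg, two_rpow_neg, Real.rpow_natCast, Real.rpow_natCast, h6, h5]
  rcases hm with rfl | rfl | rfl | rfl
  · rw [if_pos rfl, if_pos rfl]
    linarith
  · rw [if_neg (by norm_num), if_pos rfl, if_neg (by norm_num), if_pos rfl]
    linarith
  · rw [if_neg (by norm_num), if_neg (by norm_num), if_pos rfl, if_neg (by norm_num),
      if_neg (by norm_num), if_pos rfl]
    linarith
  · rw [if_neg (by norm_num), if_neg (by norm_num), if_neg (by norm_num), if_neg (by norm_num),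
      if_neg (by norm_num), if_neg (by norm_num)]
    linarith

/-- a power of two close to `x` -/
lemma near {x : ℝ} (hx : 1 ≤ x) : ∃ n : ℕ, (2 : ℝ) ^ n ≤ x ∧ x < 2 ^ (n + 1) :=
  exists_nat_pow_near hx (by norm_num)

lemma log_bounds {x : ℝ} {n : ℕ} (hx : 0 < x) (h1 : (2 : ℝ) ^ n ≤ x) (h2 : x < 2 ^ (n + 1)) :
    n * Real.log 2 ≤ Real.log x ∧ Real.log x ≤ (n + 1) * Real.log 2 := by
  constructor
  · have h := Real.log_le_log (by positivity) h1
    rwa [Real.log_pow] at h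
  · have h := Real.log_le_log hx h2.le
    rw [Real.log_pow] at h
    exact_mod_cast h

lemma log4 {l : ℝ} (hl : 4 ≤ l) : 1.386 ≤ Real.log l := by
  have h1 : Real.log 4 ≤ Real.log l := Real.log_le_log (by norm_num) hl
  have h2 : Real.log 4 = 2 * Real.log 2 := by
    rw [show (4 : ℝ) = 2 ^ 2 by norm_num, Real.log_pow]
    norm_num
  have h3 := Real.log_two_gt_d9
  norm_num at h3 ⊢
  linarith

lemma log12 {l : ℝ} (hl : 4 ≤ l) : 5 * Real.log 12 ≤ 9 * Real.log l := by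
  have h1 : Real.log 4 ≤ Real.log l := Real.log_le_log (by norm_num) hl
  have h2 : Real.log ((12 : ℝ) ^ 5) ≤ Real.log ((4 : ℝ) ^ 9) :=
    Real.log_le_log (by norm_num) (by norm_num)
  rw [Real.log_pow, Real.log_pow] at h2
  push_cast at h2
  linarith

lemma diff_le {m : ℕ} (hm : m = 2 ∨ m = 4 ∨ m = 6 ∨ m = 8) {k : ℕ} (hk : 2 ≤ k) :
    ee m (k + 1 : ℕ) - ee m k ≤ 2 * 2 ^ k := by
  rw [ee_rw hm hk, ee_rw hm (by omega : 2 ≤ k + 1)]
  have h1 : (1 : ℝ) ≤ 2 ^ k := one_le_pow₀ (by norm_num)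
  have h2 : (0 : ℝ) < 1 / 2 ^ k := by positivity
  have h5 : (2 : ℝ) ^ (k + 1) = 2 * 2 ^ k := by ring
  have h6 : (1 : ℝ) / 2 ^ (k + 1) = 1 / 2 * (1 / 2 ^ k) := by rw [h5]; field_simp
  unfold rw'
  rw [two_rpow_neg, two_rpow_neg, Real.rpow_natCast, Real.rpow_natCast, h6, h5]
  rcases hm with rfl | rfl | rfl | rfl
  · rw [if_pos rfl, if_pos rfl]
    linarith
  · rw [if_neg (by norm_num), if_pos rfl, if_neg (by norm_num), if_pos rfl]
    linarith
  · rw [if_neg (by norm_num), if_neg (by norm_num), if_pos rfl, if_neg (by norm_num),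
      if_neg (by norm_num), if_pos rfl]
    linarith
  · rw [if_neg (by norm_num), if_neg (by norm_num), if_neg (by norm_num), if_neg (by norm_num),
      if_neg (by norm_num), if_neg (by norm_num)]
    linarith

open Classical in
/-- the upper bound for the tail at the scale `log log H` -/
theorem upper {m : ℕ} (hm : m = 2 ∨ m = 4 ∨ m = 6 ∨ m = 8) (l : ℝ) (hl : 4 ≤ l) :
    ∃ H₀ : ℕ, ∀ H : ℕ, H₀ ≤ H →
      (((G m H).filter (fun c => (2 : ℝ) ^ (l * Real.log (Real.log H)) ≤ (sz c : ℝ))).card : ℝ) ≤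
        (Real.log H) ^ (-(l * Real.log l - 3 * l)) * (G m H).card := by
  obtain ⟨k, hk1, hk2⟩ := near (x := l) (by linarith)
  obtain ⟨hk3, hk4⟩ := log_bounds (by linarith) hk1 hk2
  have hl2 := Real.log_two_lt_d9
  have hl3 := Real.log_two_gt_d9
  have hk : 1 ≤ k := by
    rcases Nat.eq_zero_or_pos k with h | h
    · rw [h] at hk2
      norm_num at hk2
      linarith
    · exact h
  obtain ⟨K, H1, hK0, hK⟩ := core hm hk
  obtain ⟨H2, hH2⟩ := eventually_atTop.1 (((tendsto_rpow_atTop one_pos).comp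
    (Real.tendsto_log_atTop.comp (tendsto_natCast_atTop_atTop (R := ℝ)))).eventually_ge_atTop K)
  refine ⟨H1 + H2 + 3, fun H hH => ?_⟩
  have h1 : (3 : ℝ) ≤ H := by exact_mod_cast (by omega : 3 ≤ H)
  have h2 : K ≤ (Real.log H) ^ (1 : ℝ) := hH2 H (by omega)
  obtain ⟨L, hL⟩ : ∃ L : ℝ, L = Real.log H := ⟨_, rfl⟩
  have hL1 : 1 ≤ L := by
    rw [hL, Real.le_log_iff_exp_le (by linarith)]
    have := Real.exp_one_lt_d9
    linarith
  have h3 := hK H (by omega)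
  rw [← hL] at h2 h3 ⊢
  have hL0 : 0 < L := by linarith
  obtain ⟨X, hX⟩ : ∃ X : ℝ, X = (2 : ℝ) ^ (l * Real.log L) := ⟨_, rfl⟩
  have hX' : X = L ^ (l * Real.log 2) := by
    rw [hX, Real.rpow_def_of_pos hL0, Real.rpow_def_of_pos (by norm_num)]
    congr 1
    ring
  have hX0 : 0 < X := hX ▸ Real.rpow_pos_of_pos (by norm_num) _
  have h4 := h3 X hX0
  rw [← hX]
  have h5 : X ^ k = L ^ (k * l * Real.log 2) := by
    rw [hX', ← Real.rpow_natCast, ← Real.rpow_mul hL0.le]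
    congr 1
    ring
  have h7 : 0 < X ^ k := by positivity
  have hG : (0 : ℝ) ≤ (G m H).card := Nat.cast_nonneg _
  refine le_of_mul_le_mul_right (h4.trans ?_) h7
  have h8 : K * L ^ ee m k ≤ L ^ (-(l * Real.log l - 3 * l)) * X ^ k := by
    rw [h5, ← Real.rpow_add hL0]
    calc K * L ^ ee m k ≤ L ^ (1 : ℝ) * L ^ ee m k :=
          mul_le_mul_of_nonneg_right h2 (Real.rpow_nonneg hL0.le _)
      _ = L ^ (1 + ee m k) := by rw [← Real.rpow_add hL0]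
      _ ≤ _ := by
        refine Real.rpow_le_rpow_of_exponent_le hL1 ?_
        have h9 := ee_le hm k
        have h10 : (Real.log l - Real.log 2) * l ≤ k * Real.log 2 * l :=
          mul_le_mul_of_nonneg_right (by linarith) (by linarith)
        have h11 : Real.log 2 * l ≤ 0.6931471808 * l :=
          mul_le_mul_of_nonneg_right hl2.le (by linarith)
        norm_num at h11
        nlinarith
  calc K * L ^ ee m k * ((G m H).card : ℝ)
      ≤ (L ^ (-(l * Real.log l - 3 * l)) * X ^ k) * ((G m H).card : ℝ) :=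
        mul_le_mul_of_nonneg_right h8 hG
    _ = _ := by ring

open Classical in
/-- the lower bound for the tail at the scale `log log H` -/
theorem lower {m : ℕ} (hm : m = 2 ∨ m = 4 ∨ m = 6 ∨ m = 8) (l : ℝ) (hl : 4 ≤ l) :
    ∃ H₀ : ℕ, ∀ H : ℕ, H₀ ≤ H →
      (Real.log H) ^ (-(99 * l * Real.log l)) * (Cv m H).card ≤
      (((Cv m H).filter (fun c => (2 : ℝ) ^ (l * Real.log (Real.log H)) ≤
        (sz c : ℝ))).card : ℝ) := by
  obtain ⟨n, hn1, hn2⟩ := near (x := l + 2) (by linarith)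
  obtain ⟨hn3, -⟩ := log_bounds (by linarith) hn1 hn2
  have hlog := log4 hl
  have hl12 := log12 hl
  have hl2 := Real.log_two_lt_d9
  have hl3 := Real.log_two_gt_d9
  obtain ⟨H1, hH1⟩ := lowk hm (k := n + 2) (by omega) 1 one_pos
  refine ⟨H1 + 3, fun H hH => ?_⟩
  have h1 : (3 : ℝ) ≤ H := by exact_mod_cast (by omega : 3 ≤ H)
  have h2 := hH1 H (by omega)
  obtain ⟨L, hL⟩ : ∃ L : ℝ, L = Real.log H := ⟨_, rfl⟩
  have hL1 : 1 ≤ L := by
    rw [hL, Real.le_log_iff_exp_le (by linarith)]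
    have := Real.exp_one_lt_d9
    linarith
  rw [← hL] at h2 ⊢
  have hL0 : 0 < L := by linarith
  have hlL : 0 ≤ Real.log L := Real.log_nonneg hL1
  have hp : (2 : ℝ) ^ (n + 2) = 2 * 2 ^ (n + 1) := by ring
  have h3 : (2 : ℝ) ^ (l * Real.log L) ≤
      L ^ (ee m (n + 2 + 1 : ℕ) - ee m (n + 2 : ℕ) - 1) := by
    have h4 := diff_ge hm (k := n + 2) (by omega)
    rw [Real.rpow_def_of_pos hL0, Real.rpow_def_of_pos (by norm_num), Real.exp_le_exp]
    have h5 : l * Real.log 2 ≤ ee m (n + 2 + 1 : ℕ) - ee m (n + 2 : ℕ) - 1 := by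
      rw [hp] at h4
      nlinarith
    have h6 := mul_le_mul_of_nonneg_left h5 hlL
    linarith
  have h4 : (((Cv m H).filter (fun c => L ^ (ee m (n + 2 + 1 : ℕ) - ee m (n + 2 : ℕ) - 1) ≤
      (sz c : ℝ))).card : ℝ) ≤
      (((Cv m H).filter (fun c => (2 : ℝ) ^ (l * Real.log L) ≤ (sz c : ℝ))).card : ℝ) := by
    have : (Cv m H).filter (fun c => L ^ (ee m (n + 2 + 1 : ℕ) - ee m (n + 2 : ℕ) - 1) ≤
        (sz c : ℝ)) ⊆ (Cv m H).filter (fun c => (2 : ℝ) ^ (l * Real.log L) ≤ (sz c : ℝ)) := by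
      intro c hc
      obtain ⟨a1, a2⟩ := mem_filter.1 hc
      exact mem_filter.2 ⟨a1, h3.trans a2⟩
    exact_mod_cast card_le_card this
  refine le_trans ?_ (h2.trans h4)
  rw [mul_comm]
  refine mul_le_mul_of_nonneg_left (Real.rpow_le_rpow_of_exponent_le hL1 ?_) (Nat.cast_nonneg _)
  have h5 := diff_le hm (k := n + 2 + 1) (by omega)
  have h6 := ee_nonneg m ((n + 2 + 1 : ℕ) : ℝ)
  have h7 : (2 : ℝ) ^ (n + 2 + 1) = 8 * 2 ^ n := by ring
  rw [h7] at h5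
  have h8 : ((n : ℝ) + 3) * Real.log 2 ≤ Real.log l + Real.log 12 := by
    have h9 : Real.log (8 * (l + 2)) ≤ Real.log (12 * l) :=
      Real.log_le_log (by linarith) (by linarith)
    rw [Real.log_mul (by norm_num) (by linarith), Real.log_mul (by norm_num) (by linarith)] at h9
    have h10 : Real.log 8 = 3 * Real.log 2 := by
      rw [show (8 : ℝ) = 2 ^ 3 by norm_num, Real.log_pow]
      norm_num
    linarith
  have hlog0 : 0 < Real.log l := by norm_num at hlog; linarith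
  have h9 : (n : ℝ) + 3 ≤ 4.05 * Real.log l := by
    by_contra hc
    push Not at hc
    have h10 : (4.05 * Real.log l) * Real.log 2 ≤ ((n : ℝ) + 3) * Real.log 2 :=
      mul_le_mul_of_nonneg_right hc.le (by linarith)
    have h11 : (4.05 * Real.log l) * 0.6931471803 ≤ (4.05 * Real.log l) * Real.log 2 :=
      mul_le_mul_of_nonneg_left hl3.le (by positivity)
    norm_num at h10 h11
    linarith
  have h10 : ee m (n + 2 + 1 + 1 : ℕ) - ee m (n + 2 + 1 : ℕ) ≤ 24 * l := by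
    have : (2 : ℝ) ^ n ≤ l + 2 := hn1
    linarith
  have h11 : ((n + 2 : ℕ) + 1 : ℝ) * (ee m (n + 2 + 2 : ℕ) - ee m (n + 2 + 1 : ℕ)) ≤
      (4.05 * Real.log l) * (24 * l) := by
    have h12 : ((n + 2 : ℕ) + 1 : ℝ) ≤ 4.05 * Real.log l := by
      push_cast
      linarith
    calc _ ≤ ((n + 2 : ℕ) + 1 : ℝ) * (24 * l) :=
          mul_le_mul_of_nonneg_left h10 (by positivity)
      _ ≤ _ := mul_le_mul_of_nonneg_right h12 (by linarith)
  have h12 : 5 ≤ l * Real.log l := by norm_num at hlog; nlinarith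
  have h13 : (4.05 * Real.log l) * (24 * l) = 486 / 5 * (l * Real.log l) := by ring
  have h14 : 99 * l * Real.log l = 99 * (l * Real.log l) := by ring
  rw [h13] at h11
  rw [h14]
  linarith

end Pool.Agent.N870.H.Rk
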