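import Mathlib
import Pool.Agent.N870.H.Rk2

/-!
# Project H: the tails for the exact torsion group

The curves with a strictly larger torsion group are rarer by a power of the height.
-/

set_option autoImplicit false

namespace Pool.Agent.N870.H.Rk

open Finset Filter Topology Pool.Agent.W307.RT

/-- the number of the curves is at most a power of the height -/
lemma cnt {m k : ℕ} (hk : 1 ≤ k) {C : ℕ} {F : ℤ × ℤ → ℤ × ℤ}
    (hinj : ∀ H : ℕ, Set.InjOn F (Cv m H : Set (ℤ × ℤ)))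
    (hb : ∀ H : ℕ, ∀ c ∈ Cv m H, (F c).1.natAbs ^ k ≤ C * H ∧ (F c).2.natAbs ^ k ≤ C * H) :
    ∃ K : ℝ, 0 < K ∧ ∀ H : ℕ, 1 ≤ H → ((Cv m H).card : ℝ) ≤ K * (H : ℝ) ^ (2 / (k : ℝ)) := by
  classical
  refine ⟨9 * ((C : ℝ) + 1) ^ (2 / (k : ℝ)), by positivity, fun H hH => ?_⟩
  have hH' : (1 : ℝ) ≤ H := by exact_mod_cast hH
  have hC0 : (0 : ℝ) ≤ C := Nat.cast_nonneg _
  obtain ⟨R, hR⟩ : ∃ R : ℝ, R = (((C : ℝ) + 1) * H) ^ ((k : ℝ)⁻¹) := ⟨_, rfl⟩
  have hk0 : k ≠ 0 := by omega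
  have hb1 : (1 : ℝ) ≤ ((C : ℝ) + 1) * H := by nlinarith
  have hR1 : 1 ≤ R := by
    rw [hR]
    exact Real.one_le_rpow hb1 (by positivity)
  obtain ⟨T, hT⟩ : ∃ T : ℕ, T = ⌊R⌋₊ := ⟨_, rfl⟩
  have hTR : (T : ℝ) ≤ R := hT ▸ Nat.floor_le (by linarith)
  have key : ∀ y : ℤ, y.natAbs ^ k ≤ C * H → y.natAbs ≤ T := by
    intro y hy
    rw [hT]
    refine Nat.le_floor ?_
    have h1 : ((y.natAbs : ℝ)) ^ k ≤ ((C : ℝ) + 1) * H := by
      have h2 : ((y.natAbs : ℝ)) ^ k ≤ (C : ℝ) * H := by exact_mod_cast hy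
      linarith
    have h3 := Real.rpow_le_rpow (by positivity) h1 (show (0 : ℝ) ≤ (k : ℝ)⁻¹ by positivity)
    rw [Real.pow_rpow_inv_natCast (Nat.cast_nonneg _) hk0] at h3
    rw [hR]
    exact h3
  have h3 : (Cv m H).card ≤ (2 * T + 1) ^ 2 := by
    have h4 : ((Cv m H).image F) ⊆ (Icc (-(T : ℤ)) T) ×ˢ (Icc (-(T : ℤ)) T) := by
      intro t ht
      obtain ⟨x, hx, rfl⟩ := mem_image.1 ht
      obtain ⟨b1, b2⟩ := hb H x hx
      have e1 := key _ b1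
      have e2 := key _ b2
      rw [mem_product, mem_Icc, mem_Icc]
      omega
    have h5 : (Cv m H).card = ((Cv m H).image F).card := (card_image_of_injOn (hinj H)).symm
    rw [h5]
    refine (card_le_card h4).trans ?_
    rw [card_product, Int.card_Icc]
    have : ((T : ℤ) + 1 - -(T : ℤ)).toNat = 2 * T + 1 := by omega
    rw [this]
    exact le_of_eq (by ring)
  have h4 : ((Cv m H).card : ℝ) ≤ (2 * (T : ℝ) + 1) ^ 2 := by exact_mod_cast h3
  have hT0 : (0 : ℝ) ≤ T := Nat.cast_nonneg _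
  have h5 : (2 * (T : ℝ) + 1) ^ 2 ≤ 9 * R ^ 2 := by nlinarith
  have h6 : R ^ 2 = ((C : ℝ) + 1) ^ (2 / (k : ℝ)) * (H : ℝ) ^ (2 / (k : ℝ)) := by
    rw [hR, ← Real.rpow_natCast, ← Real.rpow_mul (by positivity),
      ← Real.mul_rpow (by positivity) (by positivity)]
    congr 1
    rw [div_eq_mul_inv, mul_comm]
    norm_num
  calc ((Cv m H).card : ℝ) ≤ 9 * R ^ 2 := h4.trans h5
    _ = _ := by rw [h6]; ring

/-- the number of the curves is at least a power of the height -/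
lemma lowc {m k : ℕ} (hk : 1 ≤ k) (h : LOW m k) :
    ∃ (K : ℝ) (H0 : ℕ), 0 < K ∧ ∀ H : ℕ, H0 ≤ H →
      K * (H : ℝ) ^ (2 / (k : ℝ)) ≤ ((Cv m H).card : ℝ) := by
  obtain ⟨c, C, T0, hc, h⟩ := h
  refine ⟨c / 4 * (((C : ℝ) + 1)⁻¹) ^ (2 / (k : ℝ)), (C + 1) * (T0 + 1) ^ k, by positivity,
    fun H hH => ?_⟩
  have hk0 : k ≠ 0 := by omega
  have hC0 : (0 : ℝ) ≤ C := Nat.cast_nonneg _
  have hHr : ((C : ℝ) + 1) * ((T0 : ℝ) + 1) ^ k ≤ H := by exact_mod_cast hH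
  obtain ⟨R, hR⟩ : ∃ R : ℝ, R = (((C : ℝ) + 1)⁻¹ * H) ^ ((k : ℝ)⁻¹) := ⟨_, rfl⟩
  have h1 : ((T0 : ℝ) + 1) ^ k ≤ ((C : ℝ) + 1)⁻¹ * H := by
    rw [inv_mul_eq_div, le_div_iff₀ (by positivity)]
    linarith
  have hRT : (T0 : ℝ) + 1 ≤ R := by
    have h3 := Real.rpow_le_rpow (by positivity) h1 (show (0 : ℝ) ≤ (k : ℝ)⁻¹ by positivity)
    rw [Real.pow_rpow_inv_natCast (by positivity) hk0] at h3
    rw [hR]
    exact h3
  have hT00 : (0 : ℝ) ≤ T0 := Nat.cast_nonneg _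
  obtain ⟨T, hT⟩ : ∃ T : ℕ, T = ⌊R⌋₊ := ⟨_, rfl⟩
  have hTR : (T : ℝ) ≤ R := hT ▸ Nat.floor_le (by linarith)
  have hRT1 : R < T + 1 := hT ▸ Nat.lt_floor_add_one R
  have hT0 : T0 + 1 ≤ T := by
    rw [hT]
    refine Nat.le_floor ?_
    push_cast
    exact hRT
  have hT1 : (1 : ℝ) ≤ T := by exact_mod_cast (by omega : 1 ≤ T)
  have h2 : C * T ^ k ≤ H := by
    have h3 : (T : ℝ) ^ k ≤ ((C : ℝ) + 1)⁻¹ * H := by
      have h4 : (T : ℝ) ^ k ≤ R ^ k := pow_le_pow_left₀ (by positivity) hTR k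
      have h5 : R ^ k = ((C : ℝ) + 1)⁻¹ * H := by
        rw [hR, Real.rpow_inv_natCast_pow (by positivity) hk0]
      rwa [h5] at h4
    have h6 : ((C : ℝ) + 1) * (T : ℝ) ^ k ≤ H := by
      rw [inv_mul_eq_div, le_div_iff₀ (by positivity)] at h3
      linarith
    have h7 : (C : ℝ) * (T : ℝ) ^ k ≤ H := by
      have : (0 : ℝ) ≤ (T : ℝ) ^ k := by positivity
      linarith
    exact_mod_cast h7
  have h3 := h T H (by omega) h2
  have h6 : R ^ 2 = (((C : ℝ) + 1)⁻¹) ^ (2 / (k : ℝ)) * (H : ℝ) ^ (2 / (k : ℝ)) := by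
    rw [hR, ← Real.rpow_natCast, ← Real.rpow_mul (by positivity),
      ← Real.mul_rpow (by positivity) (by positivity)]
    congr 1
    rw [div_eq_mul_inv, mul_comm]
    norm_num
  have h7 : R ^ 2 ≤ 4 * (T : ℝ) ^ 2 := by nlinarith
  calc c / 4 * (((C : ℝ) + 1)⁻¹) ^ (2 / (k : ℝ)) * (H : ℝ) ^ (2 / (k : ℝ))
      = c / 4 * R ^ 2 := by rw [h6]; ring
    _ ≤ c / 4 * (4 * (T : ℝ) ^ 2) := mul_le_mul_of_nonneg_left h7 (by positivity)
    _ = c * (T : ℝ) ^ 2 := by ring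
    _ ≤ _ := h3

/-- a family of lower order -/
lemma rare {m m' k k' : ℕ} (hk : 1 ≤ k) (hkk : k < k') (h : LOW m k)
    (h' : ∃ K : ℝ, 0 < K ∧ ∀ H : ℕ, 1 ≤ H →
      ((Cv m' H).card : ℝ) ≤ K * (H : ℝ) ^ (2 / (k' : ℝ))) (B : ℝ) :
    ∃ H0 : ℕ, ∀ H : ℕ, H0 ≤ H →
      ((Cv m' H).card : ℝ) ≤ (Real.log H) ^ (-B) * ((Cv m H).card : ℝ) := by
  obtain ⟨K, H1, hK, h1⟩ := lowc hk h
  obtain ⟨K', hK', h2⟩ := h'
  have hk0 : (0 : ℝ) < k := by exact_mod_cast hk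
  have hkk' : (k : ℝ) < k' := by exact_mod_cast hkk
  have hk0' : (0 : ℝ) < k' := by linarith
  have hs : 0 < 2 / (k : ℝ) - 2 / (k' : ℝ) := by
    rw [sub_pos]
    exact div_lt_div_of_pos_left (by norm_num) hk0 hkk'
  have h3 := (isLittleO_log_rpow_rpow_atTop B hs).def (show 0 < K / K' by positivity)
  have h4 := (tendsto_natCast_atTop_atTop (R := ℝ)).eventually h3
  obtain ⟨H2, hH2⟩ := eventually_atTop.1 h4
  refine ⟨H1 + H2 + 3, fun H hH => ?_⟩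
  have hH3 : (3 : ℝ) ≤ H := by exact_mod_cast (by omega : 3 ≤ H)
  have a1 := h1 H (by omega)
  have a2 := h2 H (by omega)
  have a3 := hH2 H (by omega)
  have hlog : 0 < Real.log H := Real.log_pos (by linarith)
  have hH0 : (0 : ℝ) < H := by linarith
  rw [Real.norm_of_nonneg (Real.rpow_nonneg hlog.le _),
    Real.norm_of_nonneg (Real.rpow_nonneg hH0.le _)] at a3
  have b0 : 0 < (Real.log H) ^ B := Real.rpow_pos_of_pos hlog _
  have b1 : (Real.log H) ^ (-B) * (Real.log H) ^ B = 1 := by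
    rw [← Real.rpow_add hlog]
    simp
  have b2 : (H : ℝ) ^ (2 / (k : ℝ) - 2 / (k' : ℝ)) * (H : ℝ) ^ (2 / (k' : ℝ)) =
      (H : ℝ) ^ (2 / (k : ℝ)) := by
    rw [← Real.rpow_add hH0]
    congr 1
    ring
  have b3 : 0 < (H : ℝ) ^ (2 / (k' : ℝ)) := Real.rpow_pos_of_pos hH0 _
  have b4 : 0 < (Real.log H) ^ (-B) := Real.rpow_pos_of_pos hlog _
  calc ((Cv m' H).card : ℝ) ≤ K' * (H : ℝ) ^ (2 / (k' : ℝ)) := a2
    _ = (Real.log H) ^ (-B) * (K' * (Real.log H) ^ B * (H : ℝ) ^ (2 / (k' : ℝ))) := by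
        calc K' * (H : ℝ) ^ (2 / (k' : ℝ)) =
            ((Real.log H) ^ (-B) * (Real.log H) ^ B) * (K' * (H : ℝ) ^ (2 / (k' : ℝ))) := by
              rw [b1, one_mul]
          _ = _ := by ring
    _ ≤ (Real.log H) ^ (-B) * (K' * (K / K' * (H : ℝ) ^ (2 / (k : ℝ) - 2 / (k' : ℝ))) *
          (H : ℝ) ^ (2 / (k' : ℝ))) := by
        refine mul_le_mul_of_nonneg_left ?_ b4.le
        refine mul_le_mul_of_nonneg_right ?_ b3.le
        exact mul_le_mul_of_nonneg_left a3 hK'.le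
    _ = (Real.log H) ^ (-B) * (K * (H : ℝ) ^ (2 / (k : ℝ))) := by
        rw [← b2]
        field_simp
    _ ≤ _ := mul_le_mul_of_nonneg_left a1 b4.le

/-- a point of order 8 and full 2-torsion -/
lemma ord8 {G : Type} [AddCommGroup G]
    (h2 : ∃ P Q : G, addOrderOf P = 4 ∧ addOrderOf Q = 2 ∧ Q ∉ AddSubgroup.zmultiples P)
    (h8 : ∃ R : G, addOrderOf R = 8) :
    ∃ P Q : G, addOrderOf P = 8 ∧ addOrderOf Q = 2 ∧ Q ∉ AddSubgroup.zmultiples P := by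
  obtain ⟨P, Q, hP, hQ, hPQ⟩ := h2
  obtain ⟨R, hR⟩ := h8
  by_cases hQR : Q ∈ AddSubgroup.zmultiples R
  · have key : ∀ X : G, addOrderOf X = 2 → X ∈ AddSubgroup.zmultiples R → X = 4 • R := by
      intro X hX hXR
      obtain ⟨k, rfl⟩ := AddSubgroup.mem_zmultiples_iff.1 hXR
      have h1 : (2 : ℤ) • (k • R) = 0 := by
        have := addOrderOf_nsmul_eq_zero (k • R)
        rw [hX] at this
        exact_mod_cast this
      rw [smul_smul, ← addOrderOf_dvd_iff_zsmul_eq_zero, hR] at h1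
      have h2 : k • R ≠ 0 := by
        intro h
        rw [h, addOrderOf_zero] at hX
        omega
      have h3 : ¬ ((addOrderOf R : ℕ) : ℤ) ∣ k := by
        intro h
        exact h2 (addOrderOf_dvd_iff_zsmul_eq_zero.1 h)
      rw [hR] at h3
      have h4 : ((addOrderOf R : ℕ) : ℤ) ∣ k - 4 := by
        rw [hR]
        push_cast at h1 h3 ⊢
        omega
      have h5 := addOrderOf_dvd_iff_zsmul_eq_zero.1 h4
      rw [sub_zsmul] at h5
      rw [add_neg_eq_zero.1 h5]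
      exact natCast_zsmul R 4
    have h2P : addOrderOf (2 • P) = 2 := by
      rw [addOrderOf_nsmul_of_dvd (by norm_num) (by rw [hP]; norm_num), hP]
    refine ⟨R, 2 • P, hR, h2P, fun h => hPQ ?_⟩
    rw [key Q hQ hQR, ← key _ h2P h]
    exact AddSubgroup.nsmul_mem _ (AddSubgroup.mem_zmultiples P) 2
  · exact ⟨R, Q, hR, hQ, hQR⟩

/-- the curves with a larger torsion group are rare -/
theorem bad {m : ℕ} (hm : m = 2 ∨ m = 4 ∨ m = 6 ∨ m = 8) (B : ℝ) :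
    ∃ H0 : ℕ, ∀ H : ℕ, H0 ≤ H →
      ((Cv m H \ G m H).card : ℝ) ≤ (Real.log H) ^ (-B) * ((Cv m H).card : ℝ) := by
  classical
  have hz : ∀ m : ℕ, (∀ H, G m H = Cv m H) → ∃ H0 : ℕ, ∀ H : ℕ, H0 ≤ H →
      ((Cv m H \ G m H).card : ℝ) ≤ (Real.log H) ^ (-B) * ((Cv m H).card : ℝ) := by
    intro m h
    refine ⟨0, fun H _ => ?_⟩
    rw [h H, sdiff_self]
    have h1 : 0 ≤ Real.log (H : ℝ) := Real.log_natCast_nonneg H
    simpa using mul_nonneg (Real.rpow_nonneg h1 (-B)) (Nat.cast_nonneg (Cv m H).card)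
  rcases hm with rfl | rfl | rfl | rfl
  · obtain ⟨C4, F4, h4⟩ := Pool.Agent.W605.RT.par4_of Pool.Agent.W261.RT.iso
    obtain ⟨C6, F6, h6⟩ := Pool.Agent.Y606.Z8.px6.1
    obtain ⟨H1, hH1⟩ := rare (m := 2) (k := 6) (by norm_num) (by norm_num : 6 < 12)
      Pool.Agent.W672.FK.lowf (cnt (m := 4) (k := 12) (by norm_num) (fun H => (h4 H).1)
        fun H c hc => ⟨((h4 H).2 c hc).2.2.2.2.1, ((h4 H).2 c hc).2.2.2.2.2.1⟩) (B + 1)
    obtain ⟨H2, hH2⟩ := rare (m := 2) (k := 6) (by norm_num) (by norm_num : 6 < 24)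
      Pool.Agent.W672.FK.lowf (cnt (m := 6) (k := 24) (by norm_num) (fun H => (h6 H).1)
        fun H c hc => ⟨((h6 H).2 c hc).2.2.2.2.1, ((h6 H).2 c hc).2.2.2.2.2.1⟩) (B + 1)
    refine ⟨H1 + H2 + 8, fun H hH => ?_⟩
    have a1 := hH1 H (by omega)
    have a2 := hH2 H (by omega)
    have h8 : (8 : ℝ) ≤ H := by exact_mod_cast (by omega : 8 ≤ H)
    have hlog : 2 ≤ Real.log H := by
      rw [Real.le_log_iff_exp_le (by linarith)]
      have h1 := Real.exp_one_lt_d9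
      have h2 : Real.exp 2 = Real.exp 1 * Real.exp 1 := by rw [← Real.exp_add]; norm_num
      have h3 := Real.exp_pos 1
      nlinarith
    have a3 : (Cv 2 H \ G 2 H).card ≤ (Cv 4 H).card + (Cv 6 H).card := by
      refine le_trans (card_le_card ?_) (card_union_le _ _)
      intro c hc
      obtain ⟨b1, b2⟩ := mem_sdiff.1 hc
      rw [G_two] at b2
      rcases mem_union.1 (Pool.Agent.Y294.ET.cover34 H b1) with h | h
      · exact absurd h b2
      · exact h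
    have a4 : ((Cv 2 H \ G 2 H).card : ℝ) ≤ (Cv 4 H).card + (Cv 6 H).card := by
      exact_mod_cast a3
    have a5 : (Real.log H) ^ (-B) = (Real.log H) ^ (-(B + 1)) * Real.log H := by
      have : (Real.log H) ^ (-(B + 1)) * Real.log H =
          (Real.log H) ^ (-(B + 1)) * (Real.log H) ^ (1 : ℝ) := by rw [Real.rpow_one]
      rw [this, ← Real.rpow_add (by linarith)]
      congr 1
      ring
    have a6 : 0 ≤ (Real.log H) ^ (-(B + 1)) * ((Cv 2 H).card : ℝ) :=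
      mul_nonneg (Real.rpow_nonneg (by linarith) _) (Nat.cast_nonneg _)
    rw [a5]
    nlinarith
  · obtain ⟨C8, F8, h8⟩ := Pool.Agent.Y38.Z8.px8.1
    obtain ⟨H1, hH1⟩ := rare (m := 4) (k := 12) (by norm_num) (by norm_num : 12 < 48)
      Pool.Agent.W29.RT.low4 (cnt (m := 8) (k := 48) (by norm_num) (fun H => (h8 H).1)
        fun H c hc => ⟨((h8 H).2 c hc).2.2.2.2.1, ((h8 H).2 c hc).2.2.2.2.2.1⟩) B
    refine ⟨H1, fun H hH => le_trans ?_ (hH1 H hH)⟩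
    have : Cv 4 H \ G 4 H ⊆ Cv 8 H := by
      intro c hc
      obtain ⟨b1, b2⟩ := mem_sdiff.1 hc
      rw [G_four] at b2
      have b3 : HasT 4 (Sh c.1 c.2) := by
        unfold Cv at b1
        exact (mem_filter.1 b1).2.2.2.2.2
      have b4 : ∃ R : (Sh c.1 c.2).toAffine.Point, addOrderOf R = 8 := by
        by_contra hcon
        push Not at hcon
        refine b2 ?_
        unfold Pool.Agent.Y294.ET.G8
        exact mem_filter.2 ⟨b1, hcon⟩
      have b5 : HasT 8 (Sh c.1 c.2) := ord8 b3 b4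
      unfold Cv at b1 ⊢
      rw [mem_filter] at b1 ⊢
      exact ⟨b1.1, b1.2.1, b1.2.2.1, b1.2.2.2.1, b1.2.2.2.2.1, b5⟩
    exact_mod_cast card_le_card this
  · exact hz 6 fun H => G_other (by norm_num) (by norm_num) H
  · exact hz 8 fun H => G_other (by norm_num) (by norm_num) H

open Classical in
/-- from `Cv` to the exact torsion group -/
lemma exact {m : ℕ} (hm : m = 2 ∨ m = 4 ∨ m = 6 ∨ m = 8) (P : ℕ → ℤ × ℤ → Prop) (B B' : ℝ)
    (hB : B < B') (h : ∃ H₀ : ℕ, ∀ H : ℕ, H₀ ≤ H →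
      (Real.log H) ^ (-B) * (Cv m H).card ≤ (((Cv m H).filter (P H)).card : ℝ)) :
    ∃ H₀ : ℕ, ∀ H : ℕ, H₀ ≤ H →
      (Real.log H) ^ (-B') * (G m H).card ≤ (((G m H).filter (P H)).card : ℝ) := by
  obtain ⟨H1, h1⟩ := h
  obtain ⟨H2, h2⟩ := bad hm B'
  obtain ⟨H3, h3⟩ := eventually_atTop.1 (((tendsto_rpow_atTop (sub_pos.2 hB)).comp
    (Real.tendsto_log_atTop.comp (tendsto_natCast_atTop_atTop (R := ℝ)))).eventually_ge_atTop 2)
  refine ⟨H1 + H2 + H3 + 3, fun H hH => ?_⟩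
  have a1 := h1 H (by omega)
  have a2 := h2 H (by omega)
  have a3 : 2 ≤ (Real.log H) ^ (B' - B) := h3 H (by omega)
  have hH3 : (3 : ℝ) ≤ H := by exact_mod_cast (by omega : 3 ≤ H)
  have hlog : 0 < Real.log H := Real.log_pos (by linarith)
  have a4 : ((Cv m H).filter (P H)).card ≤ ((G m H).filter (P H)).card +
      (Cv m H \ G m H).card := by
    refine le_trans (card_le_card ?_) (card_union_le _ _)
    intro c hc
    obtain ⟨b1, b2⟩ := mem_filter.1 hc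
    rw [mem_union, mem_filter, Finset.mem_sdiff]
    by_cases h : c ∈ G m H
    · exact Or.inl ⟨h, b2⟩
    · exact Or.inr ⟨b1, h⟩
  have a5 : (((Cv m H).filter (P H)).card : ℝ) ≤ (((G m H).filter (P H)).card : ℝ) +
      ((Cv m H \ G m H).card : ℝ) := by exact_mod_cast a4
  have a6 : (Real.log H) ^ (-B) = (Real.log H) ^ (-B') * (Real.log H) ^ (B' - B) := by
    rw [← Real.rpow_add hlog]
    congr 1
    ring
  have a7 : ((G m H).card : ℝ) ≤ (Cv m H).card := by exact_mod_cast card_le_card (G_sub m H)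
  have a8 : 0 < (Real.log H) ^ (-B') := Real.rpow_pos_of_pos hlog _
  have a9 : 0 ≤ (Real.log H) ^ (-B') * ((Cv m H).card : ℝ) :=
    mul_nonneg a8.le (Nat.cast_nonneg _)
  have a10 : (Real.log H) ^ (-B) * (Cv m H).card ≥ 2 * ((Real.log H) ^ (-B') * (Cv m H).card) := by
    rw [a6]
    nlinarith
  have a11 : (Real.log H) ^ (-B') * (G m H).card ≤ (Real.log H) ^ (-B') * (Cv m H).card :=
    mul_le_mul_of_nonneg_left a7 a8.le
  linarith

open Classical in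
/-- **the lower bound for the exact torsion group** -/
theorem lowerG {m : ℕ} (hm : m = 2 ∨ m = 4 ∨ m = 6 ∨ m = 8) (l : ℝ) (hl : 4 ≤ l) :
    ∃ H₀ : ℕ, ∀ H : ℕ, H₀ ≤ H →
      (Real.log H) ^ (-(100 * l * Real.log l)) * (G m H).card ≤
      (((G m H).filter (fun c => (2 : ℝ) ^ (l * Real.log (Real.log H)) ≤
        (sz c : ℝ))).card : ℝ) := by
  have hlog := log4 hl
  norm_num at hlog
  exact exact hm (fun H c => (2 : ℝ) ^ (l * Real.log (Real.log H)) ≤ (sz c : ℝ))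
    (99 * l * Real.log l) (100 * l * Real.log l) (by nlinarith) (lower hm l hl)

end Pool.Agent.N870.H.Rk
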